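import Pool.Agent.Lib.MP_7d9ca0_co.Defs

namespace Pool.Agent.Lib.MP_7d9ca0_co

open SimpleGraph Function

structure Anti {V : Type} (G : SimpleGraph V) (c : V → Bool) (bar : V → V) : Prop where
  ne : Nonempty V
  inv : ∀ v, bar (bar v) = v
  bar_ne : ∀ v, bar v ≠ v
  c_bar : ∀ v, c (bar v) = c v
  adj_ne : ∀ u w, G.Adj u w → c u ≠ c w
  flip : ∀ u w, c u ≠ c w → (G.Adj (bar u) w ↔ ¬ G.Adj u w)
  common : ∀ u u', c u = c u' → u' ≠ bar u → ∃ w, G.Adj u w ∧ G.Adj u' w
  third : ∀ u, ∃ u', c u' = c u ∧ u' ≠ u ∧ u' ≠ bar u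

variable {V : Type} {G : SimpleGraph V} {c : V → Bool} {bar : V → V}

theorem even_dist_iff (hc : G.Connected) (h : ∀ u w, G.Adj u w → c u ≠ c w) (u v : V) :
    Even (G.dist u v) ↔ c u = c v := by
  obtain ⟨p, hp⟩ := hc.exists_walk_length_eq_dist u v
  have := (Coloring.mk c (fun {u w} => h u w)).even_length_iff_congr p
  rw [← hp, this]
  exact Bool.eq_iff_iff.symm

theorem common_of_dist_two {u v : V} (h : G.dist u v = 2) : ∃ w, G.Adj u w ∧ G.Adj v w := by
  have h1 : G.Reachable u v := Reachable.of_dist_ne_zero (by omega)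
  have h2 : G.edist u v = 2 := by rw [← h1.coe_dist_eq_edist, h]; rfl
  obtain ⟨w, hw⟩ := (edist_eq_two_iff.1 h2).2.2
  exact ⟨w, hw.1, hw.2⟩

namespace Anti

theorem transport {W : Type} {H : SimpleGraph W} (h : Anti G c bar) (e : G ≃g H) :
    Anti H (fun w => c (e.symm w)) (fun w => e (bar (e.symm w))) where
  ne := h.ne.map e
  inv v := by simp [h.inv]
  bar_ne v hv := h.bar_ne (e.symm v) (by simpa using congrArg e.symm hv)
  c_bar v := by simp [h.c_bar]
  adj_ne u w huw := h.adj_ne _ _ (e.symm.map_rel_iff.2 huw)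
  flip u w huw := by
    rw [← e.symm.map_rel_iff, ← e.symm.map_rel_iff (a := u)]
    simpa using h.flip _ _ huw
  common u u' h1 h2 := by
    obtain ⟨w, hw1, hw2⟩ := h.common _ _ h1 (fun h3 => h2 (by rw [← h3]; simp))
    exact ⟨e w, by simpa using e.map_rel_iff.2 hw1, by simpa using e.map_rel_iff.2 hw2⟩
  third u := by
    obtain ⟨u', h1, h2, h3⟩ := h.third (e.symm u)
    exact ⟨e u', by simpa using h1, fun h4 => h2 (by rw [← h4]; simp),
      fun h4 => h3 (e.injective h4)⟩

theorem other (h : Anti G c bar) {u w : V} (huw : c u ≠ c w) :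
    ∃ x, G.Adj x w ∧ x ≠ u ∧ x ≠ bar u := by
  obtain ⟨u', h1, h2, h3⟩ := h.third u
  by_cases h4 : G.Adj u' w
  · exact ⟨u', h4, h2, h3⟩
  · refine ⟨bar u', (h.flip u' w (h1 ▸ huw)).2 h4, fun h5 => h3 ?_, fun h5 => h2 ?_⟩
    · rw [← h5, h.inv]
    · rw [← h.inv u', h5, h.inv]

theorem same_side (h : Anti G c bar) {u w x : V} (huw : c u ≠ c w) (hx : G.Adj x w) :
    c u = c x := by
  have := h.adj_ne _ _ hx
  revert this huw
  cases c u <;> cases c w <;> cases c x <;> simp

theorem walk_le (h : Anti G c bar) (u v : V) : ∃ p : G.Walk u v, p.length ≤ 4 := by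
  have h2 : ∀ u v, c u = c v → v ≠ bar u → ∃ p : G.Walk u v, p.length = 2 := by
    intro u v h1 h2
    obtain ⟨w, hw1, hw2⟩ := h.common u v h1 h2
    exact ⟨Walk.cons hw1 (Walk.cons hw2.symm Walk.nil), rfl⟩
  have h3 : ∀ u v, c u ≠ c v → ∃ p : G.Walk u v, p.length = 3 := by
    intro u v h1
    obtain ⟨x, hx1, -, hx3⟩ := h.other h1
    obtain ⟨p, hp⟩ := h2 u x (h.same_side h1 hx1) hx3
    exact ⟨p.concat hx1, by simp [hp]⟩
  by_cases h4 : c u = c v
  · obtain ⟨w, hw, -⟩ := h.common v v rfl (h.bar_ne v).symm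
    obtain ⟨p, hp⟩ := h3 u w (h4 ▸ h.adj_ne _ _ hw)
    exact ⟨p.concat hw.symm, by simp [hp]⟩
  · obtain ⟨p, hp⟩ := h3 u v h4
    exact ⟨p, by omega⟩

theorem connected (h : Anti G c bar) : G.Connected :=
  have := h.ne
  ⟨fun u v => (h.walk_le u v).elim fun p _ => ⟨p⟩⟩

theorem dist_le_four (h : Anti G c bar) (u v : V) : G.dist u v ≤ 4 :=
  (h.walk_le u v).elim fun p hp => (dist_le p).trans hp

theorem dist_bar (h : Anti G c bar) (u : V) : G.dist u (bar u) = 4 := by
  have h1 := h.dist_le_four u (bar u)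
  obtain ⟨k, hk⟩ := (even_dist_iff h.connected h.adj_ne u (bar u)).2 (h.c_bar u).symm
  have h2 := h.connected.pos_dist_of_ne (h.bar_ne u).symm
  have h3 : G.dist u (bar u) ≠ 2 := by
    intro h3
    obtain ⟨w, hw1, hw2⟩ := common_of_dist_two h3
    exact (h.flip u w (h.adj_ne _ _ hw1)).1 hw2 hw1
  omega

theorem diam_eq (h : Anti G c bar) : G.diam = 4 := by
  have h1 : G.ediam ≤ 4 := ediam_le_of_edist_le fun u v => by
    rw [← (h.connected u v).coe_dist_eq_edist]
    exact_mod_cast h.dist_le_four u v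
  obtain ⟨u⟩ := h.ne
  have h2 : (4 : ℕ∞) ≤ G.ediam := by
    refine le_trans ?_ (edist_le_ediam (u := u) (v := bar u))
    rw [← (h.connected u (bar u)).coe_dist_eq_edist, h.dist_bar]
    rfl
  rw [diam, le_antisymm h1 h2]
  rfl

theorem climb (h : Anti G c bar) (v x : V) (hx : x ≠ bar v) :
    ∃ y, G.Adj x y ∧ G.dist v x < G.dist v y := by
  have he := even_dist_iff h.connected h.adj_ne v
  by_cases h1 : c v = c x
  · obtain ⟨w, hw1, hw2⟩ := h.common v x h1 hx
    have h2 : G.dist v x ≤ 2 := dist_le (Walk.cons hw1 (Walk.cons hw2.symm Walk.nil))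
    by_cases h3 : x = v
    · subst h3
      exact ⟨w, hw1, by rw [dist_self, dist_eq_one_iff_adj.2 hw1]; omega⟩
    · obtain ⟨y, hy1, hy2⟩ := h.common (bar v) x (by rw [h.c_bar, h1]) (by rwa [h.inv])
      refine ⟨y, hy2, ?_⟩
      have h4 : c v ≠ c y := h1 ▸ h.adj_ne _ _ hy2
      have h5 : G.dist v y ≠ 1 := fun h5 => (h.flip v y h4).1 hy1 (dist_eq_one_iff_adj.1 h5)
      have h6 := mt (he y).1 h4
      rw [Nat.not_even_iff] at h6
      omega
  · have h6 := mt (he x).1 h1
    rw [Nat.not_even_iff] at h6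
    by_cases h2 : G.Adj v x
    · obtain ⟨y, hy1, hy2, -⟩ := h.other h1
      refine ⟨y, hy1.symm, ?_⟩
      have h3 := h.connected.pos_dist_of_ne hy2.symm
      have h4 := (he y).2 (h.same_side h1 hy1)
      rw [Nat.even_iff] at h4
      rw [dist_eq_one_iff_adj.2 h2]
      omega
    · refine ⟨bar v, ((h.flip v x h1).2 h2).symm, ?_⟩
      have := h.dist_le_four v x
      rw [h.dist_bar]
      omega

theorem isSGraph (h : Anti G c bar) : IsSGraph G := by
  refine ⟨h.connected, ?_, fun v => ?_⟩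
  · simpa using (Coloring.mk c (fun {u w} => h.adj_ne u w)).colorable
  · rw [Set.ncard_eq_one]
    refine ⟨bar v, Set.eq_singleton_iff_unique_mem.2 ⟨fun y _ => ?_, fun x hx => ?_⟩⟩
    · rw [h.dist_bar]
      exact h.dist_le_four v y
    · by_contra h1
      obtain ⟨y, hy1, hy2⟩ := h.climb v x h1
      exact (hx y hy1).not_gt hy2

theorem two_le (h : Anti G c bar) [Finite V] (w : V) : 2 ≤ (G.neighborSet w).ncard := by
  obtain ⟨u, hu, -⟩ := h.common w w rfl (h.bar_ne w).symm
  obtain ⟨x, hx1, hx2, -⟩ := h.other (h.adj_ne _ _ hu.symm)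
  exact (Set.one_lt_ncard (Set.toFinite _)).2 ⟨x, hx1.symm, u, hu, hx2⟩

end Anti

theorem exists_anti [Finite V] (h : IsSGraph G) (hd : G.diam = 4) : ∃ c bar, Anti G c bar := by
  obtain ⟨hc, ⟨col⟩, h3⟩ := h
  let col' : G.Coloring Bool := recolorOfEquiv G finTwoEquiv col
  have hcol : ∀ u w, G.Adj u w → col' u ≠ col' w := fun u w h => col'.valid h
  have he := even_dist_iff hc hcol
  simp only [Set.ncard_eq_one] at h3
  choose bar hbar using h3
  have hmax : ∀ v x, (∀ y, G.Adj x y → G.dist v y ≤ G.dist v x) ↔ x = bar v := fun v x =>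
    Set.ext_iff.1 (hbar v) x
  have hle : ∀ u v, G.dist u v ≤ 4 := fun u v =>
    hd ▸ dist_le_diam (ediam_ne_top_of_diam_ne_zero (by omega))
  have hclimb : ∀ v x, x ≠ bar v → ∃ y, G.Adj x y ∧ G.dist v y = G.dist v x + 1 := by
    intro v x hx
    rw [Ne, ← hmax] at hx
    push Not at hx
    obtain ⟨y, hy1, hy2⟩ := hx
    refine ⟨y, hy1, ?_⟩
    have := hc.dist_triangle (u := v) (v := x) (w := y)
    rw [dist_eq_one_iff_adj.2 hy1] at this
    omega
  have hsum : ∀ v x, G.dist v x + G.dist x (bar v) = G.dist v (bar v) := by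
    intro v
    have : ∀ k x, 4 - G.dist v x = k → G.dist v x + G.dist x (bar v) ≤ G.dist v (bar v) := by
      intro k
      induction k using Nat.strong_induction_on with
      | _ k ih =>
        intro x hk
        by_cases hx : x = bar v
        · subst hx; simp
        · obtain ⟨y, hy1, hy2⟩ := hclimb v x hx
          have h1 := hle v y
          have h2 := ih (4 - G.dist v y) (by omega) y rfl
          have h3 := hc.dist_triangle (u := x) (v := y) (w := bar v)
          rw [dist_eq_one_iff_adj.2 hy1] at h3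
          omega
    exact fun x => le_antisymm (this _ x rfl) hc.dist_triangle
  have hinv : ∀ v, bar (bar v) = v := by
    intro v
    refine ((hmax (bar v) v).1 fun y _ => ?_).symm
    have := hsum v y
    rw [dist_comm (u := bar v), dist_comm (u := bar v)]
    omega
  have hadj : ∀ u v, G.Adj u v → G.dist u (bar u) = G.dist v (bar v) := by
    intro u v huv
    have h1 := hsum u v
    have h2 := hsum v u
    have h3 := hsum u (bar v)
    have h4 := hsum v (bar u)
    rw [dist_eq_one_iff_adj.2 huv] at h1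
    rw [dist_eq_one_iff_adj.2 huv.symm] at h2
    rw [dist_comm (u := bar v)] at h3
    omega
  have hconst : ∀ u v, G.dist u (bar u) = G.dist v (bar v) := by
    intro u v
    obtain ⟨p⟩ := hc u v
    induction p with
    | nil => rfl
    | cons h _ ih => rw [hadj _ _ h, ih]
  have := hc.nonempty
  have h4 : ∀ v, G.dist v (bar v) = 4 := by
    intro v
    obtain ⟨a, b, hab⟩ := exists_dist_eq_diam (G := G)
    have h1 := hsum a b
    have h2 := hle a (bar a)
    rw [hconst v a]
    omega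
  have hne : ∀ v, bar v ≠ v := fun v hv => by
    have := h4 v
    rw [hv, dist_self] at this
    omega
  refine ⟨col', bar, this, hinv, hne, fun v => ?_, hcol, fun u w huw => ?_, fun u u' h1 h2 => ?_,
    fun u => ?_⟩
  · exact ((he v (bar v)).1 (by rw [h4]; decide)).symm
  · have h1 := mt (he u w).1 huw
    rw [Nat.not_even_iff] at h1
    have h2 := hsum u w
    rw [h4, dist_comm (u := w)] at h2
    rw [← dist_eq_one_iff_adj, ← dist_eq_one_iff_adj]
    omega
  · by_cases h3 : u' = u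
    · obtain ⟨y, hy, -⟩ := hclimb u u (hne u).symm
      exact ⟨y, hy, h3 ▸ hy⟩
    · have h5 := (he u u').2 h1
      rw [Nat.even_iff] at h5
      have h6 := hsum u u'
      have h7 := hc.pos_dist_of_ne h2
      have h8 := hc.pos_dist_of_ne (Ne.symm h3)
      rw [h4] at h6
      exact common_of_dist_two (by omega)
  · obtain ⟨y, -, hy⟩ := hclimb u u (hne u).symm
    rw [dist_self] at hy
    obtain ⟨x, -, hx⟩ := hclimb u y (fun h => by rw [h, h4] at hy; omega)
    refine ⟨x, ((he u x).1 (by rw [hx, hy]; decide)).symm, fun h => ?_, fun h => ?_⟩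
    · rw [h, dist_self] at hx; omega
    · rw [h, h4] at hx; omega

end Pool.Agent.Lib.MP_7d9ca0_co
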