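import Pool.Agent.Lib.MP_7d9ca0_co.Avg

namespace Pool.Agent.Lib.MP_7d9ca0_co

open Finset Nat

noncomputable section

/-- Pairs of partitions (a, b) with |a| + 2|b| = d. -/
def PP (d : ℕ) : Finset (Multiset ℕ × Multiset ℕ) :=
  (range (d / 2 + 1)).biUnion fun k =>
    (univ : Finset ((d - 2 * k).Partition × k.Partition)).image fun ab => (ab.1.parts, ab.2.parts)

def sz (x : Multiset ℕ × Multiset ℕ) : ℕ := x.1.sum + 2 * x.2.sum

def ln (x : Multiset ℕ × Multiset ℕ) : ℕ := x.1.card + x.2.card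

def Wt (x : Multiset ℕ × Multiset ℕ) : ℚ := (-1) ^ x.2.card / (zee x.1 * zee x.2 * 2 ^ ln x)

theorem mem_PP {d : ℕ} {x : Multiset ℕ × Multiset ℕ} :
    x ∈ PP d ↔ (∀ i ∈ x.1, 0 < i) ∧ (∀ j ∈ x.2, 0 < j) ∧ sz x = d := by
  simp only [PP, mem_biUnion, mem_range, mem_image, mem_univ, true_and, sz]
  constructor
  · rintro ⟨k, hk, ⟨a, b⟩, rfl⟩
    refine ⟨fun i hi => a.parts_pos hi, fun j hj => b.parts_pos hj, ?_⟩
    rw [a.parts_sum, b.parts_sum]
    omega
  · rintro ⟨h1, h2, h3⟩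
    exact ⟨x.2.sum, by omega, (⟨x.1, fun h => h1 _ h, by omega⟩, ⟨x.2, fun h => h2 _ h, rfl⟩), rfl⟩

theorem avg_eq (d : ℕ) (F : Multiset ℕ → ℚ) : avg d F = ∑ x ∈ PP d, Wt x * F (x.1 + x.2) := by
  rw [PP, sum_biUnion, avg]
  · refine sum_congr rfl fun k _ => ?_
    rw [sum_image, Fintype.sum_prod_type]
    · refine sum_congr rfl fun a _ => sum_congr rfl fun b _ => ?_
      simp only [Wt, ln]
      ring
    · rintro ⟨a, b⟩ _ ⟨a', b'⟩ _ h
      simp only [Prod.mk.injEq] at h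
      exact Prod.ext (Nat.Partition.ext h.1) (Nat.Partition.ext h.2)
  · intro k _ k' _ hk
    rw [Function.onFun, disjoint_left]
    intro x hx hx'
    simp only [mem_image, mem_univ, true_and] at hx hx'
    obtain ⟨⟨a, b⟩, rfl⟩ := hx
    obtain ⟨⟨a', b'⟩, h⟩ := hx'
    have h2 := congrArg (fun z => z.2.sum) h
    simp only [Nat.Partition.parts_sum] at h2
    exact hk h2.symm

theorem card_partition_le (n : ℕ) : Fintype.card n.Partition ≤ 2 ^ n := by
  refine (Fintype.card_le_of_surjective _ Nat.Partition.ofComposition_surj).trans ?_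
  rw [composition_card]
  exact Nat.pow_le_pow_right (by norm_num) (by omega)

theorem card_PP (d : ℕ) : #(PP d) ≤ 4 ^ d := by
  have h : #(PP d) ≤ (d / 2 + 1) * 2 ^ d := by
    refine (card_biUnion_le_card_mul _ _ (2 ^ d) fun k hk => ?_).trans (by rw [card_range])
    refine card_image_le.trans ?_
    rw [Finset.card_univ, Fintype.card_prod]
    refine (Nat.mul_le_mul (card_partition_le _) (card_partition_le _)).trans ?_
    rw [← pow_add]
    have := mem_range.1 hk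
    exact Nat.pow_le_pow_right (by norm_num) (by omega)
  have h2 : d < 2 ^ d := Nat.lt_two_pow_self
  calc #(PP d) ≤ (d / 2 + 1) * 2 ^ d := h
    _ ≤ 2 ^ d * 2 ^ d := Nat.mul_le_mul_right _ (by omega)
    _ = 4 ^ d := by rw [← mul_pow]; rfl

theorem card_le_sum' {l : Multiset ℕ} {a : ℕ} (h : ∀ i ∈ l, a ≤ i) : a * l.card ≤ l.sum := by
  have := Multiset.card_nsmul_le_sum h
  rwa [smul_eq_mul, mul_comm] at this

/-- Cores of deficiency M: no part 1 in the first partition. -/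
def TT (M : ℕ) : Finset (Multiset ℕ × Multiset ℕ) :=
  (range (2 * M + 1)).biUnion fun n => (PP n).filter fun x => 1 ∉ x.1 ∧ n = ln x + M

theorem mem_TT {M : ℕ} {c : Multiset ℕ × Multiset ℕ} :
    c ∈ TT M ↔ (∀ i ∈ c.1, 2 ≤ i) ∧ (∀ j ∈ c.2, 0 < j) ∧ sz c = ln c + M := by
  simp only [TT, mem_biUnion, mem_range, mem_filter, mem_PP]
  constructor
  · rintro ⟨n, _, ⟨h1, h2, h3⟩, h4, h5⟩
    refine ⟨fun i hi => ?_, h2, by omega⟩
    have := h1 i hi
    have : i ≠ 1 := fun h => h4 (h ▸ hi)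
    omega
  · rintro ⟨h1, h2, h3⟩
    have h4 := card_le_sum' h1
    have h5 := card_le_sum' (a := 1) h2
    refine ⟨sz c, ?_, ⟨fun i hi => by have := h1 i hi; omega, h2, rfl⟩,
      fun h => by have := h1 1 h; omega, h3⟩
    simp only [sz, ln] at *
    omega

theorem TT_bd {M : ℕ} {c : Multiset ℕ × Multiset ℕ} (h : c ∈ TT M) : sz c ≤ 2 * M ∧ ln c ≤ M := by
  obtain ⟨h1, h2, h3⟩ := mem_TT.1 h
  have h4 := card_le_sum' h1
  have h5 := card_le_sum' (a := 1) h2
  simp only [sz, ln] at *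
  omega

def up (d : ℕ) (c : Multiset ℕ × Multiset ℕ) : Multiset ℕ × Multiset ℕ :=
  (c.1 + Multiset.replicate (d - sz c) 1, c.2)

def core (x : Multiset ℕ × Multiset ℕ) : Multiset ℕ × Multiset ℕ := (x.1.filter (· ≠ 1), x.2)

theorem ln_up (d : ℕ) (c : Multiset ℕ × Multiset ℕ) : ln (up d c) = ln c + (d - sz c) := by
  simp only [ln, up, Multiset.card_add, Multiset.card_replicate]
  omega

theorem up_mem {M d : ℕ} {c : Multiset ℕ × Multiset ℕ} (h : c ∈ TT M) (hd : sz c ≤ d) :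
    up d c ∈ PP d ∧ d - ln (up d c) = M := by
  obtain ⟨h1, h2, h3⟩ := mem_TT.1 h
  refine ⟨mem_PP.2 ⟨fun i hi => ?_, h2, ?_⟩, by rw [ln_up]; omega⟩
  · rcases Multiset.mem_add.1 hi with hi | hi
    · have := h1 i hi
      omega
    · rw [Multiset.eq_of_mem_replicate hi]
      exact Nat.one_pos
  · have : sz (up d c) = sz c + (d - sz c) := by
      simp only [up, sz, Multiset.sum_add, Multiset.sum_replicate, smul_eq_mul]
      omega
    omega

theorem core_up {M d : ℕ} {c : Multiset ℕ × Multiset ℕ} (h : c ∈ TT M) : core (up d c) = c := by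
  obtain ⟨h1, -, -⟩ := mem_TT.1 h
  refine Prod.ext ?_ rfl
  simp only [core, up, Multiset.filter_add]
  rw [Multiset.filter_eq_self.2, Multiset.filter_eq_nil.2, add_zero]
  · intro i hi
    simp [Multiset.eq_of_mem_replicate hi]
  · intro i hi
    have := h1 i hi
    omega

theorem core_mem {d : ℕ} {x : Multiset ℕ × Multiset ℕ} (h : x ∈ PP d) :
    core x ∈ TT (d - ln x) ∧ sz (core x) ≤ d ∧ up d (core x) = x ∧ ln x ≤ d := by
  obtain ⟨h1, h2, h3⟩ := mem_PP.1 h
  have e : x.1 = x.1.filter (· ≠ 1) + Multiset.replicate (x.1.count 1) 1 := by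
    rw [← Multiset.filter_eq', add_comm]
    exact (Multiset.filter_add_not (· = 1) x.1).symm
  have e1 := congrArg Multiset.sum e
  have e2 := congrArg Multiset.card e
  rw [Multiset.sum_add, Multiset.sum_replicate, smul_eq_mul, mul_one] at e1
  rw [Multiset.card_add, Multiset.card_replicate] at e2
  have h4 := card_le_sum' (a := 1) h1
  have h5 := card_le_sum' (a := 1) h2
  have h6 : d - sz (core x) = x.1.count 1 := by
    simp only [sz, core] at *
    omega
  refine ⟨mem_TT.2 ⟨fun i hi => ?_, h2, ?_⟩, ?_, ?_, ?_⟩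
  · obtain ⟨a, b⟩ := Multiset.mem_filter.1 hi
    have := h1 i a
    omega
  · simp only [sz, core, ln] at *
    omega
  · simp only [sz, core] at *
    omega
  · refine Prod.ext ?_ rfl
    rw [up, h6]
    exact e.symm
  · simp only [sz, ln] at *
    omega

theorem sum_fiber {M d : ℕ} (hd : 2 * M ≤ d) (G : Multiset ℕ × Multiset ℕ → ℚ) :
    ∑ x ∈ (PP d).filter (fun x => d - ln x = M), G x = ∑ c ∈ TT M, G (up d c) := by
  refine sum_nbij' core (up d) ?_ ?_ ?_ ?_ ?_
  · intro x hx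
    obtain ⟨h1, h2⟩ := mem_filter.1 hx
    exact h2 ▸ (core_mem h1).1
  · intro c hc
    exact mem_filter.2 (up_mem hc ((TT_bd hc).1.trans hd))
  · intro x hx
    exact (core_mem (mem_filter.1 hx).1).2.2.1
  · intro c hc
    exact core_up hc
  · intro x hx
    rw [(core_mem (mem_filter.1 hx).1).2.2.1]

theorem Wt_up {M d : ℕ} {c : Multiset ℕ × Multiset ℕ} (h : c ∈ TT M) (hd : sz c ≤ d) :
    Wt (up d c) * d ! * 2 ^ d = Wt c * d.descFactorial (sz c) * 2 ^ sz c := by
  obtain ⟨h1, h2, h3⟩ := mem_TT.1 h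
  have z1 : (zee c.1 : ℚ) ≠ 0 := by
    exact_mod_cast (zee_pos fun i hi => by have := h1 i hi; omega).ne'
  have z2 : (zee c.2 : ℚ) ≠ 0 := by exact_mod_cast (zee_pos h2).ne'
  have f1 : (((d - sz c)! : ℕ) : ℚ) ≠ 0 := by exact_mod_cast (factorial_pos _).ne'
  have e : (2 : ℚ) ^ d = 2 ^ (d - sz c) * 2 ^ sz c := by
    rw [← pow_add]
    congr 1
    omega
  rw [Wt, Wt, ln_up, ← factorial_mul_descFactorial hd, e]
  simp only [up]
  rw [zee_add_ones _ (fun h => by have := h1 1 h; omega)]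
  push_cast
  rw [pow_add]
  field_simp

theorem Wt_le {x : Multiset ℕ × Multiset ℕ} (h1 : ∀ i ∈ x.1, 0 < i) (h2 : ∀ j ∈ x.2, 0 < j) :
    |Wt x| ≤ 1 := by
  have z1 : (1 : ℚ) ≤ zee x.1 := by exact_mod_cast zee_pos h1
  have z2 : (1 : ℚ) ≤ zee x.2 := by exact_mod_cast zee_pos h2
  have z3 : (1 : ℚ) ≤ 2 ^ ln x := one_le_pow₀ (by norm_num)
  have z4 : (1 : ℚ) ≤ zee x.1 * zee x.2 * 2 ^ ln x :=
    one_le_mul_of_one_le_of_one_le (one_le_mul_of_one_le_of_one_le z1 z2) z3
  rw [Wt, abs_div, abs_neg_one_pow, abs_of_nonneg (by linarith)]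
  exact (div_le_one (by linarith)).2 z4

theorem Wt_bd {d : ℕ} (hd : 1 ≤ d) {x : Multiset ℕ × Multiset ℕ} (h : x ∈ PP d) {M : ℕ}
    (hM : d - ln x ≤ M) : |Wt x * d ! * 2 ^ d| ≤ (4 * (d : ℚ) ^ 2) ^ M := by
  obtain ⟨h1, h2, h3, -⟩ := core_mem h
  obtain ⟨k1, k2, -⟩ := mem_TT.1 h1
  have h4 := (TT_bd h1).1
  have h5 := Wt_le (x := core x) (fun i hi => by have := k1 i hi; omega) k2
  have hd' : (1 : ℚ) ≤ d := by exact_mod_cast hd
  have h6 : (d.descFactorial (sz (core x)) : ℚ) ≤ (d : ℚ) ^ sz (core x) := by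
    exact_mod_cast descFactorial_le_pow _ _
  rw [← h3, Wt_up h1 h2, abs_mul, abs_mul, abs_of_nonneg (a := (d.descFactorial _ : ℚ)) (by positivity),
    abs_of_nonneg (a := (2 : ℚ) ^ _) (by positivity)]
  calc _ ≤ 1 * (d : ℚ) ^ sz (core x) * 2 ^ sz (core x) := by gcongr
    _ = (2 * (d : ℚ)) ^ sz (core x) := by rw [mul_pow]; ring
    _ ≤ (2 * (d : ℚ)) ^ (2 * M) := pow_le_pow_right₀ (by linarith) (by omega)
    _ = _ := by rw [pow_mul]; congr 1; ring

theorem gsum_comm (l m : Multiset ℕ) : gsum l m = gsum m l := by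
  rw [gsum, gsum, Multiset.sum_map_sum_map]
  simp only [Nat.gcd_comm]

theorem gsum_le (l m : Multiset ℕ) (hm : ∀ j ∈ m, 0 < j) : gsum l m ≤ l.card * m.sum := by
  rw [gsum, ← smul_eq_mul, ← Multiset.card_map (fun i => (m.map fun j => Nat.gcd i j).sum) l]
  refine Multiset.sum_le_card_nsmul _ _ fun z hz => ?_
  obtain ⟨i, -, rfl⟩ := Multiset.mem_map.1 hz
  have := Multiset.sum_map_le_sum_map (fun j => Nat.gcd i j) id
    (fun j hj => Nat.gcd_le_right i (hm j hj))
  simpa using this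

theorem gsum_add_left (l l' m : Multiset ℕ) : gsum (l + l') m = gsum l m + gsum l' m := by
  simp [gsum]

theorem gsum_ones (a : ℕ) (m : Multiset ℕ) : gsum (Multiset.replicate a 1) m = a * m.card := by
  simp [gsum]

theorem gsum_up (l m : Multiset ℕ) (a b : ℕ) :
    gsum (l + Multiset.replicate a 1) (m + Multiset.replicate b 1) =
      gsum l m + b * l.card + a * (m.card + b) := by
  rw [gsum_add_left, gsum_ones, gsum_comm l, gsum_add_left, gsum_ones, gsum_comm m]
  simp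

theorem low_zero (l m : Multiset ℕ) (h : 1 ∈ m) : low l m = 0 := by
  rw [low, Multiset.countP_eq_zero]
  intro i _ hi
  simpa using hi 1 h

theorem low_le (l m : Multiset ℕ) : low l m ≤ l.card := Multiset.countP_le_card _ _

end

end Pool.Agent.Lib.MP_7d9ca0_co
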