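import Pool.Agent.Lib.MP_7d9ca0_co.Fix3

namespace Pool.Agent.Lib.MP_7d9ca0_co

open Equiv Finset Function

set_option linter.unusedSectionVars false

noncomputable section

theorem burnside {G W : Type} [Fintype G] [Finite W] (act : G → W → W)
    (hL : ∀ g0, ∃ L : G ≃ G, ∀ g s, act (L g) s = act g0 (act g s))
    (hinj : ∀ g, Injective (act g)) (heq : Equivalence fun s t => ∃ g, act g s = t) :
    (Nat.card (Quot fun s t => ∃ g, act g s = t) : ℚ) * Fintype.card G =
      ∑ g, (cnt (fun s => act g s = s) : ℚ) := by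
  classical
  have := Fintype.ofFinite W
  let r : W → W → Prop := fun s t => ∃ g, act g s = t
  have : Finite (Quot r) := Finite.of_surjective _ Quot.mk_surjective
  have := Fintype.ofFinite (Quot r)
  have hq : ∀ s t, Quot.mk r t = Quot.mk r s ↔ r s t := fun s t => by
    rw [eq_comm, Quot.eq, heq.eqvGen_iff]
  have h1 : ∀ s, cnt (fun g => act g s = s) * #{t | Quot.mk r t = Quot.mk r s} =
      Fintype.card G := by
    intro s
    rw [← cnt_eq, ← cnt_prod (fun t g => act g s = t) _ _ ?_ (fun t g h => (hq s t).2 ⟨g, h⟩),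
      ← Nat.card_eq_fintype_card]
    · refine (Nat.card_eq_of_bijective (fun g => ⟨(act g s, g), rfl⟩) ⟨?_, ?_⟩).symm
      · intro a a' h
        exact congrArg (fun z => z.1.2) h
      · rintro ⟨⟨b, a⟩, h2⟩
        dsimp only at h2
        subst h2
        exact ⟨a, rfl⟩
    · intro t ht
      obtain ⟨g0, rfl⟩ := (hq s t).1 ht
      obtain ⟨L, hL⟩ := hL g0
      refine (Nat.card_congr (L.subtypeEquiv fun g => ?_)).symm
      rw [hL, (hinj g0).eq_iff]
  have h2 : ∑ g, (cnt (fun s => act g s = s) : ℚ) = ∑ s, (cnt (fun g => act g s = s) : ℚ) := by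
    simp only [cnt_eq, card_filter]
    push_cast
    rw [sum_comm]
  rw [h2, ← sum_fiberwise (s := univ) (g := Quot.mk r), Nat.card_eq_fintype_card, ← card_univ,
    ← nsmul_eq_mul, ← sum_const]
  refine sum_congr rfl fun q _ => ?_
  obtain ⟨s0, rfl⟩ := Quot.mk_surjective q
  have h3 : (#{t | Quot.mk r t = Quot.mk r s0} : ℚ) ≠ 0 := by
    exact_mod_cast (card_pos.2 ⟨s0, by simp⟩).ne'
  apply mul_right_cancel₀ h3
  rw [sum_mul, sum_congr rfl (g := fun _ => (Fintype.card G : ℚ)), sum_const, nsmul_eq_mul, mul_comm]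
  intro s hs
  rw [← (mem_filter.1 hs).2]
  exact_mod_cast h1 s

variable {X Y : Type}

theorem RRed_smap (σ : Perm X) (τ : Perm Y) (s : Sw X Y) : RRed (smap σ τ s) ↔ RRed s := by
  simp only [RRed, rtw_smap σ τ.surjective]
  refine ⟨fun h x x' hx => ?_, fun h x x' hx => σ.injective (h _ _ hx)⟩
  exact σ.symm.injective (h _ _ (by simpa using hx))

theorem CRed_smap (σ : Perm X) (τ : Perm Y) (s : Sw X Y) : CRed (smap σ τ s) ↔ CRed s := by
  simp only [CRed, ctw_smap σ.surjective τ]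
  refine ⟨fun h x x' hx => ?_, fun h x x' hx => τ.injective (h _ _ hx)⟩
  exact τ.symm.injective (h _ _ (by simpa using hx))

def Om (d : ℕ) : Type := {s : Sw (Fin d) (Fin d) // RRed s ∧ CRed s}

instance (d : ℕ) : Finite (Om d) := by unfold Om; infer_instance

abbrev Gp (d : ℕ) : Type := (Perm (Fin d) × Perm (Fin d)) ⊕ (Perm (Fin d) × Perm (Fin d))

def act {d : ℕ} : Gp d → Om d → Om d
  | Sum.inl g, s => ⟨smap g.1 g.2 s.1, (RRed_smap _ _ _).2 s.2.1, (CRed_smap _ _ _).2 s.2.2⟩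
  | Sum.inr g, s => ⟨tmap g.1 g.2 s.1,
      fun _ _ h => g.2.injective (s.2.2 _ _ ((rtw_tmap g.1.surjective _ _ _ _).1 h)),
      fun _ _ h => g.1.injective (s.2.1 _ _ ((ctw_tmap _ g.2.surjective _ _ _).1 h))⟩

theorem act_comp {d : ℕ} (g0 : Gp d) : ∃ L : Gp d ≃ Gp d, ∀ g s, act (L g) s = act g0 (act g s) := by
  rcases g0 with ⟨a, b⟩ | ⟨a, b⟩
  · refine ⟨Equiv.sumCongr (Equiv.prodCongr (Equiv.mulRight a) (Equiv.mulRight b))
      (Equiv.prodCongr (Equiv.mulRight b) (Equiv.mulRight a)), ?_⟩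
    rintro (⟨c, e⟩ | ⟨c, e⟩) s
    · exact Subtype.ext (smap_smap a b c e s.1).symm
    · exact Subtype.ext (smap_tmap a b c e s.1).symm
  · refine ⟨(Equiv.sumCongr (Equiv.prodCongr (Equiv.mulRight a) (Equiv.mulRight b))
      (Equiv.prodCongr (Equiv.mulRight b) (Equiv.mulRight a))).trans (Equiv.sumComm _ _), ?_⟩
    rintro (⟨c, e⟩ | ⟨c, e⟩) s
    · exact Subtype.ext (tmap_smap a b c e s.1).symm
    · exact Subtype.ext (tmap_tmap a b c e s.1).symm

theorem act_inv {d : ℕ} (g : Gp d) : ∃ g', ∀ s, act g' (act g s) = s := by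
  rcases g with ⟨a, b⟩ | ⟨a, b⟩
  · refine ⟨Sum.inl (a.symm, b.symm), fun s => Subtype.ext ?_⟩
    change smap a.symm b.symm (smap a b s.1) = s.1
    rw [smap_smap, self_comp_symm, self_comp_symm, smap_id]
  · refine ⟨Sum.inr (b.symm, a.symm), fun s => Subtype.ext ?_⟩
    change tmap b.symm a.symm (tmap a b s.1) = s.1
    rw [tmap_tmap, self_comp_symm, self_comp_symm, smap_id]

theorem act_equiv (d : ℕ) : Equivalence fun s t : Om d => ∃ g, act g s = t := by
  refine ⟨fun s => ⟨Sum.inl (1, 1), Subtype.ext (smap_id s.1)⟩, ?_, ?_⟩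
  · rintro s _ ⟨g, rfl⟩
    obtain ⟨g', h⟩ := act_inv g
    exact ⟨g', h s⟩
  · rintro s _ _ ⟨g, rfl⟩ ⟨g0, rfl⟩
    obtain ⟨L, h⟩ := act_comp g0
    exact ⟨L g, h g s⟩

theorem cnt_inl {d : ℕ} (σ τ : Perm (Fin d)) :
    cnt (fun s => act (Sum.inl (σ, τ)) s = s) = (rowD (Fin d) τ).R σ := by
  refine Nat.card_eq_of_bijective
    (fun s => ⟨s.1.1, ⟨congrArg Subtype.val s.2, s.1.2.2⟩, s.1.2.1⟩) ⟨?_, ?_⟩
  · intro a b h
    have h' := congrArg Subtype.val h
    exact Subtype.ext (Subtype.ext h')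
  · rintro ⟨s, ⟨h1, h2⟩, h3⟩
    exact ⟨⟨⟨s, h3, h2⟩, Subtype.ext h1⟩, rfl⟩

theorem cnt_inr {d : ℕ} (σ τ : Perm (Fin d)) :
    cnt (fun s => act (Sum.inr (σ, τ)) s = s) = swD.R (σ * τ) := by
  have h0 : ∀ s : Sw (Fin d) (Fin d), smap (1 : Perm (Fin d)) σ (smap (1 : Perm (Fin d)) σ.symm s) = s := by
    intro s
    rw [smap_smap, symm_comp_self]
    exact smap_id s
  refine Nat.card_eq_of_bijective
    (fun s => ⟨smap (1 : Perm (Fin d)) σ.symm s.1.1, ?_,
      fun x y h => (RRed_smap 1 σ.symm _).2 s.1.2.1 x y h.1⟩) ⟨?_, ?_⟩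
  · have h : tmap σ τ s.1.1 = s.1.1 := congrArg Subtype.val s.2
    change tmap id (σ * τ) (smap (1 : Perm (Fin d)) σ.symm s.1.1) = smap (1 : Perm (Fin d)) σ.symm s.1.1
    conv_rhs => rw [← h, smap_tmap, self_comp_symm]
    rw [tmap_smap]
    congr 1
    funext x
    simp
  · intro a b h
    refine Subtype.ext (Subtype.ext ?_)
    rw [← h0 a.1.1, ← h0 b.1.1]
    exact congrArg _ (congrArg Subtype.val h)
  · rintro ⟨s, h1, h2⟩
    change Sw (Fin d) (Fin d) at s
    have h1' : tmap id (σ * τ : Perm (Fin d)) s = s := h1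
    have h3 : RRed s := fun x y h => h2 x y ⟨h, (tw_of_tfix h1' x y).2 h⟩
    have h4 : CRed s := fun x y h => h2 x y ⟨(tw_of_tfix h1' x y).1 h, h⟩
    refine ⟨⟨⟨smap (1 : Perm (Fin d)) σ s, (RRed_smap _ _ _).2 h3, (CRed_smap _ _ _).2 h4⟩,
      Subtype.ext ?_⟩, Subtype.ext ?_⟩
    · change tmap σ τ (smap (1 : Perm (Fin d)) σ s) = smap (1 : Perm (Fin d)) σ s
      conv_rhs => rw [← h1', smap_tmap]
      rw [tmap_smap]
      rfl
    · change smap (1 : Perm (Fin d)) σ.symm (smap (1 : Perm (Fin d)) σ s) = s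
      rw [smap_smap, self_comp_symm]
      exact smap_id s

theorem nonempty_sum {a b d : ℕ} (hd : 0 < d) (h : a + 2 * b = d) : Nonempty (Fin a ⊕ Fin b) := by
  rcases Nat.eq_zero_or_pos a with rfl | ha
  · exact ⟨Sum.inr ⟨0, by omega⟩⟩
  · exact ⟨Sum.inl ⟨0, ha⟩⟩

theorem sum_inr (d : ℕ) (hd : 0 < d) :
    ∑ g : Perm (Fin d) × Perm (Fin d), (cnt (fun s => act (Sum.inr g) s = s) : ℚ) =
      avg d (fun l => 2 ^ ((gsum l l + l.countP Odd) / 2 + if l.countP Odd = 0 then 1 else 0)) *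
        (d.factorial * d.factorial) := by
  have h0 : (d.factorial : ℚ) ≠ 0 := by exact_mod_cast d.factorial_ne_zero
  rw [Fintype.sum_prod_type]
  simp only [cnt_inr]
  have h1 : ∀ σ : Perm (Fin d), ∑ τ, (swD.R (σ * τ) : ℚ) = ∑ π : Perm (Fin d), (swD.R π : ℚ) :=
    fun σ => Equiv.sum_comp (Equiv.mulLeft σ) (fun π => (swD.R π : ℚ))
  simp only [h1]
  rw [sum_const, card_univ, Fintype.card_perm, Fintype.card_fin, nsmul_eq_mul, ← avg0_eq, ← V_ct]
  rw [← V_congr d (F := fun _ _ π => swD.A π), swD.V_A]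
  · field_simp
  · intro a b π hab
    have := nonempty_sum hd hab
    rw [eq_div_iff (by positivity)]
    exact_mod_cast fix_swp π

theorem sum_inl (d : ℕ) (hd : 0 < d) :
    ∑ g : Perm (Fin d) × Perm (Fin d), (cnt (fun s => act (Sum.inl g) s = s) : ℚ) =
      avg d (fun l => avg d fun m => 2 ^ (gsum l m + max 1 (low l m + low m l))) *
        (d.factorial * d.factorial) := by
  have h0 : (d.factorial : ℚ) ≠ 0 := by exact_mod_cast d.factorial_ne_zero
  rw [Fintype.sum_prod_type, sum_comm]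
  simp only [cnt_inl]
  have h1 : ∀ τ : Perm (Fin d), ∑ σ : Perm (Fin d), ((rowD (Fin d) τ).R σ : ℚ) =
      V d (fun _ _ π => (rowD (Fin d) τ).A π) * d.factorial := by
    intro τ
    rw [TwinData.V_A]
    field_simp
  simp only [h1]
  rw [← sum_mul, ← V_sum, ← mul_assoc]
  congr 1
  rw [← avg0_eq, ← V_ct, ← V_mul]
  refine V_congr d fun a b π hab => ?_
  have := nonempty_sum hd hab
  have h2 := (colD (Fin a ⊕ Fin b) π).V_A d
  rw [eq_div_iff h0] at h2
  refine h2.symm.trans ?_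
  congr 1
  rw [eq_div_iff (by positivity), ← V_mul, ← avg0_eq, ← V_ct]
  refine V_congr d fun a' b' π' hab' => ?_
  have := nonempty_sum hd hab'
  rw [eq_div_iff (by positivity), mul_assoc]
  exact_mod_cast fix_prod π π'

theorem card_Om (d : ℕ) (hd : 0 < d) :
    (Nat.card (Quot fun s t : Om d => ∃ g, act g s = t) : ℚ) =
      (avg d (fun l => avg d fun m => 2 ^ (gsum l m + max 1 (low l m + low m l))) +
        avg d (fun l => 2 ^ ((gsum l l + l.countP Odd) / 2 +
          if l.countP Odd = 0 then 1 else 0))) / 2 := by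
  have h0 : (d.factorial : ℚ) ≠ 0 := by exact_mod_cast d.factorial_ne_zero
  have h := burnside (act (d := d)) act_comp
    (fun g => by
      obtain ⟨g', h⟩ := act_inv g
      exact LeftInverse.injective h) (act_equiv d)
  rw [Fintype.sum_sum_type, sum_inl d hd, sum_inr d hd] at h
  simp only [Fintype.card_sum, Fintype.card_prod, Fintype.card_perm, Fintype.card_fin] at h
  push_cast at h
  apply mul_right_cancel₀ (mul_ne_zero h0 h0)
  linear_combination h / 2

end

end Pool.Agent.Lib.MP_7d9ca0_co
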