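import Pool.Agent.Lib.MP_7d9ca0_co.Anti
import Pool.Agent.Lib.MP_7d9ca0_co.Count

namespace Pool.Agent.Lib.MP_7d9ca0_co

open SimpleGraph Function Equiv

noncomputable section

variable {X Y : Type}

abbrev Vx (X Y : Type) : Type := (X × ZMod 2) ⊕ (Y × ZMod 2)

def grAdj (M : Mat X Y) : Vx X Y → Vx X Y → Prop
  | Sum.inl a, Sum.inr b => M (a.1, b.1) = a.2 + b.2
  | Sum.inr b, Sum.inl a => M (a.1, b.1) = a.2 + b.2
  | _, _ => False

def gr (M : Mat X Y) : SimpleGraph (Vx X Y) where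
  Adj := grAdj M
  symm := ⟨by rintro (a | a) (b | b) h <;> exact h⟩
  loopless := ⟨by rintro (a | a) h <;> exact h⟩

@[simp] theorem gr_lr (M : Mat X Y) (a b) :
    (gr M).Adj (Sum.inl a) (Sum.inr b) ↔ M (a.1, b.1) = a.2 + b.2 := Iff.rfl

@[simp] theorem gr_rl (M : Mat X Y) (a b) :
    (gr M).Adj (Sum.inr b) (Sum.inl a) ↔ M (a.1, b.1) = a.2 + b.2 := Iff.rfl

@[simp] theorem gr_ll (M : Mat X Y) (a b) : ¬ (gr M).Adj (Sum.inl a) (Sum.inl b) := id

@[simp] theorem gr_rr (M : Mat X Y) (a b) : ¬ (gr M).Adj (Sum.inr a) (Sum.inr b) := id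

def vbar : Vx X Y → Vx X Y := Sum.map (fun a => (a.1, a.2 + 1)) (fun a => (a.1, a.2 + 1))

theorem z2a : ∀ a : ZMod 2, a + 1 + 1 = a := by decide
theorem z2b : ∀ a b c d : ZMod 2, (b = c + d ↔ a = 0 + 0) → a = b + c + d := by decide
theorem z2c : ∀ m a b : ZMod 2, m = a + 1 + b ↔ ¬ m = a + b := by decide
theorem z2d : ∀ m a b : ZMod 2, m = a + (b + 1) ↔ ¬ m = a + b := by decide
theorem z2e : ∀ m m' a b : ZMod 2, ¬ m' = m + (a + b + 1) → m' = b + (m - a) := by decide
theorem z2f : ∀ m m' a b : ZMod 2, ¬ m' = m + (a + b + 1) → m' = (m - a) + b := by decide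
theorem z2g : ∀ a b : ZMod 2, b ≠ a + 1 → b = a := by decide
theorem z2h : ∀ k a b : ZMod 2, a + k = 0 + b ↔ a = k + b := by decide
theorem z2j : ∀ k a b : ZMod 2, a + k = b + 0 ↔ a = b + k := by decide
theorem z2i : ∀ m m' r c : ZMod 2, (∀ e f, m' = e + f ↔ m = e + r + (f + c)) ↔ m' = m + r + c := by
  decide

theorem anti_gr [Nontrivial X] [Nontrivial Y] (M : Mat X Y) (h1 : RRed (mkS M))
    (h2 : CRed (mkS M)) : Anti (gr M) Sum.isLeft vbar where
  ne := inferInstance
  inv := by rintro (a | a) <;> simp [vbar, z2a]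
  bar_ne := by rintro (a | a) <;> simp [vbar, Prod.ext_iff]
  c_bar := by rintro (a | a) <;> rfl
  adj_ne := by rintro (a | a) (b | b) h <;> simp at h ⊢
  flip := by
    rintro (a | a) (b | b) h
    · simp at h
    · exact z2c _ _ _
    · exact z2d _ _ _
    · simp at h
  common := by
    rintro (a | a) (b | b) h h'
    · by_cases hx : a.1 = b.1
      · obtain ⟨y⟩ : Nonempty Y := inferInstance
        have : b.2 = a.2 := z2g _ _ fun h3 => h' (by simp [vbar, Prod.ext_iff, hx, h3])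
        exact ⟨Sum.inr (y, M (a.1, y) - a.2), by simp, by simp [← hx, this]⟩
      · have h3 := mt (h1 a.1 b.1) hx
        rw [rtw_mk, not_exists] at h3
        obtain ⟨y, hy⟩ := not_forall.1 (h3 (a.2 + b.2 + 1))
        exact ⟨Sum.inr (y, M (a.1, y) - a.2), by simp, z2e _ _ _ _ hy⟩
    · simp at h
    · simp at h
    · by_cases hx : a.1 = b.1
      · obtain ⟨y⟩ : Nonempty X := inferInstance
        have : b.2 = a.2 := z2g _ _ fun h3 => h' (by simp [vbar, Prod.ext_iff, hx, h3])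
        exact ⟨Sum.inl (y, M (y, a.1) - a.2), by simp, by simp [← hx, this]⟩
      · have h3 := mt (h2 a.1 b.1) hx
        rw [ctw_mk, not_exists] at h3
        obtain ⟨y, hy⟩ := not_forall.1 (h3 (a.2 + b.2 + 1))
        exact ⟨Sum.inl (y, M (y, a.1) - a.2), by simp, z2f _ _ _ _ hy⟩
  third := by
    rintro (a | a)
    · obtain ⟨x, hx⟩ := exists_ne a.1
      exact ⟨Sum.inl (x, 0), rfl, by simp [Prod.ext_iff, hx], by simp [vbar, hx]⟩
    · obtain ⟨x, hx⟩ := exists_ne a.1
      exact ⟨Sum.inr (x, 0), rfl, by simp [Prod.ext_iff, hx], by simp [vbar, hx]⟩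

theorem deg_gr {d : ℕ} (M : Mat (Fin d) (Fin d)) (v) : ((gr M).neighborSet v).ncard = d := by
  rcases v with a | a
  · have : (gr M).neighborSet (Sum.inl a) =
        Set.range fun y => Sum.inr (y, M (a.1, y) - a.2) := by
      ext (b | b)
      · simp
      · simp only [mem_neighborSet, gr_lr, Set.mem_range, Sum.inr.injEq]
        constructor
        · intro h
          exact ⟨b.1, by rw [h]; simp⟩
        · rintro ⟨y, rfl⟩
          simp
    rw [this, Set.ncard_range_of_injective fun y y' h => congrArg Prod.fst (Sum.inr.inj h)]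
    simp
  · have : (gr M).neighborSet (Sum.inr a) =
        Set.range fun y => Sum.inl (y, M (y, a.1) - a.2) := by
      ext (b | b)
      · simp only [mem_neighborSet, gr_rl, Set.mem_range, Sum.inl.injEq]
        constructor
        · intro h
          exact ⟨b.1, by rw [h]; simp⟩
        · rintro ⟨y, rfl⟩
          simp
      · simp
    rw [this, Set.ncard_range_of_injective fun y y' h => congrArg Prod.fst (Sum.inl.inj h)]
    simp

def isoT (M : Mat X Y) : gr (fun z : Y × X => M (z.2, z.1)) ≃g gr M where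
  toEquiv := Equiv.sumComm _ _
  map_rel_iff' := by
    rintro (a | a) (b | b) <;> simp [add_comm]

def isoS {M M' : Mat X Y} (σ : Perm X) (τ : Perm Y) (r : X → ZMod 2) (c : Y → ZMod 2)
    (h : ∀ x y, M' (x, y) = M (σ x, τ y) + r x + c y) : gr M' ≃g gr M where
  toEquiv := Equiv.sumCongr (Equiv.prodShear σ fun x => Equiv.addRight (r x))
    (Equiv.prodShear τ fun y => Equiv.addRight (c y))
  map_rel_iff' := by
    rintro (a | a) (b | b)
    · simp
    · exact ((z2i _ _ _ _).2 (h _ _) _ _).symm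
    · exact ((z2i _ _ _ _).2 (h _ _) _ _).symm
    · simp

theorem iso_of_act {d : ℕ} {M M' : Mat (Fin d) (Fin d)} {h h'}
    (H : ∃ g, act g (⟨mkS M, h⟩ : Om d) = ⟨mkS M', h'⟩) : Nonempty (gr M' ≃g gr M) := by
  obtain ⟨⟨σ, τ⟩ | ⟨σ, τ⟩, H⟩ := H
  · obtain ⟨r, c, H⟩ := (mkS_eq_iff _ _).1 (congrArg Subtype.val H)
    exact ⟨isoS σ τ r c H⟩
  · obtain ⟨r, c, H⟩ := (mkS_eq_iff _ _).1 (congrArg Subtype.val H)
    exact ⟨(isoS (M := fun z => M (z.2, z.1)) τ σ r c H).trans (isoT M)⟩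

theorem smap_of_iso [Finite X] [Finite Y] {M M' : Mat X Y} (h1 : RRed (mkS M'))
    (h2 : CRed (mkS M')) (e : gr M' ≃g gr M) (he : ∀ v, (e v).isLeft = v.isLeft) :
    ∃ (σ : Perm X) (τ : Perm Y), smap σ τ (mkS M) = mkS M' := by
  have ha : ∀ a, ∃ a', e (Sum.inl a) = Sum.inl a' := fun a => Sum.isLeft_iff.1 (he _)
  have hb : ∀ b, ∃ b', e (Sum.inr b) = Sum.inr b' := fun b =>
    Sum.isRight_iff.1 (Sum.isLeft_eq_false.1 (he _))
  choose f hf using ha
  choose g hg using hb
  have key : ∀ x y, M' (x, y) =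
      M ((f (x, 0)).1, (g (y, 0)).1) + (f (x, 0)).2 + (g (y, 0)).2 := by
    intro x y
    have := e.map_rel_iff (a := Sum.inl (x, 0)) (b := Sum.inr (y, 0))
    rw [hf, hg, gr_lr, gr_lr] at this
    exact z2b _ _ _ _ this
  have i1 : Injective fun x => (f (x, 0)).1 := by
    intro x x' h
    refine h1 x x' ((rtw_mk _ _ _).2 ⟨(f (x', 0)).2 - (f (x, 0)).2, fun y => ?_⟩)
    simp only at h
    rw [key, key, h]; ring
  have i2 : Injective fun y => (g (y, 0)).1 := by
    intro y y' h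
    refine h2 y y' ((ctw_mk _ _ _).2 ⟨(g (y', 0)).2 - (g (y, 0)).2, fun x => ?_⟩)
    simp only at h
    rw [key, key, h]; ring
  exact ⟨Equiv.ofBijective _ (Finite.injective_iff_bijective.1 i1),
    Equiv.ofBijective _ (Finite.injective_iff_bijective.1 i2),
    (mkS_eq_iff _ _).2 ⟨_, _, key⟩⟩

theorem act_of_iso {d : ℕ} [Nontrivial (Fin d)] {M M' : Mat (Fin d) (Fin d)} {h h'}
    (e : gr M' ≃g gr M) : ∃ g, act g (⟨mkS M, h⟩ : Om d) = ⟨mkS M', h'⟩ := by
  have hA := anti_gr M h.1 h.2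
  have hA' := anti_gr M' h'.1 h'.2
  have h1 : ∀ u v, ((e u).isLeft = u.isLeft ↔ (e v).isLeft = v.isLeft) := by
    intro u v
    obtain ⟨p⟩ := hA'.connected u v
    induction p with
    | nil => rfl
    | @cons u w v h _ ih =>
      rw [← ih]
      have a := hA'.adj_ne _ _ h
      have b := hA.adj_ne _ _ (e.map_rel_iff.2 h)
      revert a b
      cases (e u).isLeft <;> cases (e w).isLeft <;> cases u.isLeft <;> cases w.isLeft <;> simp
  by_cases h2 : ∀ v, (e v).isLeft = v.isLeft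
  · obtain ⟨σ, τ, H⟩ := smap_of_iso h'.1 h'.2 e h2
    exact ⟨Sum.inl (σ, τ), Subtype.ext H⟩
  · obtain ⟨u, hu⟩ := not_forall.1 h2
    obtain ⟨σ, τ, H⟩ := smap_of_iso h'.1 h'.2 (e.trans (isoT M).symm) (by
      intro v
      have := mt (h1 u v).2 hu
      change (Sum.swap (e v)).isLeft = _
      revert this
      cases e v <;> cases v <;> simp)
    exact ⟨Sum.inr (τ, σ), Subtype.ext H⟩

theorem exists_mat {V : Type} [Finite V] {G : SimpleGraph V} {c : V → Bool} {bar : V → V}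
    (h : Anti G c bar) {d : ℕ} (hd : ∀ v, (G.neighborSet v).ncard = d) :
    ∃ M : Mat (Fin d) (Fin d), RRed (mkS M) ∧ CRed (mkS M) ∧ Nonempty (gr M ≃g G) := by
  classical
  obtain ⟨a0⟩ := h.ne
  obtain ⟨b0, hab, -⟩ := h.common a0 a0 rfl (h.bar_ne a0).symm
  have hc0 := h.adj_ne _ _ hab
  let eX : Fin d ≃ G.neighborSet b0 := (Finite.equivFinOfCardEq (hd b0)).symm
  let eY : Fin d ≃ G.neighborSet a0 := (Finite.equivFinOfCardEq (hd a0)).symm
  let sw : ZMod 2 → V → V := fun e v => if e = 0 then v else bar v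
  have z2 : ∀ e : ZMod 2, e = 0 ∨ e = 1 := by decide
  have sw0 : ∀ v, sw 0 v = v := fun v => if_pos rfl
  have sw1 : ∀ v, sw 1 v = bar v := fun v => if_neg (by decide)
  have hswc : ∀ e v, c (sw e v) = c v := by
    intro e v
    rcases z2 e with rfl | rfl
    · rw [sw0]
    · rw [sw1, h.c_bar]
  have hsw : ∀ e f u w, c u ≠ c w →
      (G.Adj (sw e u) (sw f w) ↔ (if G.Adj u w then 0 else 1) = e + f) := by
    intro e f u w huw
    have a := h.flip u w huw
    have b := h.flip w u huw.symm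
    have b' := h.flip w (bar u) (by rw [h.c_bar]; exact huw.symm)
    rw [G.adj_comm, G.adj_comm w] at b b'
    rcases z2 e with rfl | rfl <;> rcases z2 f with rfl | rfl <;>
      simp only [sw0, sw1, a, b, b'] <;> split_ifs with h3 <;> simp only [h3] <;> decide
  have hX : ∀ x, c (eX x).1 = c a0 := fun x => (h.same_side hc0 (eX x).2.symm).symm
  have hY : ∀ y, c (eY y).1 = c b0 := fun y => (h.same_side hc0.symm (eY y).2.symm).symm
  have hinj : ∀ (b : V) (x x' : G.neighborSet b) e e', sw e x.1 = sw e' x'.1 →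
      x = x' ∧ e = e' := by
    intro b x x' e e' hh
    have a1 := hsw e 0 x b (h.adj_ne _ _ x.2.symm)
    have a2 := hsw e' 0 x' b (h.adj_ne _ _ x'.2.symm)
    rw [hh, a2, if_pos x.2.symm, if_pos x'.2.symm] at a1
    have a3 : e = e' := by
      revert a1
      rcases z2 e with rfl | rfl <;> rcases z2 e' with rfl | rfl <;> decide
    subst a3
    refine ⟨Subtype.ext ?_, rfl⟩
    rcases z2 e with rfl | rfl
    · simpa [sw0] using hh
    · rw [sw1, sw1] at hh
      rw [← h.inv x.1, hh, h.inv]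
  have hsurj : ∀ b v, c v ≠ c b → ∃ (x : G.neighborSet b) (e : ZMod 2), sw e x.1 = v := by
    intro b v hv
    by_cases h3 : G.Adj v b
    · exact ⟨⟨v, h3.symm⟩, 0, sw0 v⟩
    · exact ⟨⟨bar v, ((h.flip v b hv).2 h3).symm⟩, 1, by rw [sw1, h.inv]⟩
  let M : Mat (Fin d) (Fin d) := fun z => if G.Adj (eX z.1).1 (eY z.2).1 then 0 else 1
  let f : Vx (Fin d) (Fin d) → V := Sum.elim (fun a => sw a.2 (eX a.1).1) fun b => sw b.2 (eY b.1).1
  have hf : Bijective f := by
    constructor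
    · rintro (a | a) (b | b) hh
      · obtain ⟨h1, h2⟩ := hinj _ _ _ _ _ hh
        rw [Prod.ext (eX.injective h1) h2]
      · have := congrArg c hh
        simp only [f, Sum.elim_inl, Sum.elim_inr, hswc, hX, hY] at this
        exact (hc0 this).elim
      · have := congrArg c hh
        simp only [f, Sum.elim_inl, Sum.elim_inr, hswc, hX, hY] at this
        exact (hc0 this.symm).elim
      · obtain ⟨h1, h2⟩ := hinj _ _ _ _ _ hh
        rw [Prod.ext (eY.injective h1) h2]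
    · intro v
      by_cases hv : c v = c a0
      · obtain ⟨x, e, hx⟩ := hsurj b0 v (hv ▸ hc0)
        exact ⟨Sum.inl (eX.symm x, e), by simpa [f] using hx⟩
      · obtain ⟨x, e, hx⟩ := hsurj a0 v hv
        exact ⟨Sum.inr (eY.symm x, e), by simpa [f] using hx⟩
  have hadj : ∀ u v, G.Adj (f u) (f v) ↔ (gr M).Adj u v := by
    rintro (a | a) (b | b)
    · refine iff_of_false (fun h3 => h.adj_ne _ _ h3 ?_) (gr_ll _ _ _)
      simp only [f, Sum.elim_inl, hswc, hX]
    · exact hsw _ _ _ _ (by rw [hX, hY]; exact hc0)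
    · rw [G.adj_comm]
      exact hsw _ _ _ _ (by rw [hX, hY]; exact hc0)
    · refine iff_of_false (fun h3 => h.adj_ne _ _ h3 ?_) (gr_rr _ _ _)
      simp only [f, Sum.elim_inr, hswc, hY]
  let e : gr M ≃g G := ⟨Equiv.ofBijective f hf, fun {u v} => hadj u v⟩
  have hA := h.transport e.symm
  have htw : ∀ u u', (∀ w, (gr M).Adj u w ↔ (gr M).Adj u' w) → u' = u := by
    intro u u' huu
    by_contra hne
    obtain ⟨w0, hw0, -⟩ := hA.common u u rfl (hA.bar_ne u).symm
    obtain ⟨w, hw1, hw2⟩ := hA.common _ u' ((hA.c_bar u).trans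
      (hA.same_side (hA.adj_ne _ _ hw0) ((huu w0).1 hw0))) (by rw [hA.inv]; exact hne)
    have hw3 := (huu w).2 hw2
    exact (hA.flip u w (hA.adj_ne _ _ hw3)).1 hw1 hw3
  refine ⟨M, fun x x' hx => ?_, fun x x' hx => ?_, ⟨e⟩⟩
  · obtain ⟨k, hk⟩ := (rtw_mk _ _ _).1 hx
    have := htw (Sum.inl (x', 0)) (Sum.inl (x, k)) (by
      rintro (w | w)
      · simp
      · rw [gr_lr, gr_lr, hk]
        exact z2h _ _ _)
    exact congrArg Prod.fst (Sum.inl.inj this)
  · obtain ⟨k, hk⟩ := (ctw_mk _ _ _).1 hx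
    have := htw (Sum.inr (x', 0)) (Sum.inr (x, k)) (by
      rintro (w | w)
      · rw [gr_rl, gr_rl, hk]
        exact z2j _ _ _
      · simp)
    exact congrArg Prod.fst (Sum.inr.inj this)

def toRegS (d : ℕ) [Nontrivial (Fin d)] (M : Mat (Fin d) (Fin d))
    (h : RRed (mkS M) ∧ CRed (mkS M)) : RegS d :=
  ⟨⟨_, (gr M).overFin rfl⟩, ((anti_gr M h.1 h.2).transport ((gr M).overFinIso rfl)).isSGraph, by
    intro v
    rw [← Nat.card_coe_set_eq, Nat.card_congr (((gr M).overFinIso rfl).symm.mapNeighborSet v),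
      Nat.card_coe_set_eq, deg_gr],
    ((anti_gr M h.1 h.2).transport ((gr M).overFinIso rfl)).diam_eq⟩

theorem exists_bij (d : ℕ) [Nontrivial (Fin d)] :
    ∃ f : (Quot fun s t : Om d => ∃ g, act g s = t) → Classes d, Bijective f := by
  have hM : ∀ s : Om d, ∃ M : Mat (Fin d) (Fin d), mkS M = s.1 := fun s => mkS_surj s.1
  choose m hm using hM
  have hr : ∀ s : Om d, RRed (mkS (m s)) ∧ CRed (mkS (m s)) := fun s => hm s ▸ s.2
  have hs : ∀ s : Om d, (⟨mkS (m s), hr s⟩ : Om d) = s := fun s => Subtype.ext (hm s)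
  have hiff : ∀ s t : Om d, (∃ g, act g s = t) ↔
      Nonempty ((toRegS d (m s) (hr s)).1.2 ≃g (toRegS d (m t) (hr t)).1.2) := by
    intro s t
    constructor
    · intro h
      rw [← hs s, ← hs t] at h
      obtain ⟨e⟩ := iso_of_act h
      exact ⟨((gr (m s)).overFinIso rfl).symm.trans (e.symm.trans ((gr (m t)).overFinIso rfl))⟩
    · rintro ⟨e⟩
      rw [← hs s, ← hs t]
      exact act_of_iso
        (((gr (m t)).overFinIso rfl).trans (e.symm.trans ((gr (m s)).overFinIso rfl).symm))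
  have heq : Equivalence fun p q : RegS d => Nonempty (p.1.2 ≃g q.1.2) :=
    ⟨fun _ => ⟨Iso.refl⟩, fun ⟨e⟩ => ⟨e.symm⟩, fun ⟨e⟩ ⟨e'⟩ => ⟨e.trans e'⟩⟩
  refine ⟨Quot.map (fun s => toRegS d (m s) (hr s)) fun s t h => (hiff s t).1 h, ?_, ?_⟩
  · intro p q hpq
    obtain ⟨s, rfl⟩ := Quot.mk_surjective p
    obtain ⟨t, rfl⟩ := Quot.mk_surjective q
    exact Quot.sound ((hiff s t).2 (heq.eqvGen_iff.1 (Quot.eq.1 hpq)))
  · intro q
    obtain ⟨p, rfl⟩ := Quot.mk_surjective q
    obtain ⟨c, bar, hA⟩ := exists_anti p.2.1 p.2.2.2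
    obtain ⟨M, h1, h2, ⟨e⟩⟩ := exists_mat hA p.2.2.1
    refine ⟨Quot.mk _ ⟨mkS M, h1, h2⟩, Quot.sound ?_⟩
    obtain ⟨e'⟩ := iso_of_act (M := M) (M' := m ⟨mkS M, h1, h2⟩) (h := ⟨h1, h2⟩) (h' := hr _)
      (((act_equiv d).refl _).imp fun g hg => hg.trans (hs _).symm)
    exact ⟨((gr _).overFinIso rfl).symm.trans (e'.trans e)⟩

theorem main (d : ℕ) : Finite (Classes d) ∧ (Nat.card (Classes d) : ℚ) =
    if d < 2 then 0 else
      (avg d (fun l => avg d fun m => 2 ^ (gsum l m + max 1 (low l m + low m l))) +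
        avg d (fun l => 2 ^ ((gsum l l + l.countP Odd) / 2 +
          if l.countP Odd = 0 then 1 else 0))) / 2 := by
  split_ifs with hd
  · have : IsEmpty (RegS d) := ⟨fun p => by
      obtain ⟨c, bar, hA⟩ := exists_anti p.2.1 p.2.2.2
      obtain ⟨v⟩ := hA.ne
      have := hA.two_le v
      rw [p.2.2.1] at this
      omega⟩
    have : IsEmpty (Classes d) := ⟨fun q => by
      obtain ⟨p, rfl⟩ := Quot.mk_surjective q
      exact this.false p⟩
    exact ⟨inferInstance, by simp⟩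
  · have : Nontrivial (Fin d) := Fin.nontrivial_iff_two_le.2 (by omega)
    obtain ⟨f, hf⟩ := exists_bij d
    have : Finite (Quot fun s t : Om d => ∃ g, act g s = t) :=
      Finite.of_surjective _ Quot.mk_surjective
    refine ⟨Finite.of_surjective f hf.2, ?_⟩
    rw [← Nat.card_eq_of_bijective f hf, card_Om d (by omega)]

end

end Pool.Agent.Lib.MP_7d9ca0_co
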