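import Pool.Agent.Lib.MP_7d9ca0_co.AsyA
import Pool.Agent.Lib.MP_7d9ca0_co.Main

namespace Pool.Agent.Lib.MP_7d9ca0_co

open Finset Nat Polynomial

noncomputable section

/-- f(d) = O(d^(2K) / 2^(Kd)). -/
def BO (K : ℕ) (f : ℕ → ℚ) : Prop :=
  ∃ C : ℚ, ∃ N : ℕ, ∀ d, N ≤ d → |f d| * 2 ^ (K * d) ≤ C * (d : ℚ) ^ (2 * K)

theorem BO.add {K : ℕ} {f g : ℕ → ℚ} (hf : BO K f) (hg : BO K g) : BO K fun d => f d + g d := by
  obtain ⟨C, N, h⟩ := hf
  obtain ⟨C', N', h'⟩ := hg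
  refine ⟨C + C', max N N', fun d hd => ?_⟩
  have h1 := h d (le_of_max_le_left hd)
  have h2 := h' d (le_of_max_le_right hd)
  have h3 : |f d + g d| * 2 ^ (K * d) ≤ (|f d| + |g d|) * 2 ^ (K * d) := by
    gcongr
    exact abs_add_le _ _
  linarith

theorem BO.sum {ι : Type} {K : ℕ} (s : Finset ι) (f : ι → ℕ → ℚ) (h : ∀ i ∈ s, BO K (f i)) :
    BO K fun d => ∑ i ∈ s, f i d := by
  classical
  induction s using Finset.induction_on with
  | empty => exact ⟨0, 0, fun d _ => by simp⟩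
  | insert a s ha ih =>
    simp only [sum_insert ha]
    exact (h a (mem_insert_self _ _)).add (ih fun i hi => h i (mem_insert_of_mem hi))

theorem BO.congr {K : ℕ} {f g : ℕ → ℚ} (hf : BO K f) (N : ℕ) (h : ∀ d, N ≤ d → g d = f d) :
    BO K g := by
  obtain ⟨C, N', h'⟩ := hf
  exact ⟨C, max N N', fun d hd => h d (le_of_max_le_left hd) ▸ h' d (le_of_max_le_right hd)⟩

theorem BO.all {K : ℕ} {f : ℕ → ℚ} (hf : BO K f) :
    ∃ C : ℚ, ∀ d : ℕ, 1 ≤ d → |f d| ≤ C * (d : ℚ) ^ (2 * K) / 2 ^ (K * d) := by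
  obtain ⟨C, N, h⟩ := hf
  refine ⟨|C| + ∑ e ∈ range N, |f e| * 2 ^ (K * e), fun d hd => ?_⟩
  have hd' : (1 : ℚ) ≤ (d : ℚ) ^ (2 * K) := one_le_pow₀ (by exact_mod_cast hd)
  have h0 : 0 ≤ ∑ e ∈ range N, |f e| * 2 ^ (K * e) := by positivity
  rw [le_div_iff₀ (by positivity)]
  rcases le_or_gt N d with h1 | h1
  · refine (h d h1).trans (mul_le_mul_of_nonneg_right ?_ (by positivity))
    linarith [le_abs_self C]
  · have h2 : |f d| * 2 ^ (K * d) ≤ ∑ e ∈ range N, |f e| * 2 ^ (K * e) :=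
      single_le_sum (f := fun e => |f e| * 2 ^ (K * e)) (fun e _ => by positivity) (mem_range.2 h1)
    refine h2.trans (le_trans ?_ (le_mul_of_one_le_right (by positivity) hd'))
    linarith [abs_nonneg C]

theorem pow_le_exp (a d : ℕ) : (d : ℚ) ^ a ≤ (a : ℚ) ^ a * 2 ^ d := by
  have h : d ^ a ≤ a ^ a * 2 ^ d := by
    rcases Nat.eq_zero_or_pos a with rfl | ha
    · simpa using Nat.one_le_two_pow
    · have h1 : d / a < 2 ^ (d / a) := Nat.lt_two_pow_self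
      have h2 : d ≤ a * 2 ^ (d / a) :=
        (Nat.lt_mul_div_succ d ha).le.trans (Nat.mul_le_mul_left _ h1)
      calc d ^ a ≤ (a * 2 ^ (d / a)) ^ a := Nat.pow_le_pow_left h2 _
        _ = a ^ a * 2 ^ (d / a * a) := by rw [mul_pow, pow_mul]
        _ ≤ a ^ a * 2 ^ d :=
          Nat.mul_le_mul_left _ (Nat.pow_le_pow_right (by norm_num) (Nat.div_mul_le_self _ _))
  exact_mod_cast h

theorem BO_tail {K : ℕ} {f : ℕ → ℚ} (a N : ℕ) (C : ℚ) (hC : 0 ≤ C)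
    (h : ∀ d, N ≤ d → |f d| * 2 ^ ((K + 1) * d) ≤ C * (d : ℚ) ^ a) : BO K f := by
  refine ⟨C * (a : ℚ) ^ a, max N 1, fun d hd => ?_⟩
  have hd' : (1 : ℚ) ≤ (d : ℚ) ^ (2 * K) := one_le_pow₀ (by exact_mod_cast le_of_max_le_right hd)
  have h1 := (h d (le_of_max_le_left hd)).trans (mul_le_mul_of_nonneg_left (pow_le_exp a d) hC)
  rw [add_mul, one_mul, pow_add, ← mul_assoc, ← mul_assoc] at h1
  exact (le_of_mul_le_mul_right h1 (by positivity)).trans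
    (le_mul_of_one_le_right (by positivity) hd')

theorem BO_poly {K k : ℕ} (hk : K ≤ k) (q : ℚ[X]) (hq : q.natDegree ≤ 2 * k) :
    BO K fun d => q.eval (d : ℚ) / 2 ^ (k * d) := by
  obtain ⟨j, rfl⟩ := Nat.exists_eq_add_of_le hk
  refine ⟨(∑ i ∈ range (2 * (K + j) + 1), |q.coeff i|) * 4 ^ j, 1, fun d hd => ?_⟩
  have hd' : (1 : ℚ) ≤ d := by exact_mod_cast hd
  have h1 : |q.eval (d : ℚ)| ≤
      (∑ i ∈ range (2 * (K + j) + 1), |q.coeff i|) * (d : ℚ) ^ (2 * (K + j)) := by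
    rw [eval_eq_sum_range' (Nat.lt_succ_of_le hq), sum_mul]
    refine (abs_sum_le_sum_abs _ _).trans (sum_le_sum fun i hi => ?_)
    rw [abs_mul, abs_of_nonneg (a := (d : ℚ) ^ i) (by positivity)]
    exact mul_le_mul_of_nonneg_left (pow_le_pow_right₀ hd' (by have := mem_range.1 hi; omega))
      (abs_nonneg _)
  have h2 : ((d : ℚ) ^ 2) ^ j ≤ (4 * 2 ^ d) ^ j := by
    have := pow_le_exp 2 d
    norm_num at this
    gcongr
  have h3 : 0 ≤ ∑ i ∈ range (2 * (K + j) + 1), |q.coeff i| := by positivity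
  generalize ∑ i ∈ range (2 * (K + j) + 1), |q.coeff i| = S at *
  rw [abs_div, abs_of_nonneg (a := (2 : ℚ) ^ _) (by positivity), div_mul_eq_mul_div,
    div_le_iff₀ (by positivity)]
  calc |q.eval (d : ℚ)| * 2 ^ (K * d) ≤ S * (d : ℚ) ^ (2 * (K + j)) * 2 ^ (K * d) := by gcongr
    _ = S * (d : ℚ) ^ (2 * K) * 2 ^ (K * d) * ((d : ℚ) ^ 2) ^ j := by ring
    _ ≤ S * (d : ℚ) ^ (2 * K) * 2 ^ (K * d) * (4 * 2 ^ d) ^ j := by gcongr
    _ = _ := by ring

/-- Normalised term of the double average. -/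
def Tm (d : ℕ) (x y : Multiset ℕ × Multiset ℕ) : ℚ :=
  (Wt x * d ! * 2 ^ d) * (Wt y * d ! * 2 ^ d) *
    (2 ^ (gsum (x.1 + x.2) (y.1 + y.2) +
      max 1 (low (x.1 + x.2) (y.1 + y.2) + low (y.1 + y.2) (x.1 + x.2))) / (2 * 2 ^ d ^ 2))

def qq (M M' : ℕ) : ℚ[X] :=
  ∑ c ∈ TT M, ∑ e ∈ TT M',
    C (Wt c * Wt e * 2 ^ (sz c + sz e + M * M' + gsum (c.1 + c.2) (e.1 + e.2)) / 2 ^ (ln c * ln e)) *
      (descPochhammer ℚ (sz c) * descPochhammer ℚ (sz e))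

def pp (k : ℕ) : ℚ[X] := ∑ z ∈ antidiagonal k, qq z.1 z.2

theorem qq_deg (M M' : ℕ) : (qq M M').natDegree ≤ 2 * (M + M') := by
  refine natDegree_sum_le_of_forall_le _ _ fun c hc =>
    natDegree_sum_le_of_forall_le _ _ fun e he => (natDegree_C_mul_le _ _).trans ?_
  refine natDegree_mul_le.trans ?_
  rw [descPochhammer_natDegree, descPochhammer_natDegree]
  have := (TT_bd hc).1
  have := (TT_bd he).1
  omega

theorem pp_deg (k : ℕ) : (pp k).natDegree ≤ 2 * k :=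
  natDegree_sum_le_of_forall_le _ _ fun z hz => mem_antidiagonal.1 hz ▸ qq_deg z.1 z.2

theorem up_add (d : ℕ) (c : Multiset ℕ × Multiset ℕ) :
    (up d c).1 + (up d c).2 = c.1 + c.2 + Multiset.replicate (d - sz c) 1 := by
  simp only [up]
  rw [add_right_comm]

theorem Tm_up {M M' d : ℕ} {c e : Multiset ℕ × Multiset ℕ} (hc : c ∈ TT M) (he : e ∈ TT M')
    (h1 : sz c < d) (h2 : sz e < d) : Tm d (up d c) (up d e) =
      Wt c * Wt e * 2 ^ (sz c + sz e + M * M' + gsum (c.1 + c.2) (e.1 + e.2)) / 2 ^ (ln c * ln e) *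
        (d.descFactorial (sz c) * d.descFactorial (sz e)) / 2 ^ ((M + M') * d) := by
  have k1 := (mem_TT.1 hc).2.2
  have k2 := (mem_TT.1 he).2.2
  have o : ∀ (l : Multiset ℕ) (a : ℕ), 0 < a → 1 ∈ l + Multiset.replicate a 1 := fun l a ha =>
    Multiset.mem_add.2 (Or.inr (Multiset.mem_replicate.2 ⟨ha.ne', rfl⟩))
  rw [Tm, Wt_up hc h1.le, Wt_up he h2.le, up_add, up_add, low_zero _ _ (o _ _ (by omega)),
    low_zero _ _ (o _ _ (by omega)), gsum_up]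
  have e1 : (c.1 + c.2).card = ln c := by simp [ln]
  have e2 : (e.1 + e.2).card = ln e := by simp [ln]
  rw [e1, e2]
  generalize gsum (c.1 + c.2) (e.1 + e.2) = g
  obtain ⟨a, ha⟩ : ∃ a, d = sz c + a := ⟨d - sz c, by omega⟩
  obtain ⟨b, hb⟩ : ∃ b, d = sz e + b := ⟨d - sz e, by omega⟩
  have e3 : (d - sz e) * ln c + (d - sz c) * (ln e + (d - sz e)) + ln c * ln e + (M + M') * d =
      d ^ 2 + M * M' := by
    rw [show d - sz c = a by omega, show d - sz e = b by omega]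
    have u1 : (a : ℤ) + ln c = d - M := by omega
    have u2 : (b : ℤ) + ln e = d - M' := by omega
    zify
    linear_combination ((b : ℤ) + ln e) * u1 + ((d : ℤ) - M) * u2
  have e4 : (2 : ℚ) ^ ((d - sz e) * ln c) * 2 ^ ((d - sz c) * (ln e + (d - sz e))) *
      2 ^ (ln c * ln e) * 2 ^ ((M + M') * d) = 2 ^ d ^ 2 * 2 ^ (M * M') := by
    rw [← pow_add, ← pow_add, ← pow_add, e3, pow_add]
  simp only [pow_add, add_zero, Nat.zero_le, sup_of_le_left, pow_one]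
  generalize (2 : ℚ) ^ ((d - sz e) * ln c) = u at *
  generalize (2 : ℚ) ^ ((d - sz c) * (ln e + (d - sz e))) = v at *
  field_simp
  linear_combination (Wt c * d.descFactorial (sz c) * Wt e * d.descFactorial (sz e)) * e4

theorem sum_main {M M' d : ℕ} (h1 : 2 * M < d) (h2 : 2 * M' < d) :
    ∑ x ∈ (PP d).filter (fun x => d - ln x = M), ∑ y ∈ (PP d).filter (fun y => d - ln y = M'),
      Tm d x y = (qq M M').eval (d : ℚ) / 2 ^ ((M + M') * d) := by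
  rw [sum_fiber h1.le, qq, eval_finsetSum, sum_div]
  refine sum_congr rfl fun c hc => ?_
  rw [sum_fiber h2.le, eval_finsetSum, sum_div]
  refine sum_congr rfl fun e he => ?_
  rw [Tm_up hc he ((TT_bd hc).1.trans_lt h1) ((TT_bd he).1.trans_lt h2), eval_mul, eval_mul,
    eval_C, descPochhammer_eval_eq_descFactorial, descPochhammer_eval_eq_descFactorial]

theorem parts_bd {d : ℕ} {x : Multiset ℕ × Multiset ℕ} (h : x ∈ PP d) :
    (∀ i ∈ x.1 + x.2, 0 < i) ∧ (x.1 + x.2).sum ≤ d ∧ (x.1 + x.2).card = ln x ∧ ln x ≤ d := by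
  obtain ⟨h1, h2, h3⟩ := mem_PP.1 h
  refine ⟨fun i hi => (Multiset.mem_add.1 hi).elim (h1 i) (h2 i), ?_, by simp [ln],
    (core_mem h).2.2.2⟩
  rw [Multiset.sum_add]
  simp only [sz] at h3
  omega

theorem Tm_bd {d L : ℕ} (hd : 50000 ≤ d) {x y : Multiset ℕ × Multiset ℕ} (hx : x ∈ PP d)
    (hy : y ∈ PP d) (hL : L ≤ max (d - ln x) (d - ln y)) :
    |Tm d x y| * 2 ^ (L * d) ≤ 4 ^ d * (16 * (d : ℚ) ^ 4) ^ L := by
  obtain ⟨M, hM⟩ : ∃ M, M = max (d - ln x) (d - ln y) := ⟨_, rfl⟩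
  obtain ⟨x1, x2, x3, x4⟩ := parts_bd hx
  obtain ⟨y1, y2, y3, y4⟩ := parts_bd hy
  have b1 := Wt_bd (by omega) hx (M := M) (by omega)
  have b2 := Wt_bd (by omega) hy (M := M) (by omega)
  have g1 := (gsum_le (x.1 + x.2) _ y1).trans (Nat.mul_le_mul_left _ y2)
  have g2 := (gsum_le (y.1 + y.2) _ x1).trans (Nat.mul_le_mul_left _ x2)
  rw [gsum_comm] at g2
  have l1 := low_le (x.1 + x.2) (y.1 + y.2)
  have l2 := low_le (y.1 + y.2) (x.1 + x.2)
  rw [x3] at g1 l1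
  rw [y3] at g2 l2
  have g3 : gsum (x.1 + x.2) (y.1 + y.2) + M * d ≤ d ^ 2 := by
    rcases le_total (ln x) (ln y) with h | h
    · have : d = ln x + M := by omega
      calc _ ≤ ln x * d + M * d := by omega
        _ = d ^ 2 := by rw [← add_mul, ← this, sq]
    · have : d = ln y + M := by omega
      calc _ ≤ ln y * d + M * d := by omega
        _ = d ^ 2 := by rw [← add_mul, ← this, sq]
  rw [Tm]
  generalize hE : gsum (x.1 + x.2) (y.1 + y.2) +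
    max 1 (low (x.1 + x.2) (y.1 + y.2) + low (y.1 + y.2) (x.1 + x.2)) = E
  have g4 : (2 : ℚ) ^ E / (2 * 2 ^ d ^ 2) * 2 ^ (M * d) ≤ 4 ^ d := by
    rw [div_mul_eq_mul_div, div_le_iff₀ (by positivity), show (4 : ℚ) = 2 ^ 2 by norm_num,
      ← pow_mul, ← pow_add, ← _root_.pow_succ', ← pow_add]
    exact pow_le_pow_right₀ (by norm_num) (by omega)
  obtain ⟨j, hj⟩ : ∃ j, M = L + j := ⟨M - L, by omega⟩
  have hd' : (50000 : ℚ) ≤ d := by exact_mod_cast hd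
  have g5 : 16 * (d : ℚ) ^ 4 ≤ 2 ^ d := by
    have := pow_le_exp 5 d
    norm_num at this
    have h2 : 50000 * (d : ℚ) ^ 4 ≤ (d : ℚ) ^ 5 := by
      rw [_root_.pow_succ' (d : ℚ) 4]
      gcongr
    linarith
  rw [abs_mul, abs_mul, abs_of_nonneg (a := (2 : ℚ) ^ E / _) (by positivity)]
  refine le_of_mul_le_mul_right ?_ (show (0 : ℚ) < (2 ^ d) ^ j by positivity)
  calc _ = |Wt x * d ! * 2 ^ d| * |Wt y * d ! * 2 ^ d| *
        (2 ^ E / (2 * 2 ^ d ^ 2) * 2 ^ (M * d)) := by rw [hj]; ring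
    _ ≤ (4 * (d : ℚ) ^ 2) ^ M * (4 * (d : ℚ) ^ 2) ^ M * 4 ^ d := by gcongr
    _ = 4 ^ d * (16 * (d : ℚ) ^ 4) ^ L * (16 * (d : ℚ) ^ 4) ^ j := by
        rw [← mul_pow, hj, pow_add, show 4 * (d : ℚ) ^ 2 * (4 * (d : ℚ) ^ 2) = 16 * (d : ℚ) ^ 4 by ring]
        ring
    _ ≤ _ := by gcongr

theorem tail_A (K : ℕ) : BO K fun d => ∑ z ∈ (PP d ×ˢ PP d).filter
    (fun z => ¬ (d - ln z.1 < K + 7 ∧ d - ln z.2 < K + 7)), Tm d z.1 z.2 := by
  refine BO_tail (4 * (K + 7)) 50000 (16 ^ (K + 7)) (by positivity) fun d hd => ?_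
  refine le_of_mul_le_mul_right ?_ (show (0 : ℚ) < 2 ^ (6 * d) by positivity)
  rw [mul_assoc, ← pow_add, show (K + 1) * d + 6 * d = (K + 7) * d by ring]
  refine (mul_le_mul_of_nonneg_right (abs_sum_le_sum_abs _ _) (by positivity)).trans ?_
  rw [sum_mul]
  refine (sum_le_card_nsmul _ _ (4 ^ d * (16 * (d : ℚ) ^ 4) ^ (K + 7)) fun z hz => ?_).trans ?_
  · obtain ⟨h1, h2⟩ := mem_filter.1 hz
    exact Tm_bd hd (mem_product.1 h1).1 (mem_product.1 h1).2 (by omega)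
  · have h : #((PP d ×ˢ PP d).filter
        (fun z => ¬ (d - ln z.1 < K + 7 ∧ d - ln z.2 < K + 7))) ≤ 4 ^ d * 4 ^ d := by
      refine (card_filter_le _ _).trans ?_
      rw [card_product]
      exact Nat.mul_le_mul (card_PP d) (card_PP d)
    rw [nsmul_eq_mul]
    calc _ ≤ ((4 ^ d * 4 ^ d : ℕ) : ℚ) * (4 ^ d * (16 * (d : ℚ) ^ 4) ^ (K + 7)) := by gcongr
      _ = _ := by
        rw [mul_pow, ← pow_mul, pow_mul (2 : ℚ) 6 d, show (2 : ℚ) ^ 6 = 4 * 4 * 4 by norm_num,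
          mul_pow, mul_pow]
        push_cast
        ring

theorem head_A (L d : ℕ) (hd : 2 * L ≤ d) : ∑ z ∈ (PP d ×ˢ PP d).filter
    (fun z => d - ln z.1 < L ∧ d - ln z.2 < L), Tm d z.1 z.2 =
      ∑ w ∈ range L ×ˢ range L, (qq w.1 w.2).eval (d : ℚ) / 2 ^ ((w.1 + w.2) * d) := by
  rw [← sum_fiberwise_of_maps_to (t := range L ×ˢ range L) (g := fun z => (d - ln z.1, d - ln z.2))]
  · refine sum_congr rfl fun w hw => ?_
    obtain ⟨h1, h2⟩ := mem_product.1 hw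
    rw [mem_range] at h1 h2
    rw [← sum_main (by omega) (by omega), ← sum_product']
    refine sum_congr ?_ fun _ _ => rfl
    ext z
    simp only [mem_filter, mem_product, Prod.ext_iff]
    constructor
    · rintro ⟨⟨⟨a, b⟩, -⟩, c, e⟩
      exact ⟨⟨a, c⟩, b, e⟩
    · rintro ⟨⟨a, c⟩, b, e⟩
      exact ⟨⟨⟨a, b⟩, by omega, by omega⟩, c, e⟩
  · intro z hz
    simpa using (mem_filter.1 hz).2

theorem head_p (K L d : ℕ) (h : K ≤ L) : ∑ k ∈ range K, (pp k).eval (d : ℚ) / 2 ^ (k * d) =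
    ∑ w ∈ (range L ×ˢ range L).filter (fun w => w.1 + w.2 < K),
      (qq w.1 w.2).eval (d : ℚ) / 2 ^ ((w.1 + w.2) * d) := by
  rw [← sum_fiberwise_of_maps_to (s := (range L ×ˢ range L).filter (fun w => w.1 + w.2 < K))
    (t := range K) (g := fun w : ℕ × ℕ => w.1 + w.2)]
  · refine sum_congr rfl fun k hk => ?_
    rw [mem_range] at hk
    rw [pp, eval_finsetSum, sum_div]
    refine sum_congr ?_ fun w hw => by rw [(mem_filter.1 hw).2]
    ext w
    simp only [mem_filter, mem_product, mem_range, HasAntidiagonal.mem_antidiagonal]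
    omega
  · intro w hw
    exact mem_range.2 (mem_filter.1 hw).2

theorem part_A (K : ℕ) : BO K fun d => ∑ x ∈ PP d, ∑ y ∈ PP d, Tm d x y -
    ∑ k ∈ range K, (pp k).eval (d : ℚ) / 2 ^ (k * d) := by
  refine ((tail_A K).add (BO.sum ((range (K + 7) ×ˢ range (K + 7)).filter
    fun w => ¬ w.1 + w.2 < K) (fun w d => (qq w.1 w.2).eval (d : ℚ) / 2 ^ ((w.1 + w.2) * d))
    fun w hw => BO_poly (not_lt.1 (mem_filter.1 hw).2) _ (qq_deg _ _))).congr (2 * (K + 7))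
    fun d hd => ?_
  rw [← sum_product', ← sum_filter_add_sum_filter_not (PP d ×ˢ PP d)
    (fun z => d - ln z.1 < K + 7 ∧ d - ln z.2 < K + 7), head_A _ _ hd,
    head_p K (K + 7) d (by omega),
    ← sum_filter_add_sum_filter_not (range (K + 7) ×ˢ range (K + 7)) (fun w => w.1 + w.2 < K)]
  ring

theorem part_B (K : ℕ) : BO K fun d => (∑ x ∈ PP d, Wt x *
    2 ^ ((gsum (x.1 + x.2) (x.1 + x.2) + (x.1 + x.2).countP Odd) / 2 +
      if (x.1 + x.2).countP Odd = 0 then 1 else 0)) / 2 * (d ! : ℚ) ^ 2 * 4 ^ d / 2 ^ d ^ 2 := by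
  refine BO_tail 0 (2 * (6912 * 2 ^ (K + 1)) + 1) 1 (by norm_num) fun d hd => ?_
  obtain ⟨j, hj⟩ : ∃ j, j = (d - 1) / 2 := ⟨_, rfl⟩
  have hK : 0 < 2 ^ (K + 1) := by positivity
  have h1 : |∑ x ∈ PP d, Wt x *
      2 ^ ((gsum (x.1 + x.2) (x.1 + x.2) + (x.1 + x.2).countP Odd) / 2 +
        if (x.1 + x.2).countP Odd = 0 then 1 else 0)| ≤ 4 ^ d * (2 ^ ((d ^ 2 + d) / 2) * 2) := by
    refine (abs_sum_le_sum_abs _ _).trans
      ((sum_le_card_nsmul _ _ (2 ^ ((d ^ 2 + d) / 2) * 2) fun x hx => ?_).trans ?_)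
    · obtain ⟨x1, x2, x3, x4⟩ := parts_bd hx
      have g1 := (gsum_le (x.1 + x.2) _ x1).trans (Nat.mul_le_mul (x3.le.trans x4) x2)
      have g2 := (Multiset.countP_le_card Odd (x.1 + x.2)).trans (x3.le.trans x4)
      have g3 := Wt_le (mem_PP.1 hx).1 (mem_PP.1 hx).2.1
      rw [abs_mul, abs_of_nonneg (a := (2 : ℚ) ^ _) (by positivity), ← _root_.pow_succ]
      refine (mul_le_of_le_one_left (by positivity) g3).trans
        (pow_le_pow_right₀ (by norm_num) ?_)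
      rw [← sq] at g1
      split_ifs <;> omega
    · rw [nsmul_eq_mul]
      gcongr
      exact_mod_cast card_PP d
  have h2 : (d ! : ℚ) ≤ (d : ℚ) ^ d := by exact_mod_cast Nat.factorial_le_pow d
  have h3 : 16 * (d : ℚ) ^ 2 * 2 ^ (K + 1) ≤ 2 ^ j := by
    have a1 := pow_le_exp 3 j
    norm_num at a1
    have a2 : (d : ℚ) ≤ 4 * j := by exact_mod_cast (show d ≤ 4 * j by omega)
    have a3 : 6912 * (2 : ℚ) ^ (K + 1) ≤ j := by
      exact_mod_cast (show 6912 * 2 ^ (K + 1) ≤ j by omega)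
    have a4 : (d : ℚ) ^ 2 ≤ (4 * j) ^ 2 := by gcongr
    have a5 : 6912 * (2 : ℚ) ^ (K + 1) * (j : ℚ) ^ 2 ≤ j * (j : ℚ) ^ 2 := by gcongr
    have a6 : (d : ℚ) ^ 2 * 2 ^ (K + 1) ≤ (4 * j) ^ 2 * 2 ^ (K + 1) := by gcongr
    nlinarith
  have h4 : (d ^ 2 + d) / 2 + j * d ≤ d ^ 2 := by
    have a1 : 2 * j + 1 ≤ d := by omega
    have a2 : (2 * j + 1) * d ≤ d * d := Nat.mul_le_mul_right _ a1
    have a3 : (2 * j + 1) * d = 2 * (j * d) + d := by ring
    rw [← sq] at a2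
    omega
  generalize ∑ x ∈ PP d, Wt x *
      2 ^ ((gsum (x.1 + x.2) (x.1 + x.2) + (x.1 + x.2).countP Odd) / 2 +
        if (x.1 + x.2).countP Odd = 0 then 1 else 0) = S at *
  rw [abs_div, abs_mul, abs_mul, abs_div, abs_of_nonneg (a := (2 : ℚ) ^ _) (by positivity),
    abs_of_nonneg (a := (4 : ℚ) ^ _) (by positivity), abs_of_nonneg (a := (d ! : ℚ) ^ _) (by positivity),
    abs_two, div_mul_eq_mul_div, div_le_iff₀ (by positivity), pow_zero, one_mul, one_mul]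
  calc _ ≤ 4 ^ d * (2 ^ ((d ^ 2 + d) / 2) * 2) / 2 * ((d : ℚ) ^ d) ^ 2 * 4 ^ d *
        2 ^ ((K + 1) * d) := by gcongr
    _ = 2 ^ ((d ^ 2 + d) / 2) * (16 * (d : ℚ) ^ 2 * 2 ^ (K + 1)) ^ d := by
        rw [mul_pow, mul_pow, show (16 : ℚ) = 4 * 4 by norm_num, mul_pow, ← pow_mul (2 : ℚ)]
        ring
    _ ≤ 2 ^ ((d ^ 2 + d) / 2) * (2 ^ j) ^ d := by gcongr
    _ ≤ _ := by
        rw [← pow_mul, ← pow_add]
        exact pow_le_pow_right₀ (by norm_num) h4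

theorem expansion (K : ℕ) : BO K fun d => (Nat.card (Classes d) : ℚ) * (d ! : ℚ) ^ 2 * 4 ^ d /
    2 ^ d ^ 2 - ∑ k ∈ range K, (pp k).eval (d : ℚ) / 2 ^ (k * d) := by
  refine ((part_A K).add (part_B K)).congr 2 fun d hd => ?_
  rw [(main d).2, if_neg (by omega), avg_eq, avg_eq]
  simp only [avg_eq]
  have e : ∑ x ∈ PP d, ∑ y ∈ PP d, Tm d x y = (∑ x ∈ PP d, Wt x * ∑ y ∈ PP d, Wt y *
      2 ^ (gsum (x.1 + x.2) (y.1 + y.2) +
        max 1 (low (x.1 + x.2) (y.1 + y.2) + low (y.1 + y.2) (x.1 + x.2)))) / 2 *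
        (d ! : ℚ) ^ 2 * 4 ^ d / 2 ^ d ^ 2 := by
    simp only [mul_sum, sum_div, sum_mul]
    refine sum_congr rfl fun x _ => sum_congr rfl fun y _ => ?_
    rw [Tm, show (4 : ℚ) = 2 * 2 by norm_num, mul_pow]
    ring
  rw [e]
  ring

theorem TT0 : TT 0 = {(0, 0)} := by
  ext ⟨a, b⟩
  rw [mem_singleton]
  constructor
  · intro h
    have := (TT_bd h).2
    simp only [ln] at this
    rw [Multiset.card_eq_zero.1 (show a.card = 0 by omega),
      Multiset.card_eq_zero.1 (show b.card = 0 by omega)]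
  · rintro ⟨⟩
    simp [mem_TT, sz, ln]

theorem card_cases (a : Multiset ℕ) (h : a.card ≤ 2) :
    a = 0 ∨ (∃ i, a = {i}) ∨ ∃ i j, a = {i, j} := by
  rcases (show a.card = 0 ∨ a.card = 1 ∨ a.card = 2 by omega) with h | h | h
  · exact Or.inl (Multiset.card_eq_zero.1 h)
  · exact Or.inr (Or.inl (Multiset.card_eq_one.1 h))
  · exact Or.inr (Or.inr (Multiset.card_eq_two.1 h))

theorem TT1 : TT 1 = {({2}, 0), (0, {1})} := by
  ext ⟨a, b⟩
  constructor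
  · intro h
    have h0 := (TT_bd h).2
    obtain ⟨h1, h2, h3⟩ := mem_TT.1 h
    simp only [ln, sz] at h0 h1 h2 h3
    rcases card_cases a (by omega) with rfl | ⟨i, rfl⟩ | ⟨i, j, rfl⟩ <;>
      rcases card_cases b (by omega) with rfl | ⟨k, rfl⟩ | ⟨k, l, rfl⟩ <;>
      simp at h0 h1 h2 h3 ⊢ <;> omega
  · intro h
    simp only [mem_insert, mem_singleton] at h
    rcases h with h | h <;> rw [h] <;> simp [mem_TT, sz, ln]

theorem TT2 : TT 2 = {({3}, 0), ({2, 2}, 0), ({2}, {1}), (0, {1, 1})} := by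
  ext ⟨a, b⟩
  constructor
  · intro h
    have h0 := (TT_bd h).2
    obtain ⟨h1, h2, h3⟩ := mem_TT.1 h
    simp only [ln, sz] at h0 h1 h2 h3
    rcases card_cases a (by omega) with rfl | ⟨i, rfl⟩ | ⟨i, j, rfl⟩ <;>
      rcases card_cases b (by omega) with rfl | ⟨k, rfl⟩ | ⟨k, l, rfl⟩ <;>
      simp at h0 h1 h2 h3
    · omega
    · obtain ⟨rfl, rfl⟩ : k = 1 ∧ l = 1 := by omega
      decide
    · subst h3
      decide
    · obtain ⟨rfl, rfl⟩ : i = 2 ∧ k = 1 := by omega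
      decide
    · obtain ⟨rfl, rfl⟩ : i = 2 ∧ j = 2 := by omega
      decide
  · intro h
    simp only [mem_insert, mem_singleton] at h
    rcases h with h | h | h | h <;> rw [h] <;> simp [mem_TT, sz, ln]

theorem dP2 : descPochhammer ℚ 2 = X * (X - 1) := by
  simp [descPochhammer_succ_right]

theorem dP3 : descPochhammer ℚ 3 = X * (X - 1) * (X - 2) := by
  rw [descPochhammer_succ_right, dP2]
  simp

theorem dP4 : descPochhammer ℚ 4 = X * (X - 1) * (X - 2) * (X - 3) := by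
  rw [descPochhammer_succ_right, dP3]
  simp

theorem zee_vals : zee 0 = 1 ∧ zee {1} = 1 ∧ zee {2} = 2 ∧ zee {3} = 3 ∧ zee {1, 1} = 2 ∧
    zee {2, 2} = 8 := by decide

theorem pp0 : pp 0 = 1 := by
  simp [pp, qq, TT0, Wt, sz, ln, gsum, zee]

theorem pp1 : pp 1 = -2 * X * (X - 1) := by
  obtain ⟨z0, z1, z2, z3, z4, z5⟩ := zee_vals
  refine Polynomial.funext fun t => ?_
  rw [pp, Finset.Nat.sum_antidiagonal_succ, Finset.Nat.antidiagonal_zero, sum_singleton]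
  simp only [qq, zero_add, TT0, TT1, sum_singleton]
  rw [sum_pair (by decide), sum_pair (by decide)]
  simp [Wt, sz, ln, gsum, z0, z1, z2, dP2]
  ring

theorem pp2 : pp 2 = C (1 / 3) * X * (X - 1) * (15 * X ^ 2 - 19 * X + 2) := by
  obtain ⟨z0, z1, z2, z3, z4, z5⟩ := zee_vals
  have e : ∀ f : Multiset ℕ × Multiset ℕ → ℚ[X], ∑ c ∈ TT 2, f c =
      f ({3}, 0) + (f ({2, 2}, 0) + (f ({2}, {1}) + f (0, {1, 1}))) := fun f => by
    rw [TT2, sum_insert (by decide), sum_insert (by decide), sum_pair (by decide)]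
  have e1 : ∀ f : Multiset ℕ × Multiset ℕ → ℚ[X], ∑ c ∈ TT 1, f c = f ({2}, 0) + f (0, {1}) :=
    fun f => by rw [TT1, sum_pair (by decide)]
  refine Polynomial.funext fun t => ?_
  rw [pp, Finset.Nat.sum_antidiagonal_succ, Finset.Nat.sum_antidiagonal_succ,
    Finset.Nat.antidiagonal_zero, sum_singleton]
  simp only [qq, zero_add, Nat.reduceAdd, TT0, e, e1, sum_singleton]
  simp only [Wt, z0, z1, z2, z3, z4, z5]
  simp [sz, ln, gsum, dP2, dP3, dP4]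
  ring

end

end Pool.Agent.Lib.MP_7d9ca0_co
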