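import Mathlib

namespace Pool.Agent.Lib.MP_7d9ca0_co

open Equiv Finset Function

set_option linter.unusedSectionVars false

noncomputable section

variable {X : Type} [Fintype X] [DecidableEq X]

def Orb (σ : Perm X) : Type := Quotient (Perm.SameCycle.setoid σ)

def orb (σ : Perm X) (x : X) : Orb σ := Quotient.mk _ x

instance (σ : Perm X) : Finite (Orb σ) := by unfold Orb; infer_instance

instance (σ : Perm X) : Fintype (Orb σ) := Fintype.ofFinite _

instance (σ : Perm X) : DecidableEq (Orb σ) := Classical.decEq _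

def len (σ : Perm X) (q : Orb σ) : ℕ := #{x | orb σ x = q}

def ct (σ : Perm X) : Multiset ℕ := (univ : Finset (Orb σ)).val.map (len σ)

omit [Fintype X] [DecidableEq X] in
theorem orb_eq_iff (σ : Perm X) (x y : X) : orb σ x = orb σ y ↔ σ.SameCycle x y :=
  Quotient.eq

omit [Fintype X] [DecidableEq X] in
theorem orb_surj (σ : Perm X) : Surjective (orb σ) := Quotient.mk_surjective

omit [Fintype X] [DecidableEq X] in
def rep (σ : Perm X) (q : Orb σ) : X := Quotient.out q

omit [Fintype X] [DecidableEq X] in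
@[simp] theorem orb_rep (σ : Perm X) (q : Orb σ) : orb σ (rep σ q) = q := Quotient.out_eq q

omit [Fintype X] [DecidableEq X] in
@[simp] theorem orb_apply (σ : Perm X) (x : X) : orb σ (σ x) = orb σ x := by
  rw [orb_eq_iff]; simp [Perm.SameCycle.refl]

omit [Fintype X] [DecidableEq X] in
@[simp] theorem orb_pow (σ : Perm X) (k : ℕ) (x : X) : orb σ ((σ ^ k) x) = orb σ x := by
  rw [orb_eq_iff]; simp [Perm.SameCycle.refl]

theorem exists_pow (σ : Perm X) {x y : X} (h : orb σ x = orb σ y) : ∃ k : ℕ, (σ ^ k) x = y := by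
  obtain ⟨k, -, hk⟩ := ((orb_eq_iff σ x y).1 h).exists_pow_eq'
  exact ⟨k, hk⟩

theorem mp_pos (σ : Perm X) (x : X) : 0 < minimalPeriod σ x :=
  minimalPeriod_pos_of_mem_periodicPts (σ.injective.mem_periodicPts x)

theorem fiber_eq (σ : Perm X) (x : X) :
    ({y | orb σ y = orb σ x} : Finset X) =
      (range (minimalPeriod σ x)).image (fun k => (σ ^ k) x) := by
  ext y
  simp only [mem_filter, mem_univ, true_and, mem_image, mem_range]
  constructor
  · intro h
    obtain ⟨k, hk⟩ := exists_pow σ h.symm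
    refine ⟨k % minimalPeriod σ x, Nat.mod_lt _ (mp_pos σ x), ?_⟩
    rw [← hk, ← Perm.iterate_eq_pow, ← Perm.iterate_eq_pow]
    exact iterate_mod_minimalPeriod_eq
  · rintro ⟨k, -, rfl⟩
    simp

omit [Fintype X] [DecidableEq X] in
theorem pow_injOn (σ : Perm X) (x : X) :
    Set.InjOn (fun k => (σ ^ k) x) (range (minimalPeriod σ x) : Finset ℕ) := by
  intro a ha b hb hab
  simp only [coe_range, Set.mem_Iio] at ha hb
  exact iterate_injOn_Iio_minimalPeriod ha hb hab

theorem len_orb (σ : Perm X) (x : X) : len σ (orb σ x) = minimalPeriod σ x := by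
  rw [len, fiber_eq, card_image_of_injOn (pow_injOn σ x), card_range]

theorem len_pos (σ : Perm X) (q : Orb σ) : 0 < len σ q := by
  obtain ⟨x, rfl⟩ := orb_surj σ q
  rw [len_orb]; exact mp_pos σ x

theorem pow_eq_self_iff (σ : Perm X) (x : X) (n : ℕ) : (σ ^ n) x = x ↔ len σ (orb σ x) ∣ n := by
  rw [len_orb, ← isPeriodicPt_iff_minimalPeriod_dvd]
  rfl

theorem sum_orbit {M : Type*} [AddCommMonoid M] (σ : Perm X) (x : X) (φ : X → M) :
    ∑ y ∈ ({y | orb σ y = orb σ x} : Finset X), φ y =
      ∑ k ∈ range (len σ (orb σ x)), φ ((σ ^ k) x) := by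
  rw [fiber_eq, sum_image (pow_injOn σ x), len_orb]

theorem sum_range_mul {M : Type*} [AddCommMonoid M] (σ : Perm X) (x : X) (φ : X → M) (j : ℕ) :
    ∑ k ∈ range (len σ (orb σ x) * j), φ ((σ ^ k) x) =
      j • ∑ y ∈ ({y | orb σ y = orb σ x} : Finset X), φ y := by
  rw [sum_orbit]
  induction j with
  | zero => simp
  | succ j ih =>
    rw [Nat.mul_succ, sum_range_add, ih, succ_nsmul]
    congr 1
    refine sum_congr rfl fun k _ => ?_
    rw [add_comm, pow_add, Perm.mul_apply, (pow_eq_self_iff σ x _).2 (dvd_mul_right _ _)]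

theorem sum_X {M : Type*} [AddCommMonoid M] (σ : Perm X) (F : Orb σ → M) :
    ∑ x, F (orb σ x) = ∑ q, len σ q • F q := by
  rw [← sum_fiberwise (s := univ) (g := orb σ)]
  refine sum_congr rfl fun q _ => ?_
  rw [sum_congr rfl (g := fun _ => F q), sum_const, len]
  intro x hx
  rw [(mem_filter.1 hx).2]

theorem sum_len (σ : Perm X) : ∑ q, len σ q = Fintype.card X := by
  have := sum_X σ (fun _ => (1 : ℕ))
  simpa using this.symm

theorem ct_sum (σ : Perm X) : (ct σ).sum = Fintype.card X := sum_len σ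

theorem ct_card (σ : Perm X) : (ct σ).card = Fintype.card (Orb σ) := by
  simp [ct]

theorem ct_pos (σ : Perm X) {i : ℕ} (h : i ∈ ct σ) : 0 < i := by
  obtain ⟨q, -, rfl⟩ := Multiset.mem_map.1 h
  exact len_pos σ q

theorem mem_ct (σ : Perm X) (i : ℕ) : i ∈ ct σ ↔ ∃ q, len σ q = i := by
  simp [ct]

theorem ct_map_sum {M : Type*} [AddCommMonoid M] (σ : Perm X) (F : ℕ → M) :
    ((ct σ).map F).sum = ∑ q, F (len σ q) := by
  rw [ct, Multiset.map_map]; rfl

theorem ct_map_prod {M : Type*} [CommMonoid M] (σ : Perm X) (F : ℕ → M) :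
    ((ct σ).map F).prod = ∏ q, F (len σ q) := by
  rw [ct, Multiset.map_map]; rfl

theorem ct_countP (σ : Perm X) (p : ℕ → Prop) [DecidablePred p] :
    (ct σ).countP p = #{q | p (len σ q)} := by
  rw [ct, Multiset.countP_map]; rfl

theorem multiset_ext_moment {l m : Multiset ℕ} (hl : ∀ i ∈ l, 0 < i) (hm : ∀ i ∈ m, 0 < i)
    (h : ∀ F : ℕ → ℕ, (l.map fun i => i * F i).sum = (m.map fun i => i * F i).sum) : l = m := by
  ext a
  rcases Nat.eq_zero_or_pos a with rfl | ha
  · rw [Multiset.count_eq_zero.2 fun h => (hl 0 h).false,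
      Multiset.count_eq_zero.2 fun h => (hm 0 h).false]
  · have key : ∀ s : Multiset ℕ,
        (s.map fun i => i * (if i = a then 1 else 0)).sum = a * s.count a := by
      intro s
      induction s using Multiset.induction_on with
      | empty => simp
      | cons b s ih =>
        rw [Multiset.map_cons, Multiset.sum_cons, ih, Multiset.count_cons]
        by_cases hb : b = a
        · subst hb; simp; ring
        · simp [hb, Ne.symm hb]
    have := h fun i => if i = a then 1 else 0
    rw [key, key] at this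
    exact Nat.eq_of_mul_eq_mul_left ha this

theorem ct_moment (σ : Perm X) (F : ℕ → ℕ) :
    ((ct σ).map fun i => i * F i).sum = ∑ x, F (len σ (orb σ x)) := by
  rw [ct_map_sum, sum_X σ (fun q => F (len σ q))]
  simp

theorem ct_eq_partition (σ : Perm X) : ct σ = σ.partition.parts := by
  refine multiset_ext_moment (fun i hi => ct_pos σ hi) (fun i hi => σ.partition.parts_pos hi) ?_
  intro F
  rw [ct_moment, Perm.parts_partition, Multiset.map_add, Multiset.sum_add,
    ← sum_add_sum_compl σ.support]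
  congr 1
  · rw [Perm.cycleType_def, Multiset.map_map]
    change _ = ∑ c ∈ σ.cycleFactorsFinset, #c.support * F #c.support
    rw [← sum_fiberwise_of_maps_to (s := σ.support) (t := σ.cycleFactorsFinset)
      (g := fun x => σ.cycleOf x) (fun x hx => Perm.cycleOf_mem_cycleFactorsFinset_iff.2 hx)]
    refine sum_congr rfl fun c hc => ?_
    have h1 : ({x ∈ σ.support | σ.cycleOf x = c} : Finset X) = c.support := by
      ext x
      rw [mem_filter]
      constructor
      · rintro ⟨hx, rfl⟩
        rw [Perm.mem_support_cycleOf_iff]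
        exact ⟨Perm.SameCycle.refl _ _, hx⟩
      · intro hx
        exact ⟨Perm.mem_cycleFactorsFinset_support_le hc hx, (Perm.cycle_is_cycleOf hx hc).symm⟩
    rw [sum_congr rfl (g := fun _ => F #c.support), sum_const, h1, smul_eq_mul]
    intro x hx
    obtain ⟨hx', rfl⟩ := mem_filter.1 hx
    congr 1
    rw [len]
    congr 1
    ext y
    rw [Perm.mem_support_cycleOf_iff, mem_filter, orb_eq_iff]
    exact ⟨fun h => ⟨h.2.symm, hx'⟩, fun h => ⟨mem_univ _, h.1.symm⟩⟩
  · rw [sum_congr rfl (g := fun _ => F 1)]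
    · simp [card_compl]
    · intro x hx
      have : (σ ^ 1) x = x := by simpa using hx
      rw [Nat.dvd_one.1 ((pow_eq_self_iff σ x 1).1 this)]

theorem ct_sumCongr {Y : Type} [Fintype Y] [DecidableEq Y] (σ : Perm X) (τ : Perm Y) :
    ct (Perm.sumCongr σ τ) = ct σ + ct τ := by
  refine multiset_ext_moment (fun i hi => ct_pos _ hi) (fun i hi => ?_) ?_
  · rcases Multiset.mem_add.1 hi with h | h
    · exact ct_pos _ h
    · exact ct_pos _ h
  intro F
  have hp : ∀ n : ℕ, (Perm.sumCongr σ τ) ^ n = Perm.sumCongr (σ ^ n) (τ ^ n) := by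
    intro n
    induction n with
    | zero => simp
    | succ n ih => rw [pow_succ, ih, Perm.sumCongr_mul, ← pow_succ, ← pow_succ]
  rw [Multiset.map_add, Multiset.sum_add, ct_moment, ct_moment, ct_moment, Fintype.sum_sum_type]
  congr 1
  · refine sum_congr rfl fun x _ => ?_
    congr 1
    apply Nat.dvd_antisymm
    · rw [← pow_eq_self_iff, hp]; simp [pow_eq_self_iff]
    · rw [← pow_eq_self_iff]
      have := (pow_eq_self_iff (Perm.sumCongr σ τ) (Sum.inl x) _).2 dvd_rfl
      rw [hp] at this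
      simpa using this
  · refine sum_congr rfl fun x _ => ?_
    congr 1
    apply Nat.dvd_antisymm
    · rw [← pow_eq_self_iff, hp]; simp [pow_eq_self_iff]
    · rw [← pow_eq_self_iff]
      have := (pow_eq_self_iff (Perm.sumCongr σ τ) (Sum.inr x) _).2 dvd_rfl
      rw [hp] at this
      simpa using this

theorem pow_congr {S : Type} (σ : Perm X) (h : Perm S) (x : X) (s : S)
    (hs : (h ^ len σ (orb σ x)) s = s) {i j : ℕ} (hij : (σ ^ i) x = (σ ^ j) x) :
    (h ^ i) s = (h ^ j) s := by
  wlog hle : i ≤ j generalizing i j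
  · exact (this hij.symm (le_of_not_ge hle)).symm
  obtain ⟨k, rfl⟩ := Nat.exists_eq_add_of_le hle
  rw [pow_add, Perm.mul_apply] at hij ⊢
  have h1 : (σ ^ k) x = x := ((σ ^ i).injective hij).symm
  obtain ⟨m, rfl⟩ := (pow_eq_self_iff σ x k).1 h1
  congr 1
  rw [pow_mul]
  exact (Perm.pow_apply_eq_self_of_apply_eq_self hs m).symm

theorem card_hom {S : Type} [Fintype S] [DecidableEq S] (σ : Perm X) (h : Perm S)
    (P : S → Prop) [DecidablePred P] (hP : ∀ s, P s → P (h s)) :
    #{f : X → S | (∀ x, f (σ x) = h (f x)) ∧ ∀ x, P (f x)} =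
      ∏ q : Orb σ, #{s | P s ∧ (h ^ len σ q) s = s} := by
  have hPk : ∀ k : ℕ, ∀ s, P s → P ((h ^ k) s) := by
    intro k
    induction k with
    | zero => simp
    | succ k ih => intro s hs; rw [pow_succ', Perm.mul_apply]; exact hP _ (ih s hs)
  have hfk : ∀ f : X → S, (∀ x, f (σ x) = h (f x)) → ∀ k : ℕ, ∀ x, f ((σ ^ k) x) = (h ^ k) (f x) := by
    intro f hf k
    induction k with
    | zero => simp
    | succ k ih => intro x; rw [pow_succ', pow_succ', Perm.mul_apply, Perm.mul_apply, hf, ih]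
  rw [← Fintype.card_piFinset]
  have hk : ∀ x, ∃ k : ℕ, (σ ^ k) (rep σ (orb σ x)) = x := fun x => exists_pow σ (by simp)
  choose k hk using hk
  refine card_bij (fun f _ => fun q => f (rep σ q)) ?_ ?_ ?_
  · intro f hf
    obtain ⟨h1, h2⟩ := (mem_filter.1 hf).2
    rw [Fintype.mem_piFinset]
    intro q
    refine mem_filter.2 ⟨mem_univ _, h2 _, ?_⟩
    rw [← hfk f h1, (pow_eq_self_iff σ _ _).2 (by simp)]
  · intro f hf g hg hfg
    funext x
    rw [← hk x, hfk f (mem_filter.1 hf).2.1, hfk g (mem_filter.1 hg).2.1, congrFun hfg (orb σ x)]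
  · intro s hs
    rw [Fintype.mem_piFinset] at hs
    have hs1 : ∀ q, P (s q) := fun q => (mem_filter.1 (hs q)).2.1
    have hs2 : ∀ q, (h ^ len σ q) (s q) = s q := fun q => (mem_filter.1 (hs q)).2.2
    refine ⟨fun x => (h ^ k x) (s (orb σ x)), mem_filter.2 ⟨mem_univ _, ?_, ?_⟩, ?_⟩
    · intro x
      have e1 : (σ ^ k (σ x)) (rep σ (orb σ x)) = (σ ^ (k x + 1)) (rep σ (orb σ x)) := by
        rw [pow_succ', Perm.mul_apply, hk x]
        have := hk (σ x)
        rwa [orb_apply] at this
      have := pow_congr σ h (rep σ (orb σ x)) (s (orb σ x)) (by simpa using hs2 _) e1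
      simp only [orb_apply]
      rw [this, pow_succ', Perm.mul_apply]
    · intro x
      exact hPk _ _ (hs1 _)
    · funext q
      have e1 : (σ ^ k (rep σ q)) (rep σ q) = (σ ^ 0) (rep σ q) := by
        have := hk (rep σ q)
        rw [orb_rep] at this
        simpa using this
      have := pow_congr σ h (rep σ q) (s q) (by simpa using hs2 _) e1
      simpa using this

end

end Pool.Agent.Lib.MP_7d9ca0_co
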