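import Pool.Agent.Lib.MP_7d9ca0_co.Defs
import Pool.Agent.Lib.MP_7d9ca0_co.Orb

namespace Pool.Agent.Lib.MP_7d9ca0_co

open Equiv Finset Function Nat

set_option linter.unusedSectionVars false

noncomputable section

theorem zee_eq (l : Multiset ℕ) (s : Finset ℕ) (h : l.toFinset ⊆ s) :
    zee l = l.prod * ∏ i ∈ s, (l.count i)! := by
  rw [zee, prod_subset h]
  intro i _ hi
  rw [Multiset.count_eq_zero.2 (by simpa using hi)]
  rfl

theorem zee_cons (a : ℕ) (l : Multiset ℕ) : zee (a ::ₘ l) = a * (l.count a + 1) * zee l := by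
  rw [zee_eq (a ::ₘ l) (insert a l.toFinset) (by simp),
    zee_eq l (insert a l.toFinset) (subset_insert _ _),
    ← mul_prod_erase _ _ (mem_insert_self a _), ← mul_prod_erase _ _ (mem_insert_self a _),
    Multiset.prod_cons, Multiset.count_cons_self, factorial_succ]
  rw [prod_congr rfl (g := fun i => (l.count i)!)]
  · ring
  · intro i hi
    rw [Multiset.count_cons_of_ne (ne_of_mem_erase hi)]

theorem zee_pos {l : Multiset ℕ} (hl : ∀ i ∈ l, 0 < i) : 0 < zee l :=
  Nat.mul_pos (Multiset.prod_pos hl) (prod_pos fun _ _ => factorial_pos _)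

theorem zee_add_ones (m : Multiset ℕ) (hm : 1 ∉ m) (c : ℕ) :
    zee (m + Multiset.replicate c 1) = c ! * zee m := by
  induction c with
  | zero => simp
  | succ c ih =>
    rw [Multiset.replicate_succ, Multiset.add_cons, zee_cons, ih, Multiset.count_add,
      Multiset.count_eq_zero.2 hm, Multiset.count_replicate_self, factorial_succ]
    ring

theorem card_ct_mul_zee (n : ℕ) (p : n.Partition) :
    #{σ : Perm (Fin n) | ct σ = p.parts} * zee p.parts = n ! := by
  set m := p.parts.filter (2 ≤ ·) with hm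
  have h1 : p.parts = m + Multiset.replicate (p.parts.count 1) 1 := by
    rw [← Multiset.filter_eq', hm]
    conv_lhs => rw [← Multiset.filter_add_not (2 ≤ ·) p.parts]
    congr 1
    refine Multiset.filter_congr fun i hi => ?_
    have := p.parts_pos hi
    omega
  have h2 : m.sum + p.parts.count 1 = n := by
    have := congrArg Multiset.sum h1
    rw [p.parts_sum, Multiset.sum_add, Multiset.sum_replicate] at this
    simpa using this.symm
  have h3 : ({σ | ct σ = p.parts} : Finset (Perm (Fin n))) =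
      ({σ | σ.cycleType = m} : Finset (Perm (Fin n))) := by
    ext σ
    simp only [mem_filter, mem_univ, true_and]
    rw [ct_eq_partition]
    constructor
    · intro h
      rw [← Perm.filter_parts_partition_eq_cycleType, h]
    · intro h
      rw [Perm.parts_partition, ← Perm.sum_cycleType, h, h1, Fintype.card_fin]
      congr 2
      omega
  have h4 := Perm.card_of_cycleType_mul_eq (Fin n) m
  rw [if_pos ⟨by rw [Fintype.card_fin]; omega, fun a ha => (Multiset.mem_filter.1 ha).2⟩,
    Fintype.card_fin] at h4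
  rw [h3, ← h4, h1, zee_add_ones m (fun h => by simpa using (Multiset.mem_filter.1 h).2), zee]
  rw [show n - m.sum = p.parts.count 1 by omega]
  ring

theorem sum_perm (n : ℕ) (F : Multiset ℕ → ℚ) :
    ∑ σ : Perm (Fin n), F (ct σ) = n ! * ∑ p : n.Partition, F p.parts / zee p.parts := by
  let g : Perm (Fin n) → n.Partition := fun σ =>
    ⟨ct σ, fun h => ct_pos σ h, by rw [ct_sum, Fintype.card_fin]⟩
  rw [← sum_fiberwise (s := univ) (g := g), mul_sum]
  refine sum_congr rfl fun p _ => ?_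
  have h1 : ({σ | g σ = p} : Finset (Perm (Fin n))) =
      ({σ | ct σ = p.parts} : Finset (Perm (Fin n))) := by
    ext σ
    simp [g, Nat.Partition.ext_iff]
  rw [h1, sum_congr rfl (g := fun _ => F p.parts), sum_const, ← card_ct_mul_zee n p]
  · have : (zee p.parts : ℚ) ≠ 0 := by exact_mod_cast (zee_pos fun i hi => p.parts_pos hi).ne'
    push_cast
    field_simp
    simp
  · intro σ hσ
    rw [(mem_filter.1 hσ).2]

def Z (p : ℕ → ℚ) (n : ℕ) : ℚ := ∑ l : n.Partition, (l.parts.map p).prod / zee l.parts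

theorem Z_zero (p : ℕ → ℚ) : Z p 0 = 1 := by
  simp [Z, zee]

theorem Z_rec (p : ℕ → ℚ) (n : ℕ) : n * Z p n = ∑ k ∈ Icc 1 n, p k * Z p (n - k) := by
  have h1 : ∀ l : n.Partition, (n : ℚ) = ∑ k ∈ Icc 1 n, (l.parts.count k * k : ℚ) := by
    intro l
    have := sum_multiset_count_of_subset l.parts (Icc 1 n) (by
      intro i hi
      rw [Multiset.mem_toFinset] at hi
      exact mem_Icc.2 ⟨l.parts_pos hi, Nat.Partition.le_of_mem_parts hi⟩)
    rw [l.parts_sum] at this
    conv_lhs => rw [this]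
    simp
  rw [Z, mul_sum, sum_congr rfl (fun l _ => by rw [h1 l, sum_mul]), sum_comm]
  refine sum_congr rfl fun k hk => ?_
  obtain ⟨hk1, hk2⟩ := mem_Icc.1 hk
  rw [Z, mul_sum, ← sum_filter_add_sum_filter_not univ (fun l : n.Partition => k ∈ l.parts),
    sum_eq_zero (s := filter (fun l : n.Partition => ¬ k ∈ l.parts) univ), add_zero,
    sum_subtype (p := fun l : n.Partition => k ∈ l.parts) _ (by simp),
    ← Equiv.sum_comp (Nat.Partition.partitionWithPartEquiv hk1 hk2).symm]
  · refine sum_congr rfl fun l _ => ?_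
    rw [Nat.Partition.partitionWithPartEquiv_symm_apply_parts, zee_cons, Multiset.count_cons_self,
      Multiset.map_cons, Multiset.prod_cons]
    have : (zee l.parts : ℚ) ≠ 0 := by exact_mod_cast (zee_pos fun i hi => l.parts_pos hi).ne'
    have : (k : ℚ) ≠ 0 := by exact_mod_cast (by omega : k ≠ 0)
    push_cast
    field_simp
  · intro l hl
    rw [Multiset.count_eq_zero.2 (mem_filter.1 hl).2]
    simp

open PowerSeries

def Pser (p : ℕ → ℚ) : ℚ⟦X⟧ := PowerSeries.mk fun k => if k = 0 then 0 else p k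

def Sol (P F : ℚ⟦X⟧) : Prop := constantCoeff F = 1 ∧ X * d⁄dX ℚ F = P * F

theorem coeff_X_mul_deriv (F : ℚ⟦X⟧) (n : ℕ) : coeff n (X * d⁄dX ℚ F) = n * coeff n F := by
  cases n with
  | zero => simp
  | succ n => rw [coeff_succ_X_mul, coeff_derivative]; push_cast; ring

theorem coeff_Pser_mul (p : ℕ → ℚ) (F : ℚ⟦X⟧) (n : ℕ) :
    coeff n (Pser p * F) = ∑ k ∈ Icc 1 n, p k * coeff (n - k) F := by
  rw [coeff_mul, Finset.Nat.sum_antidiagonal_eq_sum_range_succ_mk, range_eq_Ico,
    sum_eq_sum_Ico_succ_bot (Nat.succ_pos n)]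
  simp only [Pser, coeff_mk, if_true, zero_mul, zero_add]
  refine sum_congr rfl fun k hk => ?_
  rw [if_neg]
  have := (mem_Icc.1 hk).1
  omega

theorem Sol.unique {p : ℕ → ℚ} {F G : ℚ⟦X⟧} (hF : Sol (Pser p) F) (hG : Sol (Pser p) G) :
    F = G := by
  ext n
  induction n using Nat.strong_induction_on with
  | _ n ih =>
    rcases Nat.eq_zero_or_pos n with rfl | hn
    · simp [hF.1, hG.1]
    · have h1 := congrArg (coeff n) hF.2
      have h2 := congrArg (coeff n) hG.2
      rw [coeff_X_mul_deriv, coeff_Pser_mul] at h1 h2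
      have h3 : (n : ℚ) ≠ 0 := by exact_mod_cast hn.ne'
      apply mul_left_cancel₀ h3
      rw [h1, h2]
      refine sum_congr rfl fun k hk => ?_
      rw [ih]
      have := (mem_Icc.1 hk).1
      omega

theorem Sol.mul {P Q F G : ℚ⟦X⟧} (hF : Sol P F) (hG : Sol Q G) : Sol (P + Q) (F * G) := by
  refine ⟨by simp [hF.1, hG.1], ?_⟩
  rw [Derivation.leibniz, smul_eq_mul, smul_eq_mul]
  linear_combination G * hF.2 + F * hG.2

theorem sol_Z (p : ℕ → ℚ) : Sol (Pser p) (PowerSeries.mk (Z p)) := by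
  refine ⟨by simp [Z_zero], ?_⟩
  ext n
  rw [coeff_X_mul_deriv, coeff_Pser_mul]
  simp only [coeff_mk]
  exact Z_rec p n

theorem Pser_add (p q : ℕ → ℚ) : Pser (fun l => p l + q l) = Pser p + Pser q := by
  ext n
  simp only [Pser, coeff_mk, map_add]
  split_ifs <;> simp

theorem sol_one : Sol (Pser fun _ => 0) 1 := by
  refine ⟨by simp, ?_⟩
  ext n
  simp [Pser]

theorem sol_cyc (k : ℕ) (hk : 0 < k) :
    Sol (Pser fun l => -(if k ∣ l then (k : ℚ) else 0)) (1 - X ^ k) := by
  refine ⟨by simp [hk.ne'], ?_⟩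
  ext n
  rw [coeff_X_mul_deriv, mul_sub, mul_one, map_sub, map_sub, coeff_mul_X_pow', coeff_X_pow,
    coeff_one]
  simp only [Pser, coeff_mk]
  by_cases h0 : n = 0
  · subst h0
    simp [hk.ne', hk.ne]
  by_cases h1 : n = k
  · subst h1
    simp [h0]
  rw [if_neg h0, if_neg h1, if_neg h0]
  by_cases h2 : k ≤ n
  · have h3 : ¬ n - k = 0 := by omega
    have : k ∣ n - k ↔ k ∣ n := (Nat.dvd_sub_iff_left h2 dvd_rfl)
    rw [if_pos h2, if_neg h3]
    simp [this]
  · rw [if_neg h2, if_neg (fun h => h2 (Nat.le_of_dvd (by omega) h))]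
    simp

theorem sol_prod {ι : Type} [DecidableEq ι] (U : Finset ι) (k : ι → ℕ) (hk : ∀ c, 0 < k c) :
    Sol (Pser fun l => -∑ c ∈ U, if k c ∣ l then (k c : ℚ) else 0) (∏ c ∈ U, (1 - X ^ k c)) := by
  induction U using Finset.induction_on with
  | empty => simpa using sol_one
  | insert c U hc ih =>
    rw [prod_insert hc]
    have := (sol_cyc (k c) (hk c)).mul ih
    rw [← Pser_add] at this
    convert this using 3 with l
    rw [sum_insert hc]
    ring

theorem sum_even (d : ℕ) (g : ℕ → ℕ → ℚ) :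
    ∑ j ∈ range (d + 1), (if 2 ∣ j then g j (j / 2) else 0) =
      ∑ b ∈ range (d / 2 + 1), g (2 * b) b := by
  rw [← sum_filter]
  symm
  refine sum_bij (fun b _ => 2 * b) ?_ ?_ ?_ ?_
  · intro b hb
    simp only [mem_filter, mem_range] at hb ⊢
    omega
  · intro a _ b _ h
    omega
  · intro j hj
    simp only [mem_filter, mem_range] at hj
    exact ⟨j / 2, mem_range.2 (by omega), by omega⟩
  · intro b _
    simp

theorem key_Z {ι : Type} [DecidableEq ι] (U : Finset ι) (k : ι → ℕ) (hk : ∀ c, 0 < k c) (d : ℕ) :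
    ∑ b ∈ range (d / 2 + 1), Z (fun l => ∑ c ∈ U, if k c ∣ l then (k c : ℚ) else 0) (d - 2 * b) *
      Z (fun l => -∑ c ∈ U, if k c ∣ l then (k c : ℚ) else 0) b =
      ∑ T ∈ U.powerset, if ∑ c ∈ T, k c = d then 1 else 0 := by
  set a : ℕ → ℚ := fun l => ∑ c ∈ U, if k c ∣ l then (k c : ℚ) else 0 with ha
  have hN := sol_prod U k hk
  have h1 : PowerSeries.mk (Z fun l => -a l) = ∏ c ∈ U, (1 - X ^ k c) := (sol_Z _).unique hN
  have h2 : PowerSeries.mk (Z a) * ∏ c ∈ U, (1 - X ^ k c) = (1 : ℚ⟦X⟧) := by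
    have := (sol_Z a).mul hN
    rw [← Pser_add] at this
    refine Sol.unique ?_ sol_one
    convert this using 3 with l
    simp [ha]
  have h3 : PowerSeries.expand 2 (by norm_num) (PowerSeries.mk (Z fun l => -a l)) *
      PowerSeries.mk (Z a) = ∏ c ∈ U, (1 + X ^ k c) := by
    rw [h1, map_prod]
    have : ∏ c ∈ U, PowerSeries.expand 2 (by norm_num) (1 - X ^ k c : ℚ⟦X⟧) =
        (∏ c ∈ U, (1 + X ^ k c)) * ∏ c ∈ U, (1 - X ^ k c) := by
      rw [← prod_mul_distrib]
      refine prod_congr rfl fun c _ => ?_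
      rw [map_sub, map_one, map_pow, PowerSeries.expand_X]
      ring
    rw [this, mul_assoc, mul_comm _ (PowerSeries.mk (Z a)), h2, mul_one]
  have h4 := congrArg (coeff d) h3
  rw [coeff_mul, Finset.Nat.sum_antidiagonal_eq_sum_range_succ_mk, prod_one_add, map_sum] at h4
  simp only [coeff_expand, coeff_mk, prod_pow_eq_pow_sum, coeff_X_pow, ite_mul, zero_mul] at h4
  rw [sum_even d (fun j b => Z (fun l => -a l) b * Z a (d - j))] at h4
  rw [sum_congr rfl fun b _ => mul_comm _ _, h4]
  refine sum_congr rfl fun T _ => ?_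
  simp only [eq_comm]

end

end Pool.Agent.Lib.MP_7d9ca0_co
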