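import Mathlib

namespace Pool.Agent.Lib.MP_7d9ca0_co

/-- S-graph: connected, bipartite, and for every v exactly one local maximum of the distance from v. -/
def IsSGraph {V : Type} (G : SimpleGraph V) : Prop :=
  G.Connected ∧ G.IsBipartite ∧
    ∀ v : V, Set.ncard {x : V | ∀ y : V, G.Adj x y → G.dist v y ≤ G.dist v x} = 1

/-- Finite d-regular S-graphs of diameter four, on a vertex set Fin n. -/
def RegS (d : ℕ) : Type :=
  {p : Σ n : ℕ, SimpleGraph (Fin n) //
    IsSGraph p.2 ∧ (∀ v, (p.2.neighborSet v).ncard = d) ∧ p.2.diam = 4}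

/-- Their isomorphism classes. -/
def Classes (d : ℕ) : Type :=
  Quot fun p q : RegS d => Nonempty (p.1.2 ≃g q.1.2)

/-- z_l = prod of i^(m_i) m_i!. -/
def zee (l : Multiset ℕ) : ℕ := l.prod * ∏ i ∈ l.toFinset, (l.count i).factorial

/-- Signed average over pairs of partitions a, b with |a| + 2|b| = d. -/
def avg (d : ℕ) (F : Multiset ℕ → ℚ) : ℚ :=
  ∑ k ∈ Finset.range (d / 2 + 1), ∑ a : (d - 2 * k).Partition, ∑ b : k.Partition,
    (-1) ^ b.parts.card * F (a.parts + b.parts) /
      (zee a.parts * zee b.parts * 2 ^ (a.parts.card + b.parts.card))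

/-- Sum of gcd(i, j) over parts i of l and j of m. -/
def gsum (l m : Multiset ℕ) : ℕ := (l.map fun i => (m.map fun j => Nat.gcd i j).sum).sum

/-- Number of parts of l whose 2-adic valuation is below that of every part of m. -/
def low (l m : Multiset ℕ) : ℕ := l.countP fun i => ∀ j ∈ m, padicValNat 2 i < padicValNat 2 j

end Pool.Agent.Lib.MP_7d9ca0_co
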