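import Pool.Agent.Lib.MP_7d9ca0_co.Sw

namespace Pool.Agent.Lib.MP_7d9ca0_co

open Equiv Finset Function

set_option linter.unusedSectionVars false

noncomputable section

def cnt {A : Type} (p : A → Prop) : ℕ := Nat.card {a // p a}

theorem cnt_eq {A : Type} [Fintype A] (p : A → Prop) [DecidablePred p] : cnt p = #{a | p a} := by
  rw [cnt, Nat.card_eq_fintype_card, Fintype.card_subtype]

theorem cnt_congr {A : Type} {p q : A → Prop} (h : ∀ a, p a ↔ q a) : cnt p = cnt q := by
  rw [show p = q from funext fun a => propext (h a)]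

theorem cnt_true {A : Type} [Fintype A] : cnt (fun _ : A => True) = Fintype.card A := by
  rw [cnt_eq]; simp

theorem cnt_prod {A B : Type} [Fintype A] [Fintype B] (r : A → B → Prop) (K : ℕ) (q : A → Prop)
    (h1 : ∀ a, q a → cnt (r a) = K) (h2 : ∀ a b, r a b → q a) :
    cnt (fun z : A × B => r z.1 z.2) = K * cnt q := by
  classical
  rw [cnt_eq, cnt_eq, card_filter, card_filter, Fintype.sum_prod_type, mul_sum]
  refine sum_congr rfl fun a _ => ?_
  rw [← card_filter, ← cnt_eq]
  split_ifs with h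
  · rw [h1 a h, mul_one]
  · rw [cnt_eq, mul_zero, card_eq_zero, filter_eq_empty_iff]
    exact fun b _ hb => h (h2 a b hb)

theorem cnt_swap {A B : Type} (r : A → B → Prop) :
    cnt (fun z : A × B => r z.1 z.2) = cnt (fun z : B × A => r z.2 z.1) :=
  Nat.card_congr ((Equiv.prodComm A B).subtypeEquiv fun _ => Iff.rfl)

section Groups

variable {A B : Type} [AddCommGroup A] [AddCommGroup B] [Fintype A] [Fintype B]

theorem cnt_fib (f : A →+ B) (b : B) (h : b ∈ Set.range f) :
    cnt (fun a => f a = b) = cnt (fun a => f a = 0) := by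
  classical
  rw [cnt_eq, cnt_eq]
  exact AddMonoidHom.card_fiber_eq_of_mem_range f h ⟨0, map_zero f⟩

theorem cnt_pre (f : A →+ B) (p : B → Prop) :
    cnt (fun a => p (f a)) = cnt (fun a => f a = 0) * cnt (fun b => p b ∧ b ∈ Set.range f) := by
  rw [← cnt_prod (fun b a => p b ∧ f a = b) _ _ (fun b hb => by
    rw [← cnt_fib f b hb.2]; exact cnt_congr fun a => and_iff_right hb.1)
    (fun b a h => ⟨h.1, a, h.2⟩)]
  refine Nat.card_eq_of_bijective (fun a => ⟨(f a.1, a.1), a.2, rfl⟩) ⟨?_, ?_⟩
  · intro a a' h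
    exact Subtype.ext (congrArg (fun z => z.1.2) h)
  · rintro ⟨⟨b, a⟩, h1, h2⟩
    dsimp only at h1 h2
    subst h2
    exact ⟨⟨a, h1⟩, rfl⟩

theorem cnt_pre_surj (f : A →+ B) (hf : Surjective f) (p : B → Prop) :
    cnt (fun a => p (f a)) * Fintype.card B = Fintype.card A * cnt p := by
  have h1 := cnt_pre f p
  have h2 := cnt_pre f fun _ => True
  simp only [hf.range_eq, Set.mem_univ, and_true, cnt_true] at h1 h2
  rw [h1, h2]
  ring

end Groups

variable {Z : Type} [Fintype Z] [DecidableEq Z]

def Dif (π : Perm Z) : (Z → ZMod 2) →+ (Z → ZMod 2) where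
  toFun M := fun z => M (π z) - M z
  map_zero' := by funext z; simp
  map_add' u v := by funext z; simp; ring

def Cond (π : Perm Z) (g : Z → ZMod 2) : Prop :=
  ∀ z n, (π ^ n) z = z → ∑ k ∈ range n, g ((π ^ k) z) = 0

theorem card_ker_Dif (π : Perm Z) :
    cnt (fun M => Dif π M = 0) = 2 ^ Fintype.card (Orb π) := by
  rw [cnt_eq]
  have := card_hom π (1 : Perm (ZMod 2)) (fun _ => True) (fun _ _ => trivial)
  simp only [Perm.coe_one, id_eq, implies_true, and_true, one_pow, and_self, filter_true,
    card_univ, ZMod.card, prod_const] at this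
  rw [← this]
  congr 1
  refine filter_congr fun M _ => ?_
  simp [Dif, funext_iff, sub_eq_zero]

theorem mem_range_Dif (π : Perm Z) (g : Z → ZMod 2) : g ∈ Set.range (Dif π) ↔ Cond π g := by
  constructor
  · rintro ⟨M, rfl⟩ z n hn
    have := sum_range_sub (fun k => M ((π ^ k) z)) n
    simp only [pow_succ', Perm.mul_apply, hn, pow_zero, Perm.one_apply, sub_self] at this
    exact this
  · intro h
    have hk : ∀ x, ∃ k : ℕ, (π ^ k) (rep π (orb π x)) = x := fun x => exists_pow π (by simp)
    choose k hk using hk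
    have key : ∀ o i j, (π ^ i) o = (π ^ j) o →
        ∑ k ∈ range i, g ((π ^ k) o) = ∑ k ∈ range j, g ((π ^ k) o) := by
      intro o i j hij
      wlog hle : i ≤ j generalizing i j
      · exact (this j i hij.symm (le_of_not_ge hle)).symm
      obtain ⟨m, rfl⟩ := Nat.exists_eq_add_of_le hle
      rw [sum_range_add]
      have h1 := h ((π ^ i) o) m (by rw [← Perm.mul_apply, ← pow_add, add_comm, ← hij])
      simp only [← Perm.mul_apply, ← pow_add, add_comm _ i] at h1
      rw [h1, add_zero]
    refine ⟨fun z => ∑ i ∈ range (k z), g ((π ^ i) (rep π (orb π z))), funext fun z => ?_⟩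
    have e1 : (π ^ k (π z)) (rep π (orb π z)) = (π ^ (k z + 1)) (rep π (orb π z)) := by
      rw [pow_succ', Perm.mul_apply, hk z]
      have := hk (π z)
      rwa [orb_apply] at this
    simp only [Dif, AddMonoidHom.coe_mk, ZeroHom.coe_mk, orb_apply]
    rw [key _ _ _ e1, sum_range_succ, hk z]
    ring

variable {X Y : Type} [Fintype X] [DecidableEq X] [Fintype Y] [DecidableEq Y]

theorem card_fix (π : Perm (X × Y)) (h : Good π) :
    cnt (fun s : Sw X Y => pull π h s = s) * Fintype.card ((X → ZMod 2) × (Y → ZMod 2)) =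
      2 ^ Fintype.card (Orb π) * cnt (fun u => Cond π (psi X Y u)) := by
  have : Finite (Mat X Y ⧸ (psi X Y).range) := inferInstanceAs (Finite (Sw X Y))
  let _ : Fintype (Mat X Y ⧸ (psi X Y).range) := Fintype.ofFinite _
  have h2 := cnt_prod (fun u M => Dif π M = psi X Y u) (2 ^ Fintype.card (Orb π))
    (fun u => Cond π (psi X Y u))
    (fun u hu => by rw [cnt_fib _ _ ((mem_range_Dif _ _).2 hu), card_ker_Dif])
    (fun u M h => (mem_range_Dif _ _).1 ⟨M, h⟩)
  have h6 := cnt_prod (fun M u => psi X Y u = Dif π M) (cnt fun u => psi X Y u = 0)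
    (fun M => Dif π M ∈ Set.range (psi X Y)) (fun M hM => cnt_fib _ _ hM)
    (fun M u h => ⟨u, h⟩)
  have h3 := cnt_pre (QuotientAddGroup.mk' (psi X Y).range) (fun s => pull π h s = s)
  have h4 := cnt_pre (psi X Y) fun _ => True
  have h5 : ∀ M : Mat X Y, pull π h (QuotientAddGroup.mk' (psi X Y).range M) =
      QuotientAddGroup.mk' (psi X Y).range M ↔ Dif π M ∈ Set.range (psi X Y) := by
    intro M
    change mkS (M ∘ π) = mkS M ↔ _
    rw [eq_comm]
    refine QuotientAddGroup.eq.trans ?_
    rw [show -M + M ∘ π = Dif π M from by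
      funext z
      change -M z + M (π z) = M (π z) - M z
      ring]
    rfl
  simp only [h5, (QuotientAddGroup.mk'_surjective _).range_eq, Set.mem_univ, and_true] at h3
  simp only [cnt_true, true_and] at h4
  have h8 : cnt (fun M : Mat X Y => QuotientAddGroup.mk' (psi X Y).range M = 0) =
      cnt fun M : Mat X Y => M ∈ Set.range (psi X Y) := by
    refine cnt_congr fun M => ?_
    rw [QuotientAddGroup.mk'_apply, QuotientAddGroup.eq_zero_iff]
    rfl
  rw [← h2, cnt_swap (fun u M => Dif π M = psi X Y u),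
    cnt_congr (p := fun z : Mat X Y × _ => Dif π z.1 = psi X Y z.2) (fun _ => eq_comm),
    h6, h3, h4, h8]
  change cnt (fun s : Mat X Y ⧸ (psi X Y).range => pull π h s = s) * _ = _
  ring

end

end Pool.Agent.Lib.MP_7d9ca0_co
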