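import Pool.Agent.Lib.MP_7d9ca0_co.Fix

namespace Pool.Agent.Lib.MP_7d9ca0_co

open Equiv Finset Function

set_option linter.unusedSectionVars false

noncomputable section

variable {X Y : Type} [Fintype X] [DecidableEq X] [Fintype Y] [DecidableEq Y]

def osum (σ : Perm X) : (X → ZMod 2) →+ (Orb σ → ZMod 2) where
  toFun r := fun q => ∑ x ∈ ({x | orb σ x = q} : Finset X), r x
  map_zero' := by funext z; simp
  map_add' u v := by funext z; simp [sum_add_distrib]

theorem osum_surj (σ : Perm X) : Surjective (osum σ) := by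
  intro R
  refine ⟨fun x => if x = rep σ (orb σ x) then R (orb σ x) else 0, funext fun q => ?_⟩
  simp only [osum, AddMonoidHom.coe_mk, ZeroHom.coe_mk]
  rw [sum_eq_single (rep σ q)]
  · simp
  · intro x hx hne
    rw [(mem_filter.1 hx).2, if_neg hne]
  · simp

theorem sum_pow_of_dvd (σ : Perm X) (r : X → ZMod 2) (x : X) {n : ℕ} (h : len σ (orb σ x) ∣ n) :
    ∑ k ∈ range n, r ((σ ^ k) x) = (n / len σ (orb σ x)) • osum σ r (orb σ x) := by
  obtain ⟨j, rfl⟩ := h
  rw [sum_range_mul, Nat.mul_div_cancel_left _ (len_pos σ _)]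
  rfl

theorem card_orb_eq (σ : Perm X) :
    (Fintype.card (Orb σ) : ℚ) = ∑ x, 1 / (len σ (orb σ x) : ℚ) := by
  rw [sum_X σ (fun q => 1 / (len σ q : ℚ)), ← card_univ, card_eq_sum_ones]
  push_cast
  refine sum_congr rfl fun q _ => ?_
  have : (len σ q : ℚ) ≠ 0 := by exact_mod_cast (len_pos σ q).ne'
  simp [this]

theorem prodCongr_pow (σ : Perm X) (τ : Perm Y) (k : ℕ) (x : X) (y : Y) :
    ((Equiv.prodCongr σ τ : Perm (X × Y)) ^ k) (x, y) = ((σ ^ k) x, (τ ^ k) y) := by
  induction k with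
  | zero => rfl
  | succ k ih => rw [pow_succ', pow_succ', pow_succ', Perm.mul_apply, ih]; rfl

theorem len_prodCongr (σ : Perm X) (τ : Perm Y) (x : X) (y : Y) :
    len (Equiv.prodCongr σ τ : Perm (X × Y)) (orb _ (x, y)) =
      Nat.lcm (len σ (orb σ x)) (len τ (orb τ y)) := by
  have h : ∀ n, len (Equiv.prodCongr σ τ : Perm (X × Y)) (orb _ (x, y)) ∣ n ↔
      Nat.lcm (len σ (orb σ x)) (len τ (orb τ y)) ∣ n := by
    intro n
    rw [← pow_eq_self_iff, prodCongr_pow, Prod.mk.injEq, pow_eq_self_iff, pow_eq_self_iff,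
      Nat.lcm_dvd_iff]
  exact Nat.dvd_antisymm ((h _).2 dvd_rfl) ((h _).1 dvd_rfl)

theorem sum_inv_lcm (σ : Perm X) (τ : Perm Y) :
    ∑ z : X × Y, 1 / (Nat.lcm (len σ (orb σ z.1)) (len τ (orb τ z.2)) : ℚ) =
      gsum (ct σ) (ct τ) := by
  rw [Fintype.sum_prod_type, gsum, ct_map_sum]
  simp only [ct_map_sum]
  push_cast
  rw [sum_X σ (fun q => ∑ y, 1 / (Nat.lcm (len σ q) (len τ (orb τ y)) : ℚ))]
  refine sum_congr rfl fun q _ => ?_
  rw [sum_X τ (fun q' => 1 / (Nat.lcm (len σ q) (len τ q') : ℚ)), smul_sum]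
  refine sum_congr rfl fun q' _ => ?_
  have h1 : (Nat.lcm (len σ q) (len τ q') : ℚ) ≠ 0 := by
    exact_mod_cast (Nat.lcm_pos (len_pos σ q) (len_pos τ q')).ne'
  have h2 : (Nat.gcd (len σ q) (len τ q') : ℚ) * Nat.lcm (len σ q) (len τ q') =
      len σ q * len τ q' := by exact_mod_cast Nat.gcd_mul_lcm _ _
  simp only [nsmul_eq_mul]
  field_simp
  rw [← h2, mul_comm]

theorem card_orb_prod (σ : Perm X) (τ : Perm Y) :
    Fintype.card (Orb (Equiv.prodCongr σ τ : Perm (X × Y))) = gsum (ct σ) (ct τ) := by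
  have := card_orb_eq (Equiv.prodCongr σ τ : Perm (X × Y))
  rw [sum_congr rfl (fun z _ => by rw [len_prodCongr σ τ z.1 z.2]), sum_inv_lcm] at this
  exact_mod_cast this

theorem lcm_div_smul {l m : ℕ} (hl : 0 < l) (hm : 0 < m) (e : ZMod 2) :
    (Nat.lcm l m / l) • e = if padicValNat 2 m ≤ padicValNat 2 l then e else 0 := by
  have h0 : Nat.lcm l m / l ≠ 0 :=
    (Nat.div_pos (Nat.le_of_dvd (Nat.lcm_pos hl hm) (Nat.dvd_lcm_left _ _)) hl).ne'
  have h1 : 2 ∣ Nat.lcm l m / l ↔ ¬ padicValNat 2 m ≤ padicValNat 2 l := by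
    rw [Nat.prime_two.dvd_iff_one_le_factorization h0,
      Nat.factorization_div (Nat.dvd_lcm_left _ _), Nat.factorization_lcm hl.ne' hm.ne',
      ← Nat.factorization_def _ Nat.prime_two, ← Nat.factorization_def _ Nat.prime_two]
    simp only [Finsupp.coe_tsub, Pi.sub_apply, Finsupp.sup_apply]
    omega
  rw [nsmul_eq_mul]
  split_ifs with h
  · rw [(ZMod.natCast_eq_one_iff_odd).2, one_mul]
    rw [← Nat.not_even_iff_odd, even_iff_two_dvd, h1]
    simpa using h
  · rw [(ZMod.natCast_eq_zero_iff _ _).2 (h1.2 h), zero_mul]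

theorem cond_prod (σ : Perm X) (τ : Perm Y) (u : (X → ZMod 2) × (Y → ZMod 2)) :
    Cond (Equiv.prodCongr σ τ : Perm (X × Y)) (psi X Y u) ↔
      ∀ q q', (if padicValNat 2 (len τ q') ≤ padicValNat 2 (len σ q) then osum σ u.1 q else 0) +
        (if padicValNat 2 (len σ q) ≤ padicValNat 2 (len τ q') then osum τ u.2 q' else 0) = 0 := by
  have key : ∀ x y j, ∑ k ∈ range (Nat.lcm (len σ (orb σ x)) (len τ (orb τ y)) * j),
      psi X Y u (((Equiv.prodCongr σ τ : Perm (X × Y)) ^ k) (x, y)) =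
      j • ((if padicValNat 2 (len τ (orb τ y)) ≤ padicValNat 2 (len σ (orb σ x))
        then osum σ u.1 (orb σ x) else 0) +
        (if padicValNat 2 (len σ (orb σ x)) ≤ padicValNat 2 (len τ (orb τ y))
          then osum τ u.2 (orb τ y) else 0)) := by
    intro x y j
    simp only [prodCongr_pow, psi, AddMonoidHom.coe_mk, ZeroHom.coe_mk, sum_add_distrib]
    rw [sum_pow_of_dvd σ _ _ ((Nat.dvd_lcm_left _ _).mul_right _),
      sum_pow_of_dvd τ _ _ ((Nat.dvd_lcm_right _ _).mul_right _),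
      ← lcm_div_smul (len_pos _ _) (len_pos _ _), ← lcm_div_smul (len_pos _ _) (len_pos _ _),
      smul_add, ← mul_smul, ← mul_smul, Nat.lcm_comm (len τ _),
      ← Nat.mul_div_assoc _ (Nat.dvd_lcm_left _ _), ← Nat.mul_div_assoc _ (Nat.dvd_lcm_right _ _),
      mul_comm j]
  constructor
  · intro h q q'
    obtain ⟨x, rfl⟩ := orb_surj σ q
    obtain ⟨y, rfl⟩ := orb_surj τ q'
    have h1 := key x y 1
    rw [h (x, y) _ (by rw [pow_eq_self_iff, len_prodCongr, mul_one]), one_smul] at h1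
    exact h1.symm
  · rintro h ⟨x, y⟩ n hn
    rw [pow_eq_self_iff, len_prodCongr] at hn
    obtain ⟨j, rfl⟩ := hn
    rw [key, h, smul_zero]

theorem cnt_supp {I : Type} [Fintype I] [DecidableEq I] (p : I → Prop) [DecidablePred p] :
    cnt (fun R : I → ZMod 2 => ∀ i, ¬ p i → R i = 0) = 2 ^ #{i | p i} := by
  have h : Nat.card ({i // p i} → ZMod 2) = 2 ^ #{i | p i} := by
    rw [Nat.card_eq_fintype_card, Fintype.card_fun, ZMod.card, Fintype.card_subtype]
  rw [← h]
  refine Nat.card_eq_of_bijective (fun R i => R.1 i.1) ⟨?_, ?_⟩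
  · intro R R' h
    refine Subtype.ext (funext fun i => ?_)
    by_cases hi : p i
    · exact congrFun h ⟨i, hi⟩
    · rw [R.2 i hi, R'.2 i hi]
  · intro R
    exact ⟨⟨fun i => if h : p i then R ⟨i, h⟩ else 0, fun i hi => dif_neg hi⟩,
      funext fun i => dif_pos i.2⟩

theorem cnt_caseA {I J : Type} [Fintype I] [DecidableEq I] [Fintype J] [DecidableEq J]
    (v : I → ℕ) (w : J → ℕ) (i0 : I) (h0 : ∀ j, v i0 < w j) :
    cnt (fun u : (I → ZMod 2) × (J → ZMod 2) => ∀ i j,
      (if w j ≤ v i then u.1 i else 0) + (if v i ≤ w j then u.2 j else 0) = 0) =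
      2 ^ max 1 (#{i | ∀ j, v i < w j} + #{j | ∀ i, w j < v i}) := by
  have h1 : #{j | ∀ i, w j < v i} = 0 := by
    rw [card_eq_zero, filter_eq_empty_iff]
    exact fun j _ h => lt_asymm (h i0) (h0 j)
  have h2 : 0 < #{i | ∀ j, v i < w j} := card_pos.2 ⟨i0, by simpa using h0⟩
  rw [h1, add_zero, max_eq_right h2, ← cnt_supp, ← one_mul (cnt fun R : I → ZMod 2 => _)]
  refine cnt_prod (fun (R : I → ZMod 2) (C : J → ZMod 2) => ∀ i j,
      (if w j ≤ v i then R i else 0) + (if v i ≤ w j then C j else 0) = 0) 1 _ ?_ ?_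
  · intro R hR
    rw [cnt_congr (q := fun C => C = 0)]
    · simp [cnt]
    · intro C
      constructor
      · intro h
        funext j
        simpa [(h0 j).le, (h0 j).not_ge] using h i0 j
      · rintro rfl i j
        by_cases hij : w j ≤ v i
        · simp [hR i fun h => (h j).not_ge hij]
        · simp [hij]
  · intro R C h i hi
    push Not at hi
    obtain ⟨j, hj⟩ := hi
    have h3 : C j = 0 := by simpa [(h0 j).le, (h0 j).not_ge] using h i0 j
    simpa [hj, h3] using h i j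

theorem cnt_delta {I J : Type} [Fintype I] [DecidableEq I] [Fintype J] [DecidableEq J]
    [Nonempty I] [Nonempty J] (v : I → ℕ) (w : J → ℕ) :
    cnt (fun u : (I → ZMod 2) × (J → ZMod 2) => ∀ i j,
      (if w j ≤ v i then u.1 i else 0) + (if v i ≤ w j then u.2 j else 0) = 0) =
      2 ^ max 1 (#{i | ∀ j, v i < w j} + #{j | ∀ i, w j < v i}) := by
  obtain ⟨i0, -, hi0⟩ := exists_min_image univ v univ_nonempty
  obtain ⟨j0, -, hj0⟩ := exists_min_image univ w univ_nonempty
  simp only [mem_univ, forall_true_left] at hi0 hj0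
  rcases lt_trichotomy (v i0) (w j0) with h | h | h
  · exact cnt_caseA v w i0 fun j => h.trans_le (hj0 j)
  · have h1 : #{j | ∀ i, w j < v i} = 0 := by
      rw [card_eq_zero, filter_eq_empty_iff]
      exact fun j _ h' => (h' i0).not_ge (h ▸ hj0 j)
    have h2 : #{i | ∀ j, v i < w j} = 0 := by
      rw [card_eq_zero, filter_eq_empty_iff]
      exact fun i _ h' => (h' j0).not_ge (h ▸ hi0 i)
    rw [h1, h2]
    have h3 : Nat.card (ZMod 2) = 2 ^ max 1 (0 + 0) := by simp
    rw [← h3]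
    refine Nat.card_eq_of_bijective (fun u => u.1.1 i0) ⟨?_, ?_⟩
    · intro u u' huu
      have hC : ∀ j, u.1.2 j = u'.1.2 j := by
        intro j
        have a := u.2 i0 j
        have b := u'.2 i0 j
        rw [if_pos (h ▸ hj0 j : v i0 ≤ w j)] at a b
        simp only at huu
        rw [huu] at a
        exact add_left_cancel (a.trans b.symm)
      refine Subtype.ext (Prod.ext (funext fun i => ?_) (funext hC))
      have a := u.2 i j0
      have b := u'.2 i j0
      rw [if_pos (h ▸ hi0 i : w j0 ≤ v i)] at a b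
      rw [hC] at a
      exact add_right_cancel (a.trans b.symm)
    · intro e
      refine ⟨⟨(fun i => if v i = v i0 then e else 0, fun j => if w j = v i0 then e else 0), ?_⟩,
        by simp⟩
      intro i j
      have a := hi0 i
      have b := hj0 j
      simp only
      split_ifs <;> first | omega | exact CharTwo.add_self_eq_zero e | simp
  · rw [cnt_swap (fun (R : I → ZMod 2) (C : J → ZMod 2) => ∀ i j,
      (if w j ≤ v i then R i else 0) + (if v i ≤ w j then C j else 0) = 0), add_comm,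
      ← cnt_caseA w v j0 fun i => h.trans_le (hi0 i)]
    refine cnt_congr fun u => ?_
    rw [forall_comm]
    simp only [add_comm]

theorem low_ct (σ : Perm X) (τ : Perm Y) : low (ct σ) (ct τ) =
    #{q | ∀ q', padicValNat 2 (len σ q) < padicValNat 2 (len τ q')} := by
  rw [low, ct_countP]
  congr 1
  refine filter_congr fun q _ => ?_
  simp [mem_ct]

theorem fix_prod [Nonempty X] [Nonempty Y] (σ : Perm X) (τ : Perm Y) :
    cnt (fun s : Sw X Y => smap σ τ s = s) * (2 ^ (ct σ).card * 2 ^ (ct τ).card) =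
      2 ^ (gsum (ct σ) (ct τ) + max 1 (low (ct σ) (ct τ) + low (ct τ) (ct σ))) := by
  have : Nonempty (Orb σ) := Nonempty.map (orb σ) inferInstance
  have : Nonempty (Orb τ) := Nonempty.map (orb τ) inferInstance
  have h1 := card_fix (Equiv.prodCongr σ τ : Perm (X × Y))
    (fun r c => ⟨r ∘ σ, c ∘ τ, fun _ _ => rfl⟩)
  have h2 := cnt_pre_surj ((osum σ).prodMap (osum τ)) ((osum_surj σ).prodMap (osum_surj τ))
    (fun u => ∀ q q',
      (if padicValNat 2 (len τ q') ≤ padicValNat 2 (len σ q) then u.1 q else 0) +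
        (if padicValNat 2 (len σ q) ≤ padicValNat 2 (len τ q') then u.2 q' else 0) = 0)
  rw [cnt_delta (fun q => padicValNat 2 (len σ q)) (fun q => padicValNat 2 (len τ q)),
    ← low_ct, ← low_ct] at h2
  rw [card_orb_prod, cnt_congr (cond_prod σ τ)] at h1
  have h3 : Fintype.card ((Orb σ → ZMod 2) × (Orb τ → ZMod 2)) =
      2 ^ (ct σ).card * 2 ^ (ct τ).card := by
    simp [ct_card]
  rw [h3] at h2
  have h4 : 0 < Fintype.card ((X → ZMod 2) × (Y → ZMod 2)) := Fintype.card_pos
  apply Nat.eq_of_mul_eq_mul_left h4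
  rw [pow_add]
  change cnt (fun s : Sw X Y => smap σ τ s = s) * _ = _ at h1
  change cnt (fun u : (X → ZMod 2) × (Y → ZMod 2) => ∀ q q',
    (if padicValNat 2 (len τ q') ≤ padicValNat 2 (len σ q) then osum σ u.1 q else 0) +
      (if padicValNat 2 (len σ q) ≤ padicValNat 2 (len τ q') then osum τ u.2 q' else 0) = 0) * _
      = _ at h2
  rw [← mul_assoc, mul_comm (Fintype.card _), h1, mul_assoc, h2]
  ring

end

end Pool.Agent.Lib.MP_7d9ca0_co
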