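import Pool.Agent.Lib.MP_7d9ca0_co.Fix2

namespace Pool.Agent.Lib.MP_7d9ca0_co

open Equiv Finset Function

set_option linter.unusedSectionVars false

noncomputable section

variable {X : Type} [Fintype X] [DecidableEq X]

def swp (σ : Perm X) : Perm (X × X) := (Equiv.prodComm X X).trans (Equiv.prodCongr (Equiv.refl X) σ)

theorem swp_apply (σ : Perm X) (x y : X) : swp σ (x, y) = (y, σ x) := rfl

theorem swp_even (σ : Perm X) (j : ℕ) (x y : X) :
    (swp σ ^ (2 * j)) (x, y) = ((σ ^ j) x, (σ ^ j) y) := by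
  induction j with
  | zero => rfl
  | succ j ih =>
    rw [Nat.mul_succ, pow_succ', pow_succ', Perm.mul_apply, Perm.mul_apply, ih, pow_succ']
    rfl

theorem swp_odd (σ : Perm X) (j : ℕ) (x y : X) :
    (swp σ ^ (2 * j + 1)) (x, y) = ((σ ^ j) y, (σ ^ (j + 1)) x) := by
  rw [pow_succ', Perm.mul_apply, swp_even, pow_succ']
  rfl

theorem swp_odd_fix (σ : Perm X) (j : ℕ) (x y : X) :
    (swp σ ^ (2 * j + 1)) (x, y) = (x, y) ↔ (σ ^ (2 * j + 1)) x = x ∧ y = (σ ^ (j + 1)) x := by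
  rw [swp_odd, Prod.mk.injEq, show 2 * j + 1 = j + (j + 1) by ring, pow_add σ j (j + 1),
    Perm.mul_apply]
  constructor
  · rintro ⟨h1, h2⟩
    exact ⟨by rw [h2, h1], h2.symm⟩
  · rintro ⟨h1, h2⟩
    exact ⟨by rw [h2, h1], h2.symm⟩

theorem odd_len_swp (σ : Perm X) (x y : X) :
    Odd (len (swp σ) (orb _ (x, y))) ↔
      Odd (len σ (orb σ x)) ∧ y = (σ ^ (len σ (orb σ x) / 2 + 1)) x := by
  constructor
  · rintro ⟨j, hj⟩
    obtain ⟨h1, h2⟩ := (swp_odd_fix σ j x y).1 ((pow_eq_self_iff _ _ _).2 (hj ▸ dvd_rfl))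
    rw [pow_eq_self_iff] at h1
    have h3 : Odd (len σ (orb σ x)) := Odd.of_dvd_nat (odd_two_mul_add_one j) h1
    refine ⟨h3, ?_⟩
    obtain ⟨i, hi⟩ := h3
    obtain ⟨m, hm⟩ := h1
    have hm' : Odd m := Odd.of_dvd_nat (odd_two_mul_add_one j) ⟨_, by rw [hm, mul_comm]⟩
    obtain ⟨t, rfl⟩ := hm'
    have h4 : j + 1 = (len σ (orb σ x) / 2 + 1) + len σ (orb σ x) * t := by
      rw [hi] at hm ⊢
      rw [show (2 * i + 1) / 2 = i by omega]
      nlinarith
    rw [h2, h4, pow_add, Perm.mul_apply, (pow_eq_self_iff σ x _).2 (dvd_mul_right _ _)]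
  · rintro ⟨⟨i, hi⟩, h2⟩
    rw [hi, show (2 * i + 1) / 2 = i by omega] at h2
    have := (swp_odd_fix σ i x y).2 ⟨(pow_eq_self_iff _ _ _).2 (hi ▸ dvd_rfl), h2⟩
    exact Odd.of_dvd_nat (odd_two_mul_add_one i) ((pow_eq_self_iff _ _ _).1 this)

theorem len_swp (σ : Perm X) (x y : X) :
    2 / (len (swp σ) (orb _ (x, y)) : ℚ) =
      1 / (Nat.lcm (len σ (orb σ x)) (len σ (orb σ y)) : ℚ) +
        if Odd (len σ (orb σ x)) ∧ y = (σ ^ (len σ (orb σ x) / 2 + 1)) x then
          1 / (len σ (orb σ x) : ℚ) else 0 := by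
  have h : ∀ j, len (swp σ) (orb _ (x, y)) ∣ 2 * j ↔
      Nat.lcm (len σ (orb σ x)) (len σ (orb σ y)) ∣ j := by
    intro j
    rw [← pow_eq_self_iff, swp_even, Prod.mk.injEq, pow_eq_self_iff, pow_eq_self_iff,
      Nat.lcm_dvd_iff]
  have hp := len_pos (swp σ) (orb _ (x, y))
  split_ifs with h1
  · have h2 := (odd_len_swp σ x y).2 h1
    have h3 : len (swp σ) (orb _ (x, y)) = Nat.lcm (len σ (orb σ x)) (len σ (orb σ y)) :=
      Nat.dvd_antisymm ((Nat.coprime_two_right.2 h2).dvd_of_dvd_mul_left ((h _).2 dvd_rfl))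
        ((h _).1 (dvd_mul_left _ _))
    have h4 : orb σ y = orb σ x := by rw [h1.2, orb_pow]
    rw [h3, h4, Nat.lcm_self]
    ring
  · rw [← odd_len_swp, Nat.not_odd_iff_even] at h1
    obtain ⟨i, hi⟩ := h1
    rw [← two_mul] at hi
    have h3 : i = Nat.lcm (len σ (orb σ x)) (len σ (orb σ y)) :=
      Nat.dvd_antisymm (Nat.dvd_of_mul_dvd_mul_left two_pos (hi ▸ (h _).2 dvd_rfl))
        ((h _).1 (hi ▸ dvd_rfl))
    rw [← h3, hi]
    have : (i : ℚ) ≠ 0 := by exact_mod_cast (by omega : i ≠ 0)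
    push_cast
    field_simp
    simp

theorem card_orb_swp (σ : Perm X) :
    2 * Fintype.card (Orb (swp σ)) = gsum (ct σ) (ct σ) + (ct σ).countP Odd := by
  have h1 := card_orb_eq (swp σ)
  have h2 : (2 * Fintype.card (Orb (swp σ)) : ℚ) = gsum (ct σ) (ct σ) + (ct σ).countP Odd := by
    rw [h1, mul_sum, sum_congr rfl (fun z _ => by rw [mul_one_div, len_swp σ z.1 z.2]),
      sum_add_distrib, sum_inv_lcm, Fintype.sum_prod_type, ct_countP, card_filter]
    congr 1
    simp only [ite_and, sum_ite_irrel, sum_ite_eq', mem_univ, if_true, sum_const_zero]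
    rw [sum_X σ (fun q => if Odd (len σ q) then 1 / (len σ q : ℚ) else 0)]
    push_cast
    refine sum_congr rfl fun q _ => ?_
    have : (len σ q : ℚ) ≠ 0 := by exact_mod_cast (len_pos σ q).ne'
    split_ifs <;> simp [this]
  exact_mod_cast h2

theorem sum_swp_even (σ : Perm X) (u : (X → ZMod 2) × (X → ZMod 2)) (x y : X) (j : ℕ) :
    ∑ k ∈ range (2 * j), psi X X u ((swp σ ^ k) (x, y)) + u.2 x =
      ∑ i ∈ range j, (u.1 + u.2) ((σ ^ i) x) + ∑ i ∈ range j, (u.1 + u.2) ((σ ^ i) y) +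
        u.2 ((σ ^ j) x) := by
  induction j with
  | zero => simp
  | succ j ih =>
    rw [Nat.mul_succ, sum_range_succ, sum_range_succ, sum_range_succ, sum_range_succ, swp_even,
      swp_odd]
    simp only [psi, AddMonoidHom.coe_mk, ZeroHom.coe_mk, Pi.add_apply] at ih ⊢
    linear_combination ih

theorem cond_swp (σ : Perm X) (u : (X → ZMod 2) × (X → ZMod 2)) :
    Cond (swp σ) (psi X X u) ↔
      (∀ q q', (if padicValNat 2 (len σ q') ≤ padicValNat 2 (len σ q)
          then osum σ (u.1 + u.2) q else 0) +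
        (if padicValNat 2 (len σ q) ≤ padicValNat 2 (len σ q')
          then osum σ (u.1 + u.2) q' else 0) = 0) ∧
      ∀ q, Odd (len σ q) → osum σ (u.1 + u.2) q = 0 := by
  have key : ∀ x y j, ∑ k ∈ range (2 * (Nat.lcm (len σ (orb σ x)) (len σ (orb σ y)) * j)),
      psi X X u ((swp σ ^ k) (x, y)) =
      j • ((if padicValNat 2 (len σ (orb σ y)) ≤ padicValNat 2 (len σ (orb σ x))
        then osum σ (u.1 + u.2) (orb σ x) else 0) +
        (if padicValNat 2 (len σ (orb σ x)) ≤ padicValNat 2 (len σ (orb σ y))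
          then osum σ (u.1 + u.2) (orb σ y) else 0)) := by
    intro x y j
    have h1 := sum_swp_even σ u x y (Nat.lcm (len σ (orb σ x)) (len σ (orb σ y)) * j)
    rw [(pow_eq_self_iff σ x _).2 ((Nat.dvd_lcm_left _ _).mul_right _)] at h1
    rw [add_right_cancel h1, sum_pow_of_dvd σ _ _ ((Nat.dvd_lcm_left _ _).mul_right _),
      sum_pow_of_dvd σ _ _ ((Nat.dvd_lcm_right _ _).mul_right _),
      ← lcm_div_smul (len_pos _ _) (len_pos _ _), ← lcm_div_smul (len_pos _ _) (len_pos _ _),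
      smul_add, ← mul_smul, ← mul_smul, Nat.lcm_comm (len σ (orb σ y)),
      ← Nat.mul_div_assoc _ (Nat.dvd_lcm_left _ _), ← Nat.mul_div_assoc _ (Nat.dvd_lcm_right _ _),
      mul_comm j]
  have key2 : ∀ x j, (σ ^ (2 * j + 1)) x = x →
      ∑ k ∈ range (2 * j + 1), psi X X u ((swp σ ^ k) (x, (σ ^ (j + 1)) x)) =
        ((2 * j + 1) / len σ (orb σ x)) • osum σ (u.1 + u.2) (orb σ x) := by
    intro x j hx
    rw [← sum_pow_of_dvd σ _ _ ((pow_eq_self_iff _ _ _).1 hx), sum_range_succ, swp_even]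
    have h1 := sum_swp_even σ u x ((σ ^ (j + 1)) x) j
    have h2 : (σ ^ j) ((σ ^ (j + 1)) x) = x := by
      rw [← Perm.mul_apply, ← pow_add, show j + (j + 1) = 2 * j + 1 by ring, hx]
    rw [h2, show 2 * j + 1 = (j + 1) + j by ring, sum_range_add, sum_range_succ]
    simp only [add_comm (j + 1), pow_add _ _ (j + 1), Perm.mul_apply]
    simp only [psi, AddMonoidHom.coe_mk, ZeroHom.coe_mk, Pi.add_apply] at h1 ⊢
    linear_combination h1
  constructor
  · intro h
    constructor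
    · intro q q'
      obtain ⟨x, rfl⟩ := orb_surj σ q
      obtain ⟨y, rfl⟩ := orb_surj σ q'
      have h1 := key x y 1
      rw [h (x, y) _ (by
        rw [swp_even, (pow_eq_self_iff σ x _).2 ((Nat.dvd_lcm_left _ _).mul_right _),
          (pow_eq_self_iff σ y _).2 ((Nat.dvd_lcm_right _ _).mul_right _)]), one_smul] at h1
      exact h1.symm
    · rintro q ⟨j, hj⟩
      obtain ⟨x, rfl⟩ := orb_surj σ q
      have hx : (σ ^ (2 * j + 1)) x = x := (pow_eq_self_iff _ _ _).2 (hj ▸ dvd_rfl)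
      have h1 := key2 x j hx
      rw [h _ _ ((swp_odd_fix σ j x _).2 ⟨hx, rfl⟩), ← hj, Nat.div_self (len_pos _ _),
        one_smul] at h1
      exact h1.symm
  · rintro ⟨h, h'⟩ ⟨x, y⟩ n hn
    rcases Nat.even_or_odd' n with ⟨j, rfl | rfl⟩
    · rw [swp_even, Prod.mk.injEq, pow_eq_self_iff, pow_eq_self_iff, ← Nat.lcm_dvd_iff] at hn
      obtain ⟨j, rfl⟩ := hn
      rw [key, h, smul_zero]
    · obtain ⟨hx, rfl⟩ := (swp_odd_fix σ j x y).1 hn
      rw [key2 x j hx, h' _ (Odd.of_dvd_nat (odd_two_mul_add_one j) ((pow_eq_self_iff _ _ _).1 hx)),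
        smul_zero]

theorem cnt_eps {I : Type} [Fintype I] [DecidableEq I] [Nonempty I] (l : I → ℕ) :
    cnt (fun U : I → ZMod 2 => (∀ i j,
      (if padicValNat 2 (l j) ≤ padicValNat 2 (l i) then U i else 0) +
        (if padicValNat 2 (l i) ≤ padicValNat 2 (l j) then U j else 0) = 0) ∧
      ∀ i, Odd (l i) → U i = 0) = 2 ^ (if #{i | Odd (l i)} = 0 then 1 else 0) := by
  split_ifs with h
  · rw [card_eq_zero, filter_eq_empty_iff] at h
    obtain ⟨i0, -, hi0⟩ := exists_min_image univ (fun i => padicValNat 2 (l i)) univ_nonempty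
    simp only [mem_univ, forall_true_left] at hi0 h
    have h3 : Nat.card (ZMod 2) = 2 ^ 1 := by simp
    rw [← h3]
    refine Nat.card_eq_of_bijective (fun u => u.1 i0) ⟨?_, ?_⟩
    · intro u u' huu
      refine Subtype.ext (funext fun i => ?_)
      have a := u.2.1 i i0
      have b := u'.2.1 i i0
      rw [if_pos (hi0 i)] at a b
      simp only at huu
      rw [huu] at a
      exact add_right_cancel (a.trans b.symm)
    · intro e
      refine ⟨⟨fun i => if padicValNat 2 (l i) = padicValNat 2 (l i0) then e else 0, ?_,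
        fun i hi => (h hi).elim⟩, by simp⟩
      intro i j
      have a := hi0 i
      have b := hi0 j
      simp only
      split_ifs <;> first | omega | exact CharTwo.add_self_eq_zero e | simp
  · obtain ⟨i0, hi0⟩ := card_pos.1 (Nat.pos_of_ne_zero h)
    have hi0 := (mem_filter.1 hi0).2
    have h0 : padicValNat 2 (l i0) = 0 := padicValNat.eq_zero_of_not_dvd hi0.not_two_dvd_nat
    rw [cnt_congr (q := fun U => U = 0)]
    · simp [cnt]
    · intro U
      constructor
      · rintro ⟨h1, h2⟩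
        funext i
        simpa [h0, h2 i0 hi0] using h1 i i0
      · rintro rfl
        simp

theorem fix_swp [Nonempty X] (σ : Perm X) :
    cnt (fun s : Sw X X => tmap id σ s = s) * 2 ^ (ct σ).card =
      2 ^ ((gsum (ct σ) (ct σ) + (ct σ).countP Odd) / 2 +
        if (ct σ).countP Odd = 0 then 1 else 0) := by
  have : Nonempty (Orb σ) := Nonempty.map (orb σ) inferInstance
  have h1 := card_fix (swp σ) (fun r c => ⟨c ∘ σ, r, fun _ _ => add_comm _ _⟩)
  have h2 := cnt_pre_surj ((osum σ).comp (AddMonoidHom.coprod (AddMonoidHom.id _) (AddMonoidHom.id _)))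
    ((osum_surj σ).comp fun r => ⟨(r, 0), by simp⟩)
    (fun U => (∀ i j,
      (if padicValNat 2 (len σ j) ≤ padicValNat 2 (len σ i) then U i else 0) +
        (if padicValNat 2 (len σ i) ≤ padicValNat 2 (len σ j) then U j else 0) = 0) ∧
      ∀ i, Odd (len σ i) → U i = 0)
  rw [cnt_eps (len σ), ← ct_countP] at h2
  rw [cnt_congr (cond_swp σ)] at h1
  have h3 : Fintype.card (Orb σ → ZMod 2) = 2 ^ (ct σ).card := by
    simp [ct_card]
  rw [h3] at h2
  have h4 : 0 < Fintype.card ((X → ZMod 2) × (X → ZMod 2)) := Fintype.card_pos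
  apply Nat.eq_of_mul_eq_mul_left h4
  rw [pow_add, ← card_orb_swp, Nat.mul_div_cancel_left _ two_pos]
  change cnt (fun s : Sw X X => tmap id σ s = s) * _ = _ at h1
  change cnt (fun u : (X → ZMod 2) × (X → ZMod 2) =>
    (∀ q q', (if padicValNat 2 (len σ q') ≤ padicValNat 2 (len σ q)
          then osum σ (u.1 + u.2) q else 0) +
        (if padicValNat 2 (len σ q) ≤ padicValNat 2 (len σ q')
          then osum σ (u.1 + u.2) q' else 0) = 0) ∧
      ∀ q, Odd (len σ q) → osum σ (u.1 + u.2) q = 0) * _ = _ at h2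
  rw [← mul_assoc, mul_comm (Fintype.card _), h1, mul_assoc, h2]
  ring

end

end Pool.Agent.Lib.MP_7d9ca0_co
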