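import Pool.Agent.Lib.MP_7d9ca0_co.Avg

namespace Pool.Agent.Lib.MP_7d9ca0_co

open Equiv Finset Function Nat

set_option linter.unusedSectionVars false

noncomputable section

def V (d : ℕ) (F : (a b : ℕ) → Perm (Fin a ⊕ Fin b) → ℚ) : ℚ :=
  ∑ k ∈ range (d / 2 + 1), ∑ σ : Perm (Fin (d - 2 * k)), ∑ τ : Perm (Fin k),
    (-1) ^ (ct τ).card * F _ _ (Perm.sumCongr σ τ) / ((d - 2 * k)! * k !)

def avg0 (d : ℕ) (F : Multiset ℕ → ℚ) : ℚ :=
  ∑ k ∈ range (d / 2 + 1), ∑ a : (d - 2 * k).Partition, ∑ b : k.Partition,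
    (-1) ^ b.parts.card * F (a.parts + b.parts) / (zee a.parts * zee b.parts)

theorem avg0_eq (d : ℕ) (F : Multiset ℕ → ℚ) : avg0 d (fun l => F l / 2 ^ l.card) = avg d F := by
  unfold avg0 avg
  refine sum_congr rfl fun k _ => sum_congr rfl fun a _ => sum_congr rfl fun b _ => ?_
  simp only [Multiset.card_add]
  field_simp

theorem V_ct (d : ℕ) (F : Multiset ℕ → ℚ) : V d (fun _ _ π => F (ct π)) = avg0 d F := by
  unfold V avg0
  refine sum_congr rfl fun k _ => ?_
  simp only [ct_sumCongr]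
  have h1 : ∀ σ : Perm (Fin (d - 2 * k)), ∑ τ : Perm (Fin k),
      (-1) ^ (ct τ).card * F (ct σ + ct τ) / ((d - 2 * k)! * k !) =
      ∑ b : k.Partition, (-1) ^ b.parts.card * F (ct σ + b.parts) / ((d - 2 * k)! * zee b.parts) := by
    intro σ
    rw [sum_perm k (fun m => (-1) ^ m.card * F (ct σ + m) / ((d - 2 * k)! * k !)), mul_sum]
    refine sum_congr rfl fun b _ => ?_
    have : (k ! : ℚ) ≠ 0 := by exact_mod_cast factorial_ne_zero k
    field_simp
  simp only [h1]
  rw [sum_perm (d - 2 * k) (fun l => ∑ b : k.Partition,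
    (-1) ^ b.parts.card * F (l + b.parts) / ((d - 2 * k)! * zee b.parts)), mul_sum]
  refine sum_congr rfl fun a _ => ?_
  rw [sum_div, mul_sum]
  refine sum_congr rfl fun b _ => ?_
  have : ((d - 2 * k)! : ℚ) ≠ 0 := by exact_mod_cast factorial_ne_zero _
  field_simp

theorem V_congr (d : ℕ) {F G : (a b : ℕ) → Perm (Fin a ⊕ Fin b) → ℚ}
    (h : ∀ a b π, a + 2 * b = d → F a b π = G a b π) : V d F = V d G := by
  unfold V
  refine sum_congr rfl fun k hk => sum_congr rfl fun σ _ => sum_congr rfl fun τ _ => ?_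
  rw [h]
  have := mem_range.1 hk
  omega

theorem V_sum {ι : Type} (d : ℕ) (s : Finset ι) (F : ι → (a b : ℕ) → Perm (Fin a ⊕ Fin b) → ℚ) :
    V d (fun a b π => ∑ i ∈ s, F i a b π) = ∑ i ∈ s, V d (F i) := by
  unfold V
  simp only [mul_sum, sum_div]
  rw [sum_comm (s := s)]
  refine sum_congr rfl fun k _ => ?_
  rw [sum_comm (s := s)]
  refine sum_congr rfl fun σ _ => ?_
  rw [sum_comm (s := s)]

theorem V_mul (d : ℕ) (c : ℚ) (F : (a b : ℕ) → Perm (Fin a ⊕ Fin b) → ℚ) :
    V d (fun a b π => F a b π * c) = V d F * c := by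
  unfold V
  simp only [sum_mul]
  refine sum_congr rfl fun k hk => sum_congr rfl fun σ _ => sum_congr rfl fun τ _ => ?_
  ring

theorem avg0_prod (d : ℕ) (p : ℕ → ℚ) : avg0 d (fun l => (l.map p).prod) =
    ∑ b ∈ range (d / 2 + 1), Z p (d - 2 * b) * Z (fun l => -p l) b := by
  unfold avg0 Z
  refine sum_congr rfl fun k _ => ?_
  rw [sum_mul_sum]
  refine sum_congr rfl fun a _ => sum_congr rfl fun b _ => ?_
  have : (b.parts.map fun l => -p l).prod = (-1) ^ b.parts.card * (b.parts.map p).prod := by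
    rw [← Multiset.card_map p, ← Multiset.prod_map_neg, Multiset.map_map]
    rfl
  simp only [this, Multiset.map_add, Multiset.prod_add]
  field_simp

variable {S : Type} [Fintype S] [DecidableEq S]

def sjU {X : Type} [Fintype X] [DecidableEq X] (π : Perm X) (h : Perm S) (U : Finset (Orb h)) : ℕ :=
  #{f : X → S | (∀ x, f (π x) = h (f x)) ∧ univ.image (fun x => orb h (f x)) = U}

def sj {X : Type} [Fintype X] [DecidableEq X] (π : Perm X) (h : Perm S) : ℕ :=
  #{f : X → S | (∀ x, f (π x) = h (f x)) ∧ Surjective f}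

theorem sum_sjU {X : Type} [Fintype X] [DecidableEq X] (π : Perm X) (h : Perm S)
    (U : Finset (Orb h)) :
    ∑ T ∈ U.powerset, (sjU π h T : ℚ) =
      ((ct π).map fun l => ∑ c ∈ U, if len h c ∣ l then (len h c : ℚ) else 0).prod := by
  have h1 := card_hom π h (fun s => orb h s ∈ U) (by simp)
  rw [card_eq_sum_card_fiberwise (f := fun f => univ.image (fun x => orb h (f x)))
    (t := U.powerset)] at h1
  · rw [ct_map_prod]
    have h2 : ∀ l, (#{s | orb h s ∈ U ∧ (h ^ l) s = s} : ℚ) =
        ∑ c ∈ U, if len h c ∣ l then (len h c : ℚ) else 0 := by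
      intro l
      simp only [pow_eq_self_iff]
      rw [card_filter]
      push_cast
      rw [sum_X h (fun q => if q ∈ U ∧ len h q ∣ l then (1 : ℚ) else 0)]
      simp [ite_and, sum_ite_mem]
    simp only [← h2]
    rw [← Nat.cast_prod, ← h1]
    push_cast
    refine sum_congr rfl fun T hT => ?_
    rw [sjU, filter_filter]
    congr 2
    refine filter_congr fun f _ => ?_
    refine ⟨fun hf => ⟨⟨hf.1, fun x => mem_powerset.1 hT ?_⟩, hf.2⟩, fun hf => ⟨hf.1.1, hf.2⟩⟩
    rw [← hf.2]
    exact mem_image_of_mem _ (mem_univ x)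
  · intro f hf
    simp only [coe_filter, mem_univ, true_and, Set.mem_ofPred_eq] at hf
    simp only [coe_powerset, Set.mem_preimage, Set.mem_powerset_iff, coe_subset]
    intro q hq
    obtain ⟨x, -, rfl⟩ := mem_image.1 hq
    exact hf.2 x

theorem V_sjU (d : ℕ) (h : Perm S) (U : Finset (Orb h)) :
    V d (fun _ _ π => sjU π h U) = if ∑ c ∈ U, len h c = d then 1 else 0 := by
  induction U using Finset.strongInduction with
  | H U ih =>
    have h1 := V_sum d U.powerset (fun T _ _ π => (sjU π h T : ℚ))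
    simp only [sum_sjU] at h1
    rw [V_ct d (fun l => (l.map fun l => ∑ c ∈ U, if len h c ∣ l then (len h c : ℚ) else 0).prod),
      avg0_prod, key_Z U (len h) (len_pos h) d, ← add_sum_erase _ _ (mem_powerset_self U),
      ← add_sum_erase _ _ (mem_powerset_self U)] at h1
    rw [sum_congr rfl (s₁ := U.powerset.erase U) (f := fun T => V d fun _ _ π => (sjU π h T : ℚ))
      (g := fun T => if ∑ c ∈ T, len h c = d then 1 else 0)] at h1
    · exact (add_right_cancel h1).symm
    · intro T hT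
      exact ih T (Finset.ssubset_iff_subset_ne.2
        ⟨mem_powerset.1 (mem_of_mem_erase hT), ne_of_mem_erase hT⟩)

theorem sj_eq {X : Type} [Fintype X] [DecidableEq X] (π : Perm X) (h : Perm S) :
    sj π h = sjU π h univ := by
  unfold sj sjU
  congr 1
  refine filter_congr fun f _ => and_congr_right fun hf => ?_
  have hfk : ∀ k : ℕ, ∀ x, f ((π ^ k) x) = (h ^ k) (f x) := by
    intro k
    induction k with
    | zero => simp
    | succ k ih => intro x; rw [_root_.pow_succ', _root_.pow_succ', Perm.mul_apply, Perm.mul_apply, hf, ih]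
  constructor
  · intro hs
    exact image_univ_of_surjective ((orb_surj h).comp hs)
  · intro hs s
    have : orb h s ∈ univ.image (fun x => orb h (f x)) := hs ▸ mem_univ _
    obtain ⟨x, -, hx⟩ := mem_image.1 this
    obtain ⟨k, hk⟩ := exists_pow h hx
    exact ⟨(π ^ k) x, by rw [hfk, hk]⟩

theorem V_sj (d : ℕ) (h : Perm S) :
    V d (fun _ _ π => sj π h) = if Fintype.card S = d then 1 else 0 := by
  simp only [sj_eq, V_sjU, sum_len]

end

end Pool.Agent.Lib.MP_7d9ca0_co
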