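import Pool.Agent.Lib.MP_7d9ca0_co.Twin

namespace Pool.Agent.Lib.MP_7d9ca0_co

open Equiv Finset Function

set_option linter.unusedSectionVars false

noncomputable section

abbrev Mat (X Y : Type) : Type := X × Y → ZMod 2

def psi (X Y : Type) : ((X → ZMod 2) × (Y → ZMod 2)) →+ Mat X Y where
  toFun u := fun z => u.1 z.1 + u.2 z.2
  map_zero' := by funext z; simp
  map_add' u v := by funext z; simp; ring

def Sw (X Y : Type) : Type := Mat X Y ⧸ (psi X Y).range

variable {X Y X' Y' X'' Y'' : Type}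

def mkS (M : Mat X Y) : Sw X Y := QuotientAddGroup.mk M

theorem mkS_surj : Surjective (mkS : Mat X Y → Sw X Y) := QuotientAddGroup.mk_surjective

instance [Finite X] [Finite Y] : Finite (Sw X Y) := Finite.of_surjective _ mkS_surj

theorem mkS_eq_iff (M M' : Mat X Y) : mkS M = mkS M' ↔
    ∃ (r : X → ZMod 2) (c : Y → ZMod 2), ∀ x y, M' (x, y) = M (x, y) + r x + c y := by
  refine QuotientAddGroup.eq.trans ?_
  rw [AddMonoidHom.mem_range]
  constructor
  · rintro ⟨⟨r, c⟩, h⟩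
    refine ⟨r, c, fun x y => ?_⟩
    have := congrFun h (x, y)
    simp only [psi, AddMonoidHom.coe_mk, ZeroHom.coe_mk, Pi.add_apply, Pi.neg_apply] at this
    linear_combination -this
  · rintro ⟨r, c, h⟩
    refine ⟨(r, c), funext fun z => ?_⟩
    simp only [psi, AddMonoidHom.coe_mk, ZeroHom.coe_mk, Pi.add_apply, Pi.neg_apply]
    linear_combination -h z.1 z.2

def Good (π : X' × Y' → X × Y) : Prop :=
  ∀ (r : X → ZMod 2) (c : Y → ZMod 2), ∃ (r' : X' → ZMod 2) (c' : Y' → ZMod 2),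
    ∀ x y, r (π (x, y)).1 + c (π (x, y)).2 = r' x + c' y

def pull (π : X' × Y' → X × Y) (h : Good π) : Sw X Y → Sw X' Y' :=
  Quotient.lift (fun M : Mat X Y => mkS (M ∘ π)) (by
    intro M M' hM
    obtain ⟨r, c, h1⟩ := (mkS_eq_iff M M').1 (Quotient.sound hM)
    obtain ⟨r', c', h2⟩ := h r c
    refine (mkS_eq_iff _ _).2 ⟨r', c', fun x y => ?_⟩
    simp only [Function.comp]
    rw [add_assoc, ← h2, ← add_assoc, ← h1])

theorem pull_mk (π : X' × Y' → X × Y) (h : Good π) (M : Mat X Y) :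
    pull π h (mkS M) = mkS (M ∘ π) := rfl

def smap (f : X' → X) (g : Y' → Y) : Sw X Y → Sw X' Y' :=
  pull (Prod.map f g) fun r c => ⟨r ∘ f, c ∘ g, fun _ _ => rfl⟩

def tmap (f : Y' → X) (g : X' → Y) : Sw X Y → Sw X' Y' :=
  pull (fun z => (f z.2, g z.1)) fun r c => ⟨c ∘ g, r ∘ f, fun _ _ => add_comm _ _⟩

theorem smap_mk (f : X' → X) (g : Y' → Y) (M : Mat X Y) :
    smap f g (mkS M) = mkS (fun z => M (f z.1, g z.2)) := rfl

theorem tmap_mk (f : Y' → X) (g : X' → Y) (M : Mat X Y) :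
    tmap f g (mkS M) = mkS (fun z => M (f z.2, g z.1)) := rfl

theorem smap_id (s : Sw X Y) : smap id id s = s := by
  obtain ⟨M, rfl⟩ := mkS_surj s; rfl

theorem smap_smap (f : X'' → X') (g : Y'' → Y') (f' : X' → X) (g' : Y' → Y) (s : Sw X Y) :
    smap f g (smap f' g' s) = smap (f' ∘ f) (g' ∘ g) s := by
  obtain ⟨M, rfl⟩ := mkS_surj s; rfl

theorem smap_tmap (f : X'' → X') (g : Y'' → Y') (f' : Y' → X) (g' : X' → Y) (s : Sw X Y) :
    smap f g (tmap f' g' s) = tmap (f' ∘ g) (g' ∘ f) s := by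
  obtain ⟨M, rfl⟩ := mkS_surj s; rfl

theorem tmap_smap (f : Y'' → X') (g : X'' → Y') (f' : X' → X) (g' : Y' → Y) (s : Sw X Y) :
    tmap f g (smap f' g' s) = tmap (f' ∘ f) (g' ∘ g) s := by
  obtain ⟨M, rfl⟩ := mkS_surj s; rfl

theorem tmap_tmap (f : Y'' → X') (g : X'' → Y') (f' : Y' → X) (g' : X' → Y) (s : Sw X Y) :
    tmap f g (tmap f' g' s) = smap (f' ∘ g) (g' ∘ f) s := by
  obtain ⟨M, rfl⟩ := mkS_surj s; rfl

theorem smap_inj {f : X' → X} {g : Y' → Y} (hf : Surjective f) (hg : Surjective g) :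
    Injective (smap f g) := by
  intro s t h
  have := congrArg (smap (surjInv hf) (surjInv hg)) h
  rwa [smap_smap, smap_smap, show f ∘ surjInv hf = id from funext (surjInv_eq hf),
    show g ∘ surjInv hg = id from funext (surjInv_eq hg), smap_id, smap_id] at this

def rtw (s : Sw X Y) (x x' : X) : Prop :=
  ∃ M, mkS M = s ∧ ∃ e, ∀ y, M (x', y) = M (x, y) + e

def ctw (s : Sw X Y) (y y' : Y) : Prop :=
  ∃ M, mkS M = s ∧ ∃ e, ∀ x, M (x, y') = M (x, y) + e

theorem rtw_mk (M : Mat X Y) (x x' : X) :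
    rtw (mkS M) x x' ↔ ∃ e, ∀ y, M (x', y) = M (x, y) + e := by
  refine ⟨?_, fun h => ⟨M, rfl, h⟩⟩
  rintro ⟨N, h, e, he⟩
  obtain ⟨r, c, h⟩ := (mkS_eq_iff _ _).1 h
  refine ⟨e + r x' - r x, fun y => ?_⟩
  rw [h, h, he]; ring

theorem ctw_mk (M : Mat X Y) (y y' : Y) :
    ctw (mkS M) y y' ↔ ∃ e, ∀ x, M (x, y') = M (x, y) + e := by
  refine ⟨?_, fun h => ⟨M, rfl, h⟩⟩
  rintro ⟨N, h, e, he⟩
  obtain ⟨r, c, h⟩ := (mkS_eq_iff _ _).1 h
  refine ⟨e + c y' - c y, fun x => ?_⟩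
  rw [h, h, he]; ring

theorem rtw_equiv (s : Sw X Y) : Equivalence (rtw s) := by
  obtain ⟨M, rfl⟩ := mkS_surj s
  refine ⟨fun x => (rtw_mk _ _ _).2 ⟨0, by simp⟩, ?_, ?_⟩
  · intro x y h
    obtain ⟨e, h⟩ := (rtw_mk _ _ _).1 h
    exact (rtw_mk _ _ _).2 ⟨-e, fun y => by rw [h]; ring⟩
  · intro x y z h h'
    obtain ⟨e, h⟩ := (rtw_mk _ _ _).1 h
    obtain ⟨e', h'⟩ := (rtw_mk _ _ _).1 h'
    exact (rtw_mk _ _ _).2 ⟨e + e', fun y => by rw [h', h]; ring⟩

theorem ctw_equiv (s : Sw X Y) : Equivalence (ctw s) := by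
  obtain ⟨M, rfl⟩ := mkS_surj s
  refine ⟨fun x => (ctw_mk _ _ _).2 ⟨0, by simp⟩, ?_, ?_⟩
  · intro x y h
    obtain ⟨e, h⟩ := (ctw_mk _ _ _).1 h
    exact (ctw_mk _ _ _).2 ⟨-e, fun y => by rw [h]; ring⟩
  · intro x y z h h'
    obtain ⟨e, h⟩ := (ctw_mk _ _ _).1 h
    obtain ⟨e', h'⟩ := (ctw_mk _ _ _).1 h'
    exact (ctw_mk _ _ _).2 ⟨e + e', fun y => by rw [h', h]; ring⟩

theorem rtw_smap (f : X' → X) {g : Y' → Y} (hg : Surjective g) (s : Sw X Y) (x x' : X') :
    rtw (smap f g s) x x' ↔ rtw s (f x) (f x') := by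
  obtain ⟨M, rfl⟩ := mkS_surj s
  rw [smap_mk, rtw_mk, rtw_mk]
  exact exists_congr fun e => (hg.forall (p := fun y => M (f x', y) = M (f x, y) + e)).symm

theorem ctw_smap {f : X' → X} (hf : Surjective f) (g : Y' → Y) (s : Sw X Y) (y y' : Y') :
    ctw (smap f g s) y y' ↔ ctw s (g y) (g y') := by
  obtain ⟨M, rfl⟩ := mkS_surj s
  rw [smap_mk, ctw_mk, ctw_mk]
  exact exists_congr fun e => (hf.forall (p := fun x => M (x, g y') = M (x, g y) + e)).symm

theorem rtw_tmap {f : Y' → X} (hf : Surjective f) (g : X' → Y) (s : Sw X Y) (x x' : X') :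
    rtw (tmap f g s) x x' ↔ ctw s (g x) (g x') := by
  obtain ⟨M, rfl⟩ := mkS_surj s
  rw [tmap_mk, rtw_mk, ctw_mk]
  exact exists_congr fun e => (hf.forall (p := fun y => M (y, g x') = M (y, g x) + e)).symm

theorem ctw_tmap (f : Y' → X) {g : X' → Y} (hg : Surjective g) (s : Sw X Y) (y y' : Y') :
    ctw (tmap f g s) y y' ↔ rtw s (f y) (f y') := by
  obtain ⟨M, rfl⟩ := mkS_surj s
  rw [tmap_mk, ctw_mk, rtw_mk]
  exact exists_congr fun e => (hg.forall (p := fun x => M (f y', x) = M (f y, x) + e)).symm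

theorem smap_self_row (s : Sw X Y) (g : X → X) (h : ∀ x, rtw s (g x) x) : smap g id s = s := by
  obtain ⟨M, rfl⟩ := mkS_surj s
  simp only [rtw_mk] at h
  choose e he using h
  rw [smap_mk, mkS_eq_iff]
  exact ⟨e, 0, fun x y => by rw [he]; simp⟩

theorem smap_self_col (s : Sw X Y) (g : Y → Y) (h : ∀ y, ctw s (g y) y) : smap id g s = s := by
  obtain ⟨M, rfl⟩ := mkS_surj s
  simp only [ctw_mk] at h
  choose e he using h
  rw [smap_mk, mkS_eq_iff]
  exact ⟨0, e, fun x y => by rw [he]; simp⟩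

def RRed (s : Sw X Y) : Prop := ∀ x x', rtw s x x' → x = x'

def CRed (s : Sw X Y) : Prop := ∀ y y', ctw s y y' → y = y'

def rowD (Y : Type) [Finite Y] (τ : Perm Y) : TwinData where
  F X := Sw X Y
  map f := smap f id
  map_id := smap_id
  map_comp f g s := smap_smap f id g id s
  tw := rtw
  tw_equiv := rtw_equiv
  tw_map f _ s := rtw_smap f surjective_id s
  map_self := smap_self_row
  Fix σ s := smap σ τ s = s ∧ CRed s
  Fix_map f σ h hf hc s := by
    refine and_congr ?_ ?_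
    · rw [smap_smap, show f ∘ σ = h ∘ f from funext hc,
        show id ∘ (τ : Y → Y) = τ ∘ id from rfl, ← smap_smap]
      exact (smap_inj hf surjective_id).eq_iff
    · simp only [CRed, ctw_smap hf, id]
  Fix_tw σ s h x x' := by
    rw [← rtw_smap σ τ.surjective, h.1]
  fin _ := inferInstance

def colD (X : Type) [Finite X] (σ : Perm X) : TwinData where
  F Y := Sw X Y
  map g := smap id g
  map_id := smap_id
  map_comp f g s := smap_smap id f id g s
  tw := ctw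
  tw_equiv := ctw_equiv
  tw_map f _ s := ctw_smap surjective_id f s
  map_self := smap_self_col
  Fix τ s := smap σ τ s = s
  Fix_map f τ h hf hc s := by
    rw [smap_smap, show f ∘ τ = h ∘ f from funext hc,
      show id ∘ (σ : X → X) = σ ∘ id from rfl, ← smap_smap]
    exact (smap_inj surjective_id hf).eq_iff
  Fix_tw τ s h x x' := by
    rw [← ctw_smap σ.surjective τ, h]
  fin _ := inferInstance

theorem tw_of_tfix {σ : Perm X} {s : Sw X X} (h : tmap id σ s = s) (x x' : X) :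
    ctw s x x' ↔ rtw s x x' := by
  conv_lhs => rw [← h, ctw_tmap id σ.surjective]
  rfl

def swD : TwinData where
  F X := Sw X X
  map f := smap f f
  map_id := smap_id
  map_comp f g s := smap_smap f f g g s
  tw s x x' := rtw s x x' ∧ ctw s x x'
  tw_equiv s := ⟨fun x => ⟨(rtw_equiv s).refl x, (ctw_equiv s).refl x⟩,
    fun h => ⟨(rtw_equiv s).symm h.1, (ctw_equiv s).symm h.2⟩,
    fun h h' => ⟨(rtw_equiv s).trans h.1 h'.1, (ctw_equiv s).trans h.2 h'.2⟩⟩
  tw_map f hf s x x' := and_congr (rtw_smap f hf s x x') (ctw_smap hf f s x x')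
  map_self s g h := by
    have := smap_smap g id id g s
    rw [smap_self_col s g fun x => (h x).2, smap_self_row s g fun x => (h x).1] at this
    exact this.symm
  Fix σ s := tmap id σ s = s
  Fix_map f σ h hf hc s := by
    rw [tmap_smap, show f ∘ σ = h ∘ f from funext hc, show f ∘ id = id ∘ f from rfl, ← smap_tmap]
    exact (smap_inj hf hf).eq_iff
  Fix_tw σ s h x x' := by
    have h1 : rtw s x x' ↔ ctw s (σ x) (σ x') := by
      conv_lhs => rw [← h, rtw_tmap surjective_id]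
    rw [tw_of_tfix h, tw_of_tfix h, h1, tw_of_tfix h]
  fin _ := inferInstance

end

end Pool.Agent.Lib.MP_7d9ca0_co
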