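import Pool.Agent.Lib.MP_7d9ca0_co.Key

namespace Pool.Agent.Lib.MP_7d9ca0_co

open Equiv Finset Function Nat

set_option linter.unusedSectionVars false

noncomputable section

structure TwinData : Type 1 where
  F : Type → Type
  map : ∀ {X S : Type}, (X → S) → F S → F X
  map_id : ∀ {X : Type} (s : F X), map id s = s
  map_comp : ∀ {X S T : Type} (f : X → S) (g : S → T) (s : F T), map f (map g s) = map (g ∘ f) s
  tw : ∀ {X : Type}, F X → X → X → Prop
  tw_equiv : ∀ {X : Type} (s : F X), Equivalence (tw s)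
  tw_map : ∀ {X S : Type} (f : X → S), Surjective f →
    ∀ s x x', tw (map f s) x x' ↔ tw s (f x) (f x')
  map_self : ∀ {X : Type} (s : F X) (g : X → X), (∀ x, tw s (g x) x) → map g s = s
  Fix : ∀ {X : Type}, Perm X → F X → Prop
  Fix_map : ∀ {X S : Type} (f : X → S) (σ : Perm X) (h : Perm S), Surjective f →
    (∀ x, f (σ x) = h (f x)) → ∀ s, Fix σ (map f s) ↔ Fix h s
  Fix_tw : ∀ {X : Type} (σ : Perm X) (s : F X), Fix σ s →
    ∀ x x', tw s x x' ↔ tw s (σ x) (σ x')
  fin : ∀ (X : Type) [Finite X], Finite (F X)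

namespace TwinData

variable (D : TwinData) {X : Type} [Fintype X] [DecidableEq X]

def Red {X : Type} (s : D.F X) : Prop := ∀ x x', D.tw s x x' → x = x'

def st {X : Type} (s : D.F X) : Setoid X := ⟨D.tw s, D.tw_equiv s⟩

def A {X : Type} (σ : Perm X) : ℕ := Nat.card {s : D.F X // D.Fix σ s}

def R {X : Type} (σ : Perm X) : ℕ := Nat.card {s : D.F X // D.Fix σ s ∧ D.Red s}

theorem map_inj {X S : Type} {f : X → S} (hf : Surjective f) : Injective (D.map f) := by
  intro s t h
  have := congrArg (D.map (surjInv hf)) h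
  rwa [D.map_comp, D.map_comp, show f ∘ surjInv hf = id from funext (surjInv_eq hf), D.map_id,
    D.map_id] at this

def T (σ : Perm X) (b : ℕ) : Type :=
  Σ h : Perm (Fin b), {f : X → Fin b // (∀ x, f (σ x) = h (f x)) ∧ Surjective f} ×
    {s : D.F (Fin b) // D.Fix h s ∧ D.Red s}

theorem card_T (σ : Perm X) (b : ℕ) :
    Nat.card (D.T σ b) = ∑ h : Perm (Fin b), sj σ h * D.R h := by
  have := D.fin (Fin b)
  unfold T
  rw [Nat.card_sigma]
  refine sum_congr rfl fun h _ => ?_
  rw [Nat.card_prod, R, sj, Nat.card_eq_fintype_card, Fintype.card_subtype]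

def pr (σ : Perm X) (b : ℕ) (t : D.T σ b) : {s : D.F X // D.Fix σ s} :=
  ⟨D.map t.2.1.1 t.2.2.1, (D.Fix_map _ σ t.1 t.2.1.2.2 t.2.1.2.1 _).2 t.2.2.2.1⟩

theorem card_fiber (σ : Perm X) (b : ℕ) (s : {s : D.F X // D.Fix σ s}) :
    Nat.card {t // D.pr σ b t = s} = Nat.card (Quotient (D.st s.1) ≃ Fin b) := by
  obtain ⟨s, hs⟩ := s
  let σ' : Perm (Quotient (D.st s)) := Quotient.congr σ (D.Fix_tw σ s hs)
  have hsurj : ∀ e : Quotient (D.st s) ≃ Fin b, Surjective fun x => e (Quotient.mk _ x) :=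
    fun e => e.surjective.comp Quotient.mk_surjective
  have hm : ∀ e : Quotient (D.st s) ≃ Fin b,
      D.map (fun x => e (Quotient.mk _ x)) (D.map (fun i => (e.symm i).out) s) = s := by
    intro e
    rw [D.map_comp]
    refine D.map_self s _ fun x => ?_
    simp only [Function.comp, symm_apply_apply]
    exact Quotient.mk_out (s := D.st s) x
  have heq : ∀ e : Quotient (D.st s) ≃ Fin b, ∀ x,
      e (Quotient.mk _ (σ x)) = (e.symm.trans (σ'.trans e)) (e (Quotient.mk _ x)) := by
    intro e x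
    simp only [trans_apply, symm_apply_apply]
    rfl
  let g : (Quotient (D.st s) ≃ Fin b) → {t // D.pr σ b t = ⟨s, hs⟩} := fun e =>
    ⟨⟨e.symm.trans (σ'.trans e), ⟨fun x => e (Quotient.mk _ x), heq e, hsurj e⟩,
      ⟨D.map (fun i => (e.symm i).out) s,
        (D.Fix_map _ σ _ (hsurj e) (heq e) _).1 (by rw [hm e]; exact hs), by
          intro i j hij
          obtain ⟨x, rfl⟩ := hsurj e i
          obtain ⟨y, rfl⟩ := hsurj e j
          rw [← D.tw_map _ (hsurj e), hm e] at hij
          exact congrArg e (Quotient.sound hij)⟩⟩, Subtype.ext (hm e)⟩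
  symm
  refine Nat.card_eq_of_bijective g ⟨?_, ?_⟩
  · intro e e' h
    have := congrArg (fun t => t.1.2.1.1) h
    ext q
    obtain ⟨x, rfl⟩ := Quotient.mk_surjective q
    exact congrArg Fin.val (congrFun this x)
  · rintro ⟨⟨h, ⟨f, hf1, hf2⟩, ⟨s', hs1, hs2⟩⟩, ht⟩
    have ht' : D.map f s' = s := congrArg Subtype.val ht
    have hk : ∀ x y, D.tw s x y ↔ f x = f y := by
      intro x y
      rw [← ht', D.tw_map f hf2]
      exact ⟨hs2 _ _, fun h => h ▸ (D.tw_equiv s').refl _⟩
    let e : Quotient (D.st s) ≃ Fin b := Equiv.ofBijective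
      (Quotient.lift f fun x y h => (hk x y).1 h) ⟨by
        intro p q hpq
        obtain ⟨x, rfl⟩ := Quotient.mk_surjective p
        obtain ⟨y, rfl⟩ := Quotient.mk_surjective q
        exact Quotient.sound ((hk x y).2 hpq), fun i => by
        obtain ⟨x, rfl⟩ := hf2 i
        exact ⟨Quotient.mk _ x, rfl⟩⟩
    refine ⟨e, Subtype.ext ?_⟩
    have e1 : e.symm.trans (σ'.trans e) = h := by
      ext i
      obtain ⟨x, rfl⟩ := hf2 i
      have := heq e x
      rw [← hf1]
      exact congrArg Fin.val this.symm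
    have e2 : D.map (fun i => (e.symm i).out) s = s' := D.map_inj hf2 (by rw [ht']; exact hm e)
    subst e1
    subst e2
    rfl

theorem card_equiv_fin (Q : Type) [Finite Q] (b : ℕ) :
    Nat.card (Q ≃ Fin b) = if Nat.card Q = b then b ! else 0 := by
  classical
  have := Fintype.ofFinite Q
  split_ifs with h
  · rw [Nat.card_eq_fintype_card] at h
    rw [Nat.card_eq_fintype_card, Fintype.card_equiv (Fintype.equivFinOfCardEq h), h]
  · have : IsEmpty (Q ≃ Fin b) := ⟨fun e => h (by rw [Nat.card_congr e]; simp)⟩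
    simp

theorem A_eq (σ : Perm X) (N : ℕ) (hN : Fintype.card X ≤ N) :
    (D.A σ : ℚ) = ∑ b ∈ range (N + 1), ∑ h : Perm (Fin b), (sj σ h : ℚ) * (D.R h / b !) := by
  have := D.fin X
  have := Fintype.ofFinite {s : D.F X // D.Fix σ s}
  have h1 : ∀ b, ∑ h : Perm (Fin b), (sj σ h : ℚ) * (D.R h / b !) =
      ∑ s : {s : D.F X // D.Fix σ s}, if Nat.card (Quotient (D.st s.1)) = b then 1 else 0 := by
    intro b
    have := D.fin (Fin b)
    have : Finite (D.T σ b) := by unfold T; infer_instance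
    have h2 := D.card_T σ b
    rw [← Nat.card_congr (Equiv.sigmaFiberEquiv (D.pr σ b)), Nat.card_sigma] at h2
    simp only [card_fiber, card_equiv_fin] at h2
    have h3 : (b ! : ℚ) ≠ 0 := by exact_mod_cast factorial_ne_zero b
    apply mul_right_cancel₀ h3
    rw [sum_mul, sum_mul]
    have h4 := congrArg (Nat.cast : ℕ → ℚ) h2
    push_cast at h4
    rw [sum_congr rfl (g := fun h => (sj σ h : ℚ) * D.R h) (fun h _ => by field_simp), ← h4]
    simp
  simp only [h1]
  rw [sum_comm, sum_congr rfl (g := fun _ => (1 : ℚ))]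
  · simp [A]
  · intro s _
    rw [sum_ite_eq, if_pos]
    rw [mem_range, Nat.lt_succ_iff]
    refine le_trans ?_ hN
    rw [← Nat.card_eq_fintype_card]
    exact Nat.card_le_card_of_surjective _ Quotient.mk_surjective

theorem V_A (d : ℕ) : V d (fun _ _ π => D.A π) = (∑ h : Perm (Fin d), (D.R h : ℚ)) / d ! := by
  rw [V_congr d (G := fun _ _ π =>
    ∑ b ∈ range (d + 1), ∑ h : Perm (Fin b), (sj π h : ℚ) * (D.R h / b !))
    (fun a b π hab => D.A_eq π d (by simp; omega)), V_sum]
  simp only [V_sum, V_mul, V_sj, Fintype.card_fin, ite_mul, one_mul, zero_mul]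
  rw [sum_eq_single d]
  · simp [sum_div]
  · intro b _ hb
    simp [hb]
  · simp

end TwinData

end

end Pool.Agent.Lib.MP_7d9ca0_co
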